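import Pool.Agent.U157.Kato.Base

/-!
The birational atlas of a Kato surface.
-/

set_option autoImplicit false

open Manifold Filter Topology Set MvPolynomial
open scoped ContDiff

namespace Pool.Agent.U157.Kato

section gen

variable {X Y : Type} [TopologicalSpace X] [ChartedSpace V X] [TopologicalSpace Y]
  [ChartedSpace V Y]

/-- the homeomorphism of a partial diffeomorphism -/
def toOPH (Φ : PartialDiffeomorph 𝓘(ℂ, V) 𝓘(ℂ, V) Y X ω) : OpenPartialHomeomorph Y X :=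
  { toPartialEquiv := Φ.toPartialEquiv
    open_source := Φ.open_source
    open_target := Φ.open_target
    continuousOn_toFun := Φ.contMDiffOn_toFun.continuousOn
    continuousOn_invFun := Φ.contMDiffOn_invFun.continuousOn }

theorem diffeo_map_nhds {π : Y → X} {y : Y}
    (h : IsLocalDiffeomorphAt 𝓘(ℂ, V) 𝓘(ℂ, V) ω π y) : map π (𝓝 y) = 𝓝 (π y) := by
  obtain ⟨Φ, hyΦ, hΦ⟩ := h
  have h1 : π =ᶠ[𝓝 y] toOPH Φ := eventually_of_mem (Φ.open_source.mem_nhds hyΦ) hΦ
  rw [map_congr h1, h1.eq_of_nhds]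
  exact (toOPH Φ).map_nhds_eq hyΦ

theorem isOpen_image_of_diffeo {π : Y → X} {O : Set Y} (hO : IsOpen O)
    (h : ∀ y ∈ O, IsLocalDiffeomorphAt 𝓘(ℂ, V) 𝓘(ℂ, V) ω π y) : IsOpen (π '' O) := by
  rw [isOpen_iff_mem_nhds]
  rintro _ ⟨y, hy, rfl⟩
  rw [← diffeo_map_nhds (h y hy)]
  exact image_mem_map (hO.mem_nhds hy)

theorem exists_inverse_chart {q : Y → X} {z : Y}
    (h : IsLocalDiffeomorphAt 𝓘(ℂ, V) 𝓘(ℂ, V) ω q z) {W : Set Y} (hW : IsOpen W) (hz : z ∈ W) :
    ∃ t : OpenPartialHomeomorph X Y, z ∈ t.target ∧ t.target ⊆ W ∧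
      (∀ y ∈ t.target, t.symm y = q y) ∧
      (∀ s ∈ t.source, ContMDiffAt 𝓘(ℂ, V) 𝓘(ℂ, V) ω t s) ∧
      ∀ y ∈ t.target, ContMDiffAt 𝓘(ℂ, V) 𝓘(ℂ, V) ω t.symm y := by
  obtain ⟨Φ, hzΦ, hΦ⟩ := h
  refine ⟨((toOPH Φ).restrOpen W hW).symm, ⟨hzΦ, hz⟩, fun y hy => hy.2,
    fun y hy => (hΦ hy.1).symm, ?_, ?_⟩
  · intro s hs
    have h1 : s ∈ Φ.target := by
      have h2 := ((toOPH Φ).restrOpen W hW).map_target hs
      have h3 := (toOPH Φ).map_source h2.1
      have h4 : (toOPH Φ) ((toOPH Φ).symm s) = s := ((toOPH Φ).restrOpen W hW).right_inv hs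
      rw [← h4]
      exact h3
    exact (Φ.contMDiffOn_invFun s h1).contMDiffAt (Φ.open_target.mem_nhds h1)
  · intro y hy
    exact (Φ.contMDiffOn_toFun y hy.1).contMDiffAt (Φ.open_source.mem_nhds hy.1)

theorem isChart_of_inverse {t : OpenPartialHomeomorph X Y} {a : OpenPartialHomeomorph Y V}
    (ha : IsChart a) (h1 : ∀ s ∈ t.source, ContMDiffAt 𝓘(ℂ, V) 𝓘(ℂ, V) ω t s)
    (h2 : ∀ y ∈ t.target, ContMDiffAt 𝓘(ℂ, V) 𝓘(ℂ, V) ω t.symm y) : IsChart (t.trans a) := by
  constructor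
  · intro s hs
    rw [OpenPartialHomeomorph.trans_source] at hs
    have h3 : ContMDiffAt 𝓘(ℂ, V) 𝓘(ℂ, V) ω (a ∘ t) s := (ha.at hs.2).comp s (h1 s hs.1)
    exact h3.contMDiffWithinAt
  · intro w hw
    rw [OpenPartialHomeomorph.trans_target] at hw
    have h3 : ContMDiffAt 𝓘(ℂ, V) 𝓘(ℂ, V) ω (t.symm ∘ a.symm) w :=
      (h2 _ hw.2).comp w (ha.symm_at hw.1)
    exact h3.contMDiffWithinAt

end gen

theorem exists_Ball {s : Set V} (hs : s ∈ 𝓝 (0 : V)) : ∃ ε : ℝ, 0 < ε ∧ ε ≤ 1 ∧ Ball ε ⊆ s := by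
  obtain ⟨δ, hδ, hb⟩ := Metric.mem_nhds_iff.1 hs
  refine ⟨min δ 1, lt_min hδ one_pos, min_le_right _ _, fun x hx => hb ?_⟩
  rw [mem_ball_zero_iff]
  have h1 : nsq x < δ ^ 2 := by
    refine lt_of_lt_of_le hx ?_
    have : 0 ≤ min δ 1 := le_min hδ.le zero_le_one
    exact pow_le_pow_left₀ this (min_le_left _ _) 2
  have h2 : ‖x.1‖ ^ 2 < δ ^ 2 := by
    have : 0 ≤ ‖x.2‖ ^ 2 := by positivity
    have h3 : nsq x = ‖x.1‖ ^ 2 + ‖x.2‖ ^ 2 := rfl
    linarith
  have h3 : ‖x.2‖ ^ 2 < δ ^ 2 := by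
    have : 0 ≤ ‖x.1‖ ^ 2 := by positivity
    have h3 : nsq x = ‖x.1‖ ^ 2 + ‖x.2‖ ^ 2 := rfl
    linarith
  exact max_lt (abs_lt_of_sq_lt_sq' h2 hδ.le).2 (abs_lt_of_sq_lt_sq' h3 hδ.le).2

theorem IsChart.loc {c : OpenPartialHomeomorph V V} (hc : IsChart c) {x : V} (hx : x ∈ c.source) :
    Loc c x := trans_loc (φ := OpenPartialHomeomorph.refl V) hc isChart_refl hx (mem_univ x)

/-- **Every Kato surface has a birational structure.** -/
theorem kato_birational (S : Type) [TopologicalSpace S] [T2Space S] [CompactSpace S]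
    [ChartedSpace V S] (hS : IsKatoSurface S) : HasBirationalStructure S := by
  obtain ⟨n, Z, σ, q, r, hn, hZ, hσ, hσi, hr0, hr1, hσr, hσ0, hq, hqs, hqe⟩ := hS
  have hpc : Continuous Z.proj := (tower_holo hZ).continuous
  have hb0 : (0 : V) ∈ Ball 1 := by rw [mem_Ball]; simp [nsq]
  obtain ⟨F, hFdef⟩ : ∃ F : V → V, F = fun x => Z.proj (σ x) := ⟨_, rfl⟩
  obtain ⟨G, hGdef⟩ : ∃ G : Z.X → Z.X, G = fun z => σ (Z.proj z) := ⟨_, rfl⟩
  have hFa : ∀ x ∈ Ball 1, AnalyticAt ℂ F x := by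
    intro x hx
    rw [← cmdiffAt_iff, hFdef]
    exact (tower_holo hZ).contMDiffAt.comp x (hσ x hx).contMDiffAt
  have hF0 : F 0 = 0 := by rw [hFdef]; exact hσ0
  have hFm : ∀ x ∈ Ball 1, F x ∈ Ball r := by rw [hFdef]; exact hσr
  have hFd : ∀ x ∈ Ball 1, DifferentiableAt ℂ F x := fun x hx => (hFa x hx).differentiableAt
  have hFn : ∀ x ∈ Ball 1, nsq (F x) ≤ r ^ 2 * nsq x := fun x hx =>
    schwarz_ball hr0 hFd hFm hF0 hx
  -- the germ of `F`
  obtain ⟨ξ, F', hξ, hξ0, hF', hξF⟩ : ∃ ξ F' : V → V, Loc ξ 0 ∧ ξ 0 = 0 ∧ Bir F' ∧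
      ∀ᶠ x in 𝓝 0, ξ (F x) = F' (ξ x) := by
    obtain ⟨a, ha, hea, ha0, ψ, hψ, hψ0, hbir, hkind, hev⟩ :=
      tower_chart hZ (b := fun x => x) cr_id.1 rfl hσ0
    have hk : Kind ψ := by
      rcases hkind with h | ⟨h, _⟩
      · exact h
      · omega
    obtain ⟨c, hc, h0c, hcσ⟩ := isChart_of_diffeo (hσ 0 hb0) ha hea
    have hsl : Loc (fun x => a (σ x)) 0 := (hc.loc h0c).congr
      (eventually_of_mem (c.open_source.mem_nhds h0c) fun x hx => (hcσ x hx).2)
    refine exists_normal hsl ha0 hψ hψ0 hbir hk ?_ (eigen_lt hr0 hr1 hFd hFm hF0)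
    have h1 : ContinuousAt σ 0 := (hσ 0 hb0).contMDiffAt.continuousAt
    rw [hFdef]
    exact h1.eventually hev
  obtain ⟨e, h0e, he, heξ⟩ := exists_local_chart hξ
  obtain ⟨W, hW, h0W, hrel1, hrel2⟩ := hF'
  -- the small ball
  obtain ⟨ε, hε0, hε1, hε⟩ : ∃ ε : ℝ, 0 < ε ∧ ε ≤ 1 ∧
      Ball ε ⊆ {x | x ∈ e.source ∧ ξ x ∈ W ∧ ξ (F x) = F' (ξ x)} := by
    refine exists_Ball ?_
    have h1 : ∀ᶠ x in 𝓝 (0 : V), ξ x ∈ W := by
      apply hξ.1.continuousAt.eventually_mem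
      rw [hξ0]
      exact hW.mem_nhds h0W
    filter_upwards [e.open_source.mem_nhds h0e, h1, hξF] with x h2 h3 h4
    exact ⟨h2, h3, h4⟩
  have hD1 : ∀ x ∈ Ball ε, x ∈ Ball 1 := by
    intro x hx
    rw [mem_Ball] at hx ⊢
    refine hx.trans_le ?_
    nlinarith
  have h0D : (0 : V) ∈ Ball ε := by
    rw [mem_Ball]
    simp [nsq]
    positivity
  have hFD : ∀ x ∈ Ball ε, F x ∈ Ball ε := by
    intro x hx
    have h1 := hFn x (hD1 x hx)
    rw [mem_Ball] at hx ⊢
    have h2 := nsq_nonneg x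
    have h3 : r ^ 2 ≤ 1 := by nlinarith
    nlinarith
  obtain ⟨R, hRdef⟩ : ∃ R : Set Z.X, R = {z | Z.proj z ∈ Ball ε} := ⟨_, rfl⟩
  have hR : ∀ z, z ∈ R ↔ Z.proj z ∈ Ball ε := fun z => by rw [hRdef]; rfl
  have hRo : IsOpen R := by rw [hRdef]; exact (isOpen_Ball ε).preimage hpc
  obtain ⟨Θ, hΘdef⟩ : ∃ Θ : Z.X → V, Θ = fun z => ξ (Z.proj z) := ⟨_, rfl⟩
  have hΘ : ∀ z, Θ z = ξ (Z.proj z) := fun z => by rw [hΘdef]
  have hG : ∀ z, G z = σ (Z.proj z) := fun z => by rw [hGdef]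
  have hprojG : ∀ z, Z.proj (G z) = F (Z.proj z) := fun z => by rw [hG, hFdef]
  have hGR : MapsTo G R R := by
    intro z hz
    rw [hR] at hz ⊢
    rw [hprojG]
    exact hFD _ hz
  have hΘG : ∀ z ∈ R, Θ (G z) = F' (Θ z) := by
    intro z hz
    rw [hR] at hz
    rw [hΘ, hΘ, hprojG]
    exact (hε hz).2.2
  have hΘc : ContinuousOn Θ R := by
    intro z hz
    rw [hR] at hz
    have h1 : ContinuousAt e (Z.proj z) := e.continuousAt (hε hz).1
    have h2 : ContinuousAt Θ z := by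
      rw [hΘdef]
      have h3 : (fun z => ξ (Z.proj z)) = fun z => e (Z.proj z) := by
        funext y
        rw [heξ]
      rw [h3]
      exact ContinuousAt.comp h1 hpc.continuousAt
    exact h2.continuousWithinAt
  have hGc : ContinuousOn G R := by
    intro z hz
    rw [hR] at hz
    have h1 : ContinuousAt σ (Z.proj z) := (hσ _ (hD1 _ hz)).contMDiffAt.continuousAt
    have h2 : ContinuousAt G z := by
      rw [hGdef]
      exact ContinuousAt.comp h1 hpc.continuousAt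
    exact h2.continuousWithinAt
  have hGkR : ∀ k, MapsTo (G^[k]) R R := fun k => hGR.iterate k
  have hGkc : ∀ k, ContinuousOn (G^[k]) R := by
    intro k
    induction k with
    | zero => exact continuousOn_id
    | succ k ih =>
      rw [Function.iterate_succ']
      exact hGc.comp ih (hGkR k)
  -- images of open sets
  have hprojQ : ∀ O : Set Z.X, IsOpen O → O.Nonempty → (interior (Z.proj '' O)).Nonempty := by
    intro O hO hne
    obtain ⟨z, hz, hz0⟩ := tower_dense hn hZ hO hne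
    obtain ⟨c, hc, hzc, hcp⟩ := tower_pull hZ hz0 isChart_refl (mem_univ _)
    have h1 : IsOpen (c '' (O ∩ c.source)) :=
      c.isOpen_image_of_subset_source (hO.inter c.open_source) inter_subset_right
    have h2 : c '' (O ∩ c.source) ⊆ Z.proj '' O := by
      rintro _ ⟨y, hy, rfl⟩
      exact ⟨y, hy.1, (hcp y hy.2).2.symm⟩
    exact ⟨c z, interior_maximal h2 h1 (mem_image_of_mem _ ⟨hz, hzc⟩)⟩
  have hΘQ : QO Θ R := by
    have h1 : QO ξ (Ball ε) := by
      have h2 := qo_chart e (fun x hx => (hε hx).1 : Ball ε ⊆ e.source)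
      intro O hO hOo hne
      have h3 : ξ '' O = e '' O := image_congr fun x _ => (heξ x).symm
      rw [h3]
      exact h2 O hO hOo hne
    rw [hΘdef]
    refine QO.comp h1 (fun O hO hOo hne => ?_) (isOpen_Ball ε)
    refine (hprojQ O hOo hne).mono fun x hx => ⟨hx, ?_⟩
    obtain ⟨z, hz, rfl⟩ := interior_subset hx
    exact (hR z).1 (hO hz)
  have hGQ : ∀ O ⊆ R, IsOpen O → O.Nonempty → (interior (G '' O) ∩ R).Nonempty := by
    intro O hO hOo hne
    obtain ⟨x, hx⟩ := hprojQ O hOo hne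
    have hsub : interior (Z.proj '' O) ⊆ Ball ε := by
      intro y hy
      obtain ⟨z, hz, rfl⟩ := interior_subset hy
      exact (hR z).1 (hO hz)
    have h1 : IsOpen (σ '' interior (Z.proj '' O)) :=
      isOpen_image_of_diffeo isOpen_interior fun y hy => hσ y (hD1 _ (hsub hy))
    have h2 : σ '' interior (Z.proj '' O) ⊆ G '' O := by
      rintro _ ⟨y, hy, rfl⟩
      obtain ⟨z, hz, rfl⟩ := interior_subset hy
      exact ⟨z, hz, hG z⟩
    refine ⟨σ x, interior_maximal h2 h1 (mem_image_of_mem _ hx), ?_⟩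
    rw [hR]
    have h3 := hFD x (hsub hx)
    rwa [hFdef] at h3
  have hΘGQ : ∀ k, QO (fun z => Θ (G^[k] z)) R := by
    intro k
    induction k with
    | zero => exact hΘQ
    | succ k ih =>
      have h1 : (fun z => Θ (G^[k + 1] z)) = fun z => (fun z => Θ (G^[k] z)) (G z) := by
        funext z
        rw [Function.iterate_succ_apply]
      rw [h1]
      exact QO.comp (f := fun z => Θ (G^[k] z)) ih hGQ hRo
  have hpR : σ 0 ∈ R := by rw [hR, hσ0]; exact h0D
  have hrelk : ∀ k, Rel Θ (fun z => Θ (G^[k] z)) R ∧ Rel (fun z => Θ (G^[k] z)) Θ R := by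
    intro k
    induction k with
    | zero => exact ⟨Rel.refl _ _, Rel.refl _ _⟩
    | succ k ih =>
      have hm : MapsTo (fun z => Θ (G^[k] z)) R W := by
        intro z hz
        have h1 := hGkR k hz
        rw [hR] at h1
        change Θ (G^[k] z) ∈ W
        rw [hΘ]
        exact (hε h1).2.1
      have h2 : ∀ z ∈ R, F' (Θ (G^[k] z)) = Θ (G^[k + 1] z) := by
        intro z hz
        rw [Function.iterate_succ_apply', hΘG _ (hGkR k hz)]
      have h3 : Rel (fun z => Θ (G^[k] z)) (fun z => Θ (G^[k + 1] z)) R :=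
        (hrel2.comp hm).congr (fun z _ => rfl) h2
      have h4 : Rel (fun z => Θ (G^[k + 1] z)) (fun z => Θ (G^[k] z)) R :=
        (hrel1.comp hm).congr h2 (fun z _ => rfl)
      exact ⟨Rel.trans hRo ⟨_, hpR⟩ hΘc hΘQ (hΘGQ k) ih.1 h3,
        Rel.trans hRo ⟨_, hpR⟩ (hΘc.comp (hGkc (k + 1)) (hGkR (k + 1))) (hΘGQ (k + 1)) (hΘGQ k)
          h4 ih.2⟩
  -- charts of `Z`
  have hchart : ∀ z ∈ R, ∃ a : OpenPartialHomeomorph Z.X V, IsChart a ∧
      ∃ N : Set Z.X, IsOpen N ∧ z ∈ N ∧ N ⊆ R ∧ N ⊆ a.source ∧ Rel a Θ N ∧ Rel Θ a N := by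
    intro z hz
    by_cases hz0 : Z.proj z = 0
    · obtain ⟨a, ha, hza, ha0, ψ, hψ, hψ0, ⟨W₀, hW₀, h0W₀, hr1, hr2⟩, -, hev⟩ :=
        tower_chart hZ hξ hξ0 hz0
      have h1 : ∀ᶠ y in 𝓝 z, Θ y = ψ (a y) ∧ y ∈ a.source ∧ a y ∈ W₀ ∧ y ∈ R := by
        have h2 : ∀ᶠ y in 𝓝 z, a y ∈ W₀ := by
          apply (a.continuousAt hza).eventually_mem
          rw [ha0]
          exact hW₀.mem_nhds h0W₀
        filter_upwards [hev, a.open_source.mem_nhds hza, h2, hRo.mem_nhds hz] with y g1 g2 g3 g4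
        exact ⟨by rw [hΘ]; exact g1, g2, g3, g4⟩
      obtain ⟨N, hN, hNo, hzN⟩ := eventually_nhds_iff.1 h1
      refine ⟨a, ha, N, hNo, hzN, fun y hy => (hN y hy).2.2.2, fun y hy => (hN y hy).2.1, ?_, ?_⟩
      · exact (hr2.comp (fun y hy => (hN y hy).2.2.1)).congr (fun y _ => rfl)
          (fun y hy => (hN y hy).1.symm)
      · exact (hr1.comp (fun y hy => (hN y hy).2.2.1)).congr (fun y hy => (hN y hy).1.symm)
          (fun y _ => rfl)
    · have hz' := (hR z).1 hz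
      obtain ⟨c, hc, hzc, hcp⟩ := tower_pull hZ hz0 he (hε hz').1
      have h1 : ∀ y ∈ R ∩ c.source, c y = Θ y := by
        intro y hy
        rw [(hcp y hy.2).2, heξ, hΘ]
      refine ⟨c, hc, R ∩ c.source, hRo.inter c.open_source, ⟨hz, hzc⟩, inter_subset_left,
        inter_subset_right, ?_, ?_⟩
      · exact (Rel.refl c _).congr (fun y _ => rfl) h1
      · exact (Rel.refl c _).congr h1 (fun y _ => rfl)
  -- every point is the image of a point close to the exceptional set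
  have hcover : ∀ s, ∃ z ∈ R, z ≠ σ 0 ∧ q z = s := by
    intro s
    obtain ⟨z, hz1, hzp, rfl⟩ := hqs s
    have hk : ∀ k, Z.proj (G^[k] z) ∈ Ball 1 ∧ nsq (Z.proj (G^[k] z)) ≤ (r ^ 2) ^ k * 1 := by
      intro k
      induction k with
      | zero =>
        refine ⟨hz1, ?_⟩
        have h1 : nsq (Z.proj z) < 1 ^ 2 := hz1
        simp only [Function.iterate_zero, id_eq, pow_zero, mul_one]
        linarith
      | succ k ih =>
        rw [Function.iterate_succ_apply', hprojG]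
        have h1 := hFn _ ih.1
        refine ⟨?_, ?_⟩
        · have h2 := hFm _ ih.1
          rw [mem_Ball] at h2 ⊢
          refine h2.trans_le ?_
          nlinarith
        · refine h1.trans ?_
          have h3 : (r ^ 2) ^ (k + 1) * 1 = r ^ 2 * ((r ^ 2) ^ k * 1) := by ring
          rw [h3]
          exact mul_le_mul_of_nonneg_left ih.2 (by positivity)
    have hex : ∃ k, Z.proj (G^[k] z) ∈ Ball ε := by
      have h1 : r ^ 2 < 1 := by nlinarith
      obtain ⟨k, hk1⟩ := exists_pow_lt_of_lt_one (show 0 < ε ^ 2 by positivity) h1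
      refine ⟨k, ?_⟩
      rw [mem_Ball]
      have := (hk k).2
      linarith
    classical
    set k := Nat.find hex with hkdef
    have hkε : Z.proj (G^[k] z) ∈ Ball ε := Nat.find_spec hex
    have hne : G^[k] z ≠ σ 0 := by
      rcases Nat.eq_zero_or_pos k with h0 | h0
      · rw [h0]
        exact hzp
      · obtain ⟨j, hj⟩ : ∃ j, k = j + 1 := ⟨k - 1, by omega⟩
        intro h1
        rw [hj, Function.iterate_succ_apply', hG] at h1
        have h2 := hσi (hk j).1 hb0 h1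
        have h3 : ¬ Z.proj (G^[j] z) ∈ Ball ε := Nat.find_min hex (by omega)
        rw [h2] at h3
        exact h3 h0D
    refine ⟨G^[k] z, (hR _).2 hkε, hne, ?_⟩
    refine ((hqe z (G^[k] z) hz1 hzp (hD1 _ hkε) hne).2 ⟨k, Or.inl ?_⟩).symm
    rw [hGdef]
  -- the atlas
  set C : Set (OpenPartialHomeomorph S V) := {c | ∃ (t : OpenPartialHomeomorph S Z.X)
    (a : OpenPartialHomeomorph Z.X V), c = t.trans a ∧ IsChart a ∧ t.target ⊆ a.source ∧
      (∀ y ∈ t.target, y ∈ R ∧ y ≠ σ 0 ∧ t.symm y = q y) ∧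
      (∀ s ∈ t.source, ContMDiffAt 𝓘(ℂ, V) 𝓘(ℂ, V) ω t s) ∧
      (∀ y ∈ t.target, ContMDiffAt 𝓘(ℂ, V) 𝓘(ℂ, V) ω t.symm y) ∧
      Rel a Θ t.target ∧ Rel Θ a t.target} with hCdef
  refine hasBirational_of_local C ?_ ?_ ?_
  · rintro _ ⟨t, a, rfl, ha, -, -, h1, h2, -, -⟩
    exact isChart_of_inverse ha h1 h2
  · intro s
    obtain ⟨z, hz, hzp, rfl⟩ := hcover s
    obtain ⟨a, ha, N, hNo, hzN, hNR, hNa, hr1, hr2⟩ := hchart z hz
    obtain ⟨t, hzt, htN, htq, h1, h2⟩ := exists_inverse_chart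
      (hq z (hD1 _ ((hR z).1 hz)) hzp) (hNo.inter (isOpen_compl_singleton (x := σ 0))) ⟨hzN, hzp⟩
    refine ⟨t.trans a, ⟨t, a, rfl, ha, fun y hy => hNa (htN hy).1,
      fun y hy => ⟨hNR (htN hy).1, (htN hy).2, htq y hy⟩, h1, h2,
      hr1.mono fun y hy => (htN hy).1, hr2.mono fun y hy => (htN hy).1⟩, ?_⟩
    rw [OpenPartialHomeomorph.trans_source]
    have h3 : q z ∈ t.source := by
      rw [← htq z hzt]
      exact t.map_target hzt
    refine ⟨h3, ?_⟩
    rw [mem_preimage, ← htq z hzt, t.right_inv hzt]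
    exact hNa (htN hzt).1
  · rintro _ ⟨t, a, rfl, ha, hta, htR, -, -, hr1, hr2⟩ _ ⟨t', a', rfl, ha', hta', htR', -, -, hr1', hr2'⟩
      s hs hs'
    rw [OpenPartialHomeomorph.trans_source] at hs hs'
    have hst := hs.1
    have hst' := hs'.1
    have hqt : ∀ s ∈ t.source, q (t s) = s := by
      intro s hs
      rw [← (htR _ (t.map_source hs)).2.2, t.left_inv hs]
    have hqt' : ∀ s ∈ t'.source, q (t' s) = s := by
      intro s hs
      rw [← (htR' _ (t'.map_source hs)).2.2, t'.left_inv hs]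
    -- the open set
    obtain ⟨O, hO, hsO, hOt, hOt', hΘO⟩ : ∃ O : Set S, IsOpen O ∧ s ∈ O ∧ O ⊆ t.source ∧
        O ⊆ t'.source ∧ Rel (fun s => Θ (t s)) (fun s => Θ (t' s)) O := by
      have hy := htR _ (t.map_source hst)
      have hy' := htR' _ (t'.map_source hst')
      have hqq : q (t s) = q (t' s) := by rw [hqt s hst, hqt' s hst']
      obtain ⟨k, hk⟩ := (hqe _ _ (hD1 _ ((hR _).1 hy.1)) hy.2.1 (hD1 _ ((hR _).1 hy'.1)) hy'.2.1).1 hqq
      rw [← hGdef] at hk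
      rcases hk with hk | hk
      · have h1 : ContinuousAt (fun s => G^[k] (t s)) s :=
          ContinuousAt.comp ((hGkc k).continuousAt (hRo.mem_nhds hy.1)) (t.continuousAt hst)
        have h2 : ∀ᶠ x in 𝓝 s, G^[k] (t x) ∈ t'.target ∧ x ∈ t.source ∧ x ∈ t'.source := by
          have h3 : ∀ᶠ x in 𝓝 s, G^[k] (t x) ∈ t'.target := by
            apply h1.eventually_mem
            rw [hk]
            exact t'.open_target.mem_nhds (t'.map_source hst')
          filter_upwards [h3, t.open_source.mem_nhds hst, t'.open_source.mem_nhds hst'] with x g1 g2 g3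
          exact ⟨g1, g2, g3⟩
        obtain ⟨O, hO, hOo, hsO⟩ := eventually_nhds_iff.1 h2
        refine ⟨O, hOo, hsO, fun x hx => (hO x hx).2.1, fun x hx => (hO x hx).2.2, ?_⟩
        have h3 : ∀ x ∈ O, t' x = G^[k] (t x) := by
          intro x hx
          obtain ⟨g1, g2, g3⟩ := hO x hx
          have g4 := htR _ (t.map_source g2)
          have g5 := htR' _ g1
          have g6 : q (t x) = q (G^[k] (t x)) := by
            refine (hqe _ _ (hD1 _ ((hR _).1 g4.1)) g4.2.1 (hD1 _ ((hR _).1 g5.1)) g5.2.1).2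
              ⟨k, Or.inl ?_⟩
            rw [hGdef]
          rw [hqt x g2, ← g5.2.2] at g6
          rw [g6, t'.right_inv g1]
          rw [← g6]
        exact ((hrelk k).1.comp (fun x hx => (htR _ (t.map_source (hO x hx).2.1)).1)).congr
          (fun x _ => rfl) (fun x hx => by rw [h3 x hx])
      · have h1 : ContinuousAt (fun s => G^[k] (t' s)) s :=
          ContinuousAt.comp ((hGkc k).continuousAt (hRo.mem_nhds hy'.1)) (t'.continuousAt hst')
        have h2 : ∀ᶠ x in 𝓝 s, G^[k] (t' x) ∈ t.target ∧ x ∈ t.source ∧ x ∈ t'.source := by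
          have h3 : ∀ᶠ x in 𝓝 s, G^[k] (t' x) ∈ t.target := by
            apply h1.eventually_mem
            rw [hk]
            exact t.open_target.mem_nhds (t.map_source hst)
          filter_upwards [h3, t.open_source.mem_nhds hst, t'.open_source.mem_nhds hst'] with x g1 g2 g3
          exact ⟨g1, g2, g3⟩
        obtain ⟨O, hO, hOo, hsO⟩ := eventually_nhds_iff.1 h2
        refine ⟨O, hOo, hsO, fun x hx => (hO x hx).2.1, fun x hx => (hO x hx).2.2, ?_⟩
        have h3 : ∀ x ∈ O, t x = G^[k] (t' x) := by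
          intro x hx
          obtain ⟨g1, g2, g3⟩ := hO x hx
          have g4 := htR' _ (t'.map_source g3)
          have g5 := htR _ g1
          have g6 : q (t' x) = q (G^[k] (t' x)) := by
            refine (hqe _ _ (hD1 _ ((hR _).1 g4.1)) g4.2.1 (hD1 _ ((hR _).1 g5.1)) g5.2.1).2
              ⟨k, Or.inl ?_⟩
            rw [hGdef]
          rw [hqt' x g3, ← g5.2.2] at g6
          rw [g6, t.right_inv g1]
          rw [← g6]
        exact ((hrelk k).2.comp (fun x hx => (htR' _ (t'.map_source (hO x hx).2.2)).1)).congr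
          (fun x hx => by rw [h3 x hx]) (fun x _ => rfl)
    refine ⟨O, hO, hsO, ?_⟩
    have hqc : QO (t.trans a) O := by
      refine qo_chart _ fun x hx => ?_
      rw [OpenPartialHomeomorph.trans_source]
      exact ⟨hOt hx, hta (t.map_source (hOt hx))⟩
    have hcc : ContinuousOn (t.trans a) O := by
      refine (t.trans a).continuousOn.mono fun x hx => ?_
      rw [OpenPartialHomeomorph.trans_source]
      exact ⟨hOt hx, hta (t.map_source (hOt hx))⟩
    have hqΘ : QO (fun s => Θ (t s)) O := by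
      refine QO.comp hΘQ (fun O' hO' hOo' hne' => ?_) hRo
      have h1 : IsOpen (t '' O') := t.isOpen_image_of_subset_source hOo' (hO'.trans hOt)
      rw [h1.interior_eq]
      obtain ⟨x, hx⟩ := hne'
      exact ⟨t x, mem_image_of_mem _ hx, (htR _ (t.map_source (hOt (hO' hx)))).1⟩
    have hqΘ' : QO (fun s => Θ (t' s)) O := by
      refine QO.comp hΘQ (fun O' hO' hOo' hne' => ?_) hRo
      have h1 : IsOpen (t' '' O') := t'.isOpen_image_of_subset_source hOo' (hO'.trans hOt')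
      rw [h1.interior_eq]
      obtain ⟨x, hx⟩ := hne'
      exact ⟨t' x, mem_image_of_mem _ hx, (htR' _ (t'.map_source (hOt' (hO' hx)))).1⟩
    have ra : Rel (t.trans a) (fun s => Θ (t s)) O :=
      (hr1.comp (fun x hx => t.map_source (hOt hx))).congr (fun x _ => rfl) (fun x _ => rfl)
    have rb : Rel (fun s => Θ (t' s)) (t'.trans a') O :=
      (hr2'.comp (fun x hx => t'.map_source (hOt' hx))).congr (fun x _ => rfl) (fun x _ => rfl)
    exact Rel.trans hO ⟨s, hsO⟩ hcc hqc hqΘ'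
      (Rel.trans hO ⟨s, hsO⟩ hcc hqc hqΘ ra hΘO) rb

end Pool.Agent.U157.Kato
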