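import Pool.Agent.U157.Kato.Rel

/-!
On a compact surface a locally birational atlas can be refined to a birational atlas.
-/

set_option autoImplicit false

open Manifold Filter Topology Set MvPolynomial Uniformity
open scoped ContDiff

namespace Pool.Agent.U157.Kato

theorem qo_chart {X : Type} [TopologicalSpace X] (c : OpenPartialHomeomorph X V) {W : Set X}
    (hW : W ⊆ c.source) : QO c W := by
  intro O hO hOo hne
  rw [(c.isOpen_image_of_subset_source hOo (hO.trans hW)).interior_eq]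
  exact hne.image _

theorem hasBirational_of_local {S : Type} [TopologicalSpace S] [T2Space S] [CompactSpace S]
    [ChartedSpace V S] (C : Set (OpenPartialHomeomorph S V)) (hC : ∀ c ∈ C, IsChart c)
    (hcov : ∀ s, ∃ c ∈ C, s ∈ c.source)
    (hloc : ∀ c ∈ C, ∀ c' ∈ C, ∀ s, s ∈ c.source → s ∈ c'.source →
      ∃ O : Set S, IsOpen O ∧ s ∈ O ∧ Rel c c' O) :
    HasBirationalStructure S := by
  classical
  let _ : UniformSpace S := uniformSpaceOfCompactR1
  -- a finite subfamily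
  obtain ⟨T, hT⟩ := isCompact_univ.elim_finite_subcover (fun c : C => (c : OpenPartialHomeomorph S V).source)
    (fun c => c.1.open_source) (fun s _ => by
      obtain ⟨c, hc, hs⟩ := hcov s
      exact mem_iUnion.2 ⟨⟨c, hc⟩, hs⟩)
  -- small neighbourhoods
  have hN : ∀ s : S, ∃ N : Set S, IsOpen N ∧ s ∈ N ∧
      (∀ c ∈ T, s ∈ c.1.source → N ⊆ c.1.source) ∧
      ∀ c ∈ T, ∀ c' ∈ T, s ∈ c.1.source → s ∈ c'.1.source → Rel c.1 c'.1 N := by
    intro s
    have h1 : ∀ c ∈ T, ∀ᶠ x in 𝓝 s, s ∈ c.1.source → x ∈ c.1.source := by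
      intro c _
      by_cases hs : s ∈ c.1.source
      · filter_upwards [c.1.open_source.mem_nhds hs] with x hx _
        exact hx
      · exact Eventually.of_forall fun x h => absurd h hs
    have h2 : ∀ c c' : C, ∃ O : Set S, IsOpen O ∧ s ∈ O ∧
        (s ∈ c.1.source → s ∈ c'.1.source → Rel c.1 c'.1 O) := by
      intro c c'
      by_cases hs : s ∈ c.1.source ∧ s ∈ c'.1.source
      · obtain ⟨O, hO, hsO, hr⟩ := hloc c.1 c.2 c'.1 c'.2 s hs.1 hs.2
        exact ⟨O, hO, hsO, fun _ _ => hr⟩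
      · exact ⟨univ, isOpen_univ, mem_univ _, fun h h' => absurd ⟨h, h'⟩ hs⟩
    choose O hO hsO hr using h2
    have h3 : ∀ᶠ x in 𝓝 s, (∀ c ∈ T, s ∈ c.1.source → x ∈ c.1.source) ∧
        ∀ c ∈ T, ∀ c' ∈ T, x ∈ O c c' := by
      refine (Filter.eventually_all_finset T).2 h1 |>.and ?_
      refine (Filter.eventually_all_finset T).2 fun c _ =>
        (Filter.eventually_all_finset T).2 fun c' _ => (hO c c').mem_nhds (hsO c c')
    obtain ⟨N, hN, hNo, hsN⟩ := eventually_nhds_iff.1 h3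
    refine ⟨N, hNo, hsN, fun c hc hs x hx => (hN x hx).1 c hc hs, fun c hc c' hc' hs hs' => ?_⟩
    exact (hr c c' hs hs').mono fun x hx => (hN x hx).2 c hc c' hc'
  choose N hNo hsN hNs hNr using hN
  -- Lebesgue number
  obtain ⟨V₀, hV₀, hL⟩ := lebesgue_number_lemma (ι := T) (U := fun c => c.1.1.source)
    isCompact_univ (fun c => c.1.1.open_source) (fun s hs => by
      obtain ⟨c, hc⟩ := mem_iUnion.1 (hT hs)
      obtain ⟨hcT, hsc⟩ := mem_iUnion.1 hc
      exact mem_iUnion.2 ⟨⟨c, hcT⟩, hsc⟩)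
  obtain ⟨V₁, hV₁, hsymm, hcomp⟩ := comp_symm_mem_uniformity_sets hV₀
  set M : S → Set S := fun s => N s ∩ interior (UniformSpace.ball s V₁) with hM
  have hMo : ∀ s, IsOpen (M s) := fun s => (hNo s).inter isOpen_interior
  have hsM : ∀ s, s ∈ M s := fun s =>
    ⟨hsN s, mem_interior_iff_mem_nhds.2 (UniformSpace.ball_mem_nhds s hV₁)⟩
  have hball : ∀ s x, x ∈ M s → s ∈ UniformSpace.ball x V₀ := by
    intro s x hx
    have h0 : x ∈ UniformSpace.ball s V₁ := interior_subset hx.2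
    have h1 : (s, x) ∈ V₁ := h0
    have h2 : (x, s) ∈ V₁ := hsymm.symm _ _ h1
    exact hcomp ⟨s, h2, refl_mem_uniformity hV₁⟩
  refine ⟨{c' | ∃ s, ∃ c ∈ T, s ∈ c.1.source ∧ c' = c.1.restrOpen (M s) (hMo s)}, ?_, ?_, ?_⟩
  · rintro _ ⟨s, c, _, _, rfl⟩
    exact isChart_restr (hC c.1 c.2) (hMo s)
  · intro s
    obtain ⟨c, hc⟩ := mem_iUnion.1 (hT (mem_univ s))
    obtain ⟨hcT, hsc⟩ := mem_iUnion.1 hc
    exact ⟨_, ⟨s, c, hcT, hsc, rfl⟩, hsc, hsM s⟩
  · rintro _ ⟨s, c, hc, hs, rfl⟩ _ ⟨t, c', hc', ht, rfl⟩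
    set Ω : Set S := (c.1.restrOpen (M s) (hMo s)).source ∩ (c'.1.restrOpen (M t) (hMo t)).source
      with hΩ
    have hΩo : IsOpen Ω := (OpenPartialHomeomorph.open_source _).inter
      (OpenPartialHomeomorph.open_source _)
    rcases Ω.eq_empty_or_nonempty with hemp | hne
    · refine ⟨![1, 0, 0], ![1, 0, 0], one_ne_zero, one_ne_zero, fun x hx => ?_⟩
      rw [hemp, image_empty] at hx
      exact absurd hx (notMem_empty x)
    · obtain ⟨x, hx⟩ := hne
      obtain ⟨m, hm⟩ := hL x (mem_univ x)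
      have hsm : s ∈ m.1.1.source := hm (hball s x hx.1.2)
      have htm : t ∈ m.1.1.source := hm (hball t x hx.2.2)
      have hΩs : Ω ⊆ N s := fun y hy => hy.1.2.1
      have hΩt : Ω ⊆ N t := fun y hy => hy.2.2.1
      have hΩc : Ω ⊆ c.1.source := fun y hy => hy.1.1
      have hΩc' : Ω ⊆ c'.1.source := fun y hy => hy.2.1
      have hΩm : Ω ⊆ m.1.1.source := hΩs.trans (hNs s m.1 m.2 hsm)
      have r1 : Rel c.1 m.1.1 Ω := (hNr s c hc m.1 m.2 hs hsm).mono hΩs
      have r2 : Rel m.1.1 c'.1 Ω := (hNr t m.1 m.2 c' hc' htm ht).mono hΩt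
      have r3 : Rel c'.1 m.1.1 Ω := (hNr t c' hc' m.1 m.2 ht htm).mono hΩt
      have r4 : Rel m.1.1 c.1 Ω := (hNr s m.1 m.2 c hc hsm hs).mono hΩs
      obtain ⟨A, hA, hA1⟩ := Rel.trans hΩo ⟨x, hx⟩ (c.1.continuousOn.mono hΩc) (qo_chart c.1 hΩc)
        (qo_chart m.1.1 hΩm) r1 r2
      obtain ⟨B, hB, hB1⟩ := Rel.trans hΩo ⟨x, hx⟩ (c'.1.continuousOn.mono hΩc')
        (qo_chart c'.1 hΩc') (qo_chart m.1.1 hΩm) r3 r4
      refine ⟨A, B, hA, hB, ?_⟩
      rintro _ ⟨y, hy, rfl⟩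
      have h1 : (c.1.restrOpen (M s) (hMo s)).symm ((c.1.restrOpen (M s) (hMo s)) y) = y :=
        (c.1.restrOpen (M s) (hMo s)).left_inv hy.1
      have h2 : (c'.1.restrOpen (M t) (hMo t) ∘ (c.1.restrOpen (M s) (hMo s)).symm)
          ((c.1.restrOpen (M s) (hMo s)) y) = c'.1 y := by
        rw [Function.comp_apply, h1]
        rfl
      rw [h2]
      exact ⟨hA1 y hy, hB1 y hy⟩

end Pool.Agent.U157.Kato
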