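import Pool.Agent.U157.Kato.Enoki
import Pool.Agent.U157.Kato.Patch

/-!
Basic facts on towers and on the germ of Kato data.
-/

set_option autoImplicit false

open Manifold Filter Topology Set MvPolynomial
open scoped ContDiff

namespace Pool.Agent.U157.Kato

theorem exists_normal {F s ψ : V → V} (hs : Loc s 0) (hs0 : s 0 = 0)
    (hψ : ∀ w, AnalyticAt ℂ ψ w) (hψ0 : ψ 0 = 0) (hbir : Bir ψ) (hkind : Kind ψ)
    (hF : ∀ᶠ x in 𝓝 0, F x = ψ (s x))
    (heig : ∀ (μ : ℂ) (v : V), v ≠ 0 → fderiv ℂ F 0 v = μ • v → ‖μ‖ < 1) :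
    ∃ ξ F' : V → V, Loc ξ 0 ∧ ξ 0 = 0 ∧ Bir F' ∧ ∀ᶠ x in 𝓝 0, ξ (F x) = F' (ξ x) := by
  by_cases h : Pure ψ ∧ ∃ d, Dir ψ d ∧ mult s d ≠ 0
  · obtain ⟨hp, d, hd, hm⟩ := h
    refine normal_enoki hs hs0 hψ0 hp hF fun d' hd' => ?_
    have h1 : d' = d := by
      have a1 := hd.fderiv (1, 0)
      have a2 := hd'.fderiv (1, 0)
      rw [a1] at a2
      simpa using a2.symm
    subst h1
    exact ⟨hm, heig _ _ hd.1 (mult_eigen hs hs0 (hψ 0) hF hd)⟩
  · refine normal_cases hs hs0 hψ hψ0 hbir hkind hF fun hp d hd => ?_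
    by_contra hm
    exact h ⟨hp, d, hd, hm⟩

theorem tower_holo {n : ℕ} {Z : SurfaceOver} (hZ : IsTower n Z) :
    ContMDiff 𝓘(ℂ, V) 𝓘(ℂ, V) ω Z.proj := by
  induction hZ with
  | plane => exact contMDiff_id
  | blowUp n Y Z π p hY hp hπ hproj ih =>
    have h1 : Z.proj = Y.proj ∘ π := funext hproj
    rw [h1]
    exact ih.comp hπ.holomorphic

theorem tower_pull {n : ℕ} {Z : SurfaceOver} (hZ : IsTower n Z) : ∀ {z : Z.X}, Z.proj z ≠ 0 →
    ∀ {b : OpenPartialHomeomorph V V}, IsChart b → Z.proj z ∈ b.source →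
    ∃ c : OpenPartialHomeomorph Z.X V, IsChart c ∧ z ∈ c.source ∧
      ∀ y ∈ c.source, Z.proj y ∈ b.source ∧ c y = b (Z.proj y) := by
  induction hZ with
  | plane =>
    intro z _ b hb hz
    exact ⟨b, hb, hz, fun y hy => ⟨hy, rfl⟩⟩
  | blowUp n Y Z π p hY hp hπ hproj ih =>
    intro z hz b hb hzb
    have h1 : Y.proj (π z) ≠ 0 := by rwa [← hproj]
    obtain ⟨c', hc', hzc', hc'b⟩ := ih h1 hb (by rwa [← hproj])
    have h2 : π z ≠ p := by
      intro h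
      rw [h, hp] at h1
      exact h1 rfl
    obtain ⟨c, hc, hzc, hcc⟩ := isChart_of_diffeo (hπ.biholomorphic z h2) hc' hzc'
    refine ⟨c, hc, hzc, fun y hy => ?_⟩
    obtain ⟨g1, g2⟩ := hcc y hy
    obtain ⟨g3, g4⟩ := hc'b _ g1
    rw [hproj, g2, g4]
    exact ⟨g3, rfl⟩

theorem isChart_refl : IsChart (OpenPartialHomeomorph.refl V) := by
  constructor
  · exact contMDiff_id.contMDiffOn
  · exact contMDiff_id.contMDiffOn

/-- the exceptional set has no interior points -/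
theorem tower_dense {n : ℕ} {Z : SurfaceOver} (hn : 1 ≤ n) (hZ : IsTower n Z) {O : Set Z.X}
    (hO : IsOpen O) (hne : O.Nonempty) : ∃ z ∈ O, Z.proj z ≠ 0 := by
  by_contra hcon
  push Not at hcon
  obtain ⟨e, he⟩ := hne
  have hl : Loc (fun x : V => x) 0 := cr_id.1
  obtain ⟨a, ha, hea, ha0, ψ, hψ, hψ0, hbir, hkind, hev⟩ := tower_chart hZ hl rfl (hcon e he)
  have hk : Kind ψ := by
    rcases hkind with h | ⟨h, _⟩
    · exact h
    · omega
  obtain ⟨W, hW, h0, hq⟩ := qo_of_lb hψ hk.lb2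
  -- the image of a neighbourhood of `e`
  have h1 : ∀ᶠ z in 𝓝 e, Z.proj z = ψ (a z) ∧ z ∈ O ∧ z ∈ a.source ∧ a z ∈ W := by
    have h2 : ∀ᶠ z in 𝓝 e, a z ∈ W := by
      apply (a.continuousAt hea).eventually_mem
      rw [ha0]
      exact hW.mem_nhds h0
    filter_upwards [hev, hO.mem_nhds he, a.open_source.mem_nhds hea, h2] with z g1 g2 g3 g4
    exact ⟨g1, g2, g3, g4⟩
  obtain ⟨N, hN, hNo, heN⟩ := eventually_nhds_iff.1 h1
  have h3 : IsOpen (a '' N) := a.isOpen_image_of_subset_source hNo (fun z hz => (hN z hz).2.2.1)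
  have h4 : a '' N ⊆ W := by
    rintro _ ⟨z, hz, rfl⟩
    exact (hN z hz).2.2.2
  have h5 := hq _ h4 h3 ⟨a e, mem_image_of_mem _ heN⟩
  have h6 : ψ '' (a '' N) ⊆ {0} := by
    rintro _ ⟨_, ⟨z, hz, rfl⟩, rfl⟩
    rw [← (hN z hz).1]
    exact hcon z (hN z hz).2.1
  have h7 : (interior ({0} : Set V)).Nonempty := h5.mono (interior_mono h6)
  rw [interior_singleton] at h7
  exact not_nonempty_empty h7

/-- the square of the euclidean norm -/
noncomputable def nsq (x : V) : ℝ := ‖x.1‖ ^ 2 + ‖x.2‖ ^ 2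

theorem mem_Ball {r : ℝ} {x : V} : x ∈ Ball r ↔ nsq x < r ^ 2 := Iff.rfl

theorem nsq_smul (c : ℂ) (x : V) : nsq (c • x) = ‖c‖ ^ 2 * nsq x := by
  simp only [nsq, Prod.smul_fst, Prod.smul_snd, norm_smul]
  ring

theorem nsq_nonneg (x : V) : 0 ≤ nsq x := by unfold nsq; positivity

theorem nsq_pos {x : V} (hx : x ≠ 0) : 0 < nsq x := by
  rcases (nsq_nonneg x).lt_or_eq with h | h
  · exact h
  · exfalso
    apply hx
    have h1 : ‖x.1‖ ^ 2 + ‖x.2‖ ^ 2 = 0 := h.symm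
    have h2 : ‖x.1‖ = 0 := by nlinarith [sq_nonneg ‖x.1‖, sq_nonneg ‖x.2‖]
    have h3 : ‖x.2‖ = 0 := by nlinarith [sq_nonneg ‖x.1‖, sq_nonneg ‖x.2‖]
    exact Prod.ext (norm_eq_zero.1 h2) (norm_eq_zero.1 h3)

theorem continuous_nsq : Continuous nsq := by unfold nsq; fun_prop

theorem isOpen_Ball (r : ℝ) : IsOpen (Ball r) := isOpen_lt continuous_nsq continuous_const

/-- Schwarz' lemma for the euclidean balls -/
theorem schwarz_ball {F : V → V} {r : ℝ} (hr : 0 < r) (hF : ∀ x ∈ Ball 1, DifferentiableAt ℂ F x)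
    (hmaps : ∀ x ∈ Ball 1, F x ∈ Ball r) (h0 : F 0 = 0) {x : V} (hx : x ∈ Ball 1) :
    nsq (F x) ≤ r ^ 2 * nsq x := by
  set e := WithLp.prodContinuousLinearEquiv 2 ℂ ℂ ℂ with he
  have hnorm : ∀ y : WithLp 2 V, ‖y‖ ^ 2 = nsq (e y) := by
    intro y
    rw [WithLp.prod_norm_sq_eq_of_L2]
    rfl
  have hnorm' : ∀ y : V, ‖e.symm y‖ ^ 2 = nsq y := by
    intro y
    rw [hnorm, e.apply_symm_apply]
  set g : WithLp 2 V → WithLp 2 V := fun y => e.symm (F (e y)) with hg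
  have hmem : ∀ y ∈ Metric.ball (0 : WithLp 2 V) 1, e y ∈ Ball 1 := by
    intro y hy
    rw [mem_ball_zero_iff] at hy
    rw [mem_Ball, ← hnorm]
    have := norm_nonneg y
    nlinarith
  have hd : DifferentiableOn ℂ g (Metric.ball 0 1) := by
    intro y hy
    have h1 : DifferentiableAt ℂ F (e y) := hF _ (hmem y hy)
    have h2 : DifferentiableAt ℂ (fun y => F (e y)) y :=
      h1.comp y e.differentiableAt
    exact (e.symm.differentiableAt.comp y h2).differentiableWithinAt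
  have hg0 : g 0 = 0 := by
    simp only [hg, map_zero, h0]
  have hm : MapsTo g (Metric.ball 0 1) (Metric.closedBall (g 0) r) := by
    intro y hy
    rw [hg0, mem_closedBall_zero_iff]
    have h1 := hmaps _ (hmem y hy)
    rw [mem_Ball, ← hnorm'] at h1
    exact (abs_lt_of_sq_lt_sq' h1 hr.le).2.le
  have hxs : e.symm x ∈ Metric.ball (0 : WithLp 2 V) 1 := by
    rw [mem_ball_zero_iff]
    rw [mem_Ball, ← hnorm'] at hx
    exact (abs_lt_of_sq_lt_sq' hx zero_le_one).2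
  have h1 := Complex.dist_le_div_mul_dist_of_mapsTo_ball hd hm hxs
  rw [hg0, dist_zero_right, dist_zero_right, div_one] at h1
  have h2 : ‖g (e.symm x)‖ ^ 2 = nsq (F x) := by
    rw [hnorm]
    simp only [hg, e.apply_symm_apply]
  rw [← h2, ← hnorm']
  calc ‖g (e.symm x)‖ ^ 2 ≤ (r * ‖e.symm x‖) ^ 2 := by gcongr
    _ = _ := by ring

theorem eigen_lt {F : V → V} {r : ℝ} (hr : 0 < r) (hr1 : r < 1)
    (hF : ∀ x ∈ Ball 1, DifferentiableAt ℂ F x)
    (hmaps : ∀ x ∈ Ball 1, F x ∈ Ball r) (h0 : F 0 = 0) (μ : ℂ) (v : V) (hv : v ≠ 0)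
    (hμ : fderiv ℂ F 0 v = μ • v) : ‖μ‖ < 1 := by
  have hb0 : (0 : V) ∈ Ball 1 := by rw [mem_Ball]; simp [nsq]
  have h1 := line_deriv (hF 0 hb0) v
  rw [hμ] at h1
  have h2 := hasDerivAt_iff_tendsto_slope.1 h1
  have h3 : Tendsto (fun τ : ℂ => nsq (slope (fun τ : ℂ => F (τ • v)) 0 τ)) (𝓝[≠] 0)
      (𝓝 (nsq (μ • v))) := (continuous_nsq.tendsto _).comp h2
  have h4 : ∀ᶠ τ : ℂ in 𝓝[≠] 0, nsq (slope (fun τ : ℂ => F (τ • v)) 0 τ) ≤ r ^ 2 * nsq v := by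
    have h5 : ∀ᶠ τ : ℂ in 𝓝 0, τ • v ∈ Ball 1 := by
      have : Continuous (fun τ : ℂ => τ • v) := by fun_prop
      apply this.continuousAt.eventually_mem
      rw [zero_smul]
      exact (isOpen_Ball 1).mem_nhds hb0
    filter_upwards [h5.filter_mono nhdsWithin_le_nhds, self_mem_nhdsWithin] with τ h6 h7
    have h8 := schwarz_ball hr hF hmaps h0 h6
    rw [slope_def_module, zero_smul, h0, sub_zero, sub_zero, nsq_smul, norm_inv]
    rw [nsq_smul] at h8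
    have hτ : 0 < ‖τ‖ := norm_pos_iff.2 h7
    calc (‖τ‖⁻¹) ^ 2 * nsq (F (τ • v)) ≤ (‖τ‖⁻¹) ^ 2 * (r ^ 2 * (‖τ‖ ^ 2 * nsq v)) := by gcongr
      _ = r ^ 2 * nsq v := by field_simp
  have h5 := le_of_tendsto h3 h4
  rw [nsq_smul] at h5
  have h6 := nsq_pos hv
  have h7 : ‖μ‖ ^ 2 ≤ r ^ 2 := le_of_mul_le_mul_right h5 h6
  have h8 : ‖μ‖ ≤ r := abs_le_of_sq_le_sq' h7 hr.le |>.2
  linarith

end Pool.Agent.U157.Kato
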