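import Pool.Agent.U157.Kato.Normal

/-!
The cases of the normal form theorem with vanishing multiplier.
-/

set_option autoImplicit false

open Filter Topology Set Asymptotics

namespace Pool.Agent.U157.Kato

/-- `d` is the direction of the pure chart `ψ` -/
def Dir (ψ : V → V) (d : V) : Prop := d ≠ 0 ∧ ∃ C : ℝ, 0 ≤ C ∧
  ∀ᶠ w : V in 𝓝 0, ‖ψ w - w.1 • d‖ ≤ C * (‖w.1‖ * ‖w‖)

theorem pure_dir {m : ℕ} (hm : 1 ≤ m) {P : Polynomial ℂ} (hP : P.eval 0 = 0) :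
    ∃ a : ℂ, ∃ C : ℝ, 0 ≤ C ∧
      ∀ w : V, ‖w.1‖ ≤ 1 → ‖w.2‖ ≤ 1 → ‖w.1 ^ m * w.2 + P.eval w.1 - w.1 * a‖ ≤
        C * (‖w.1‖ * ‖w‖) := by
  obtain ⟨Q, hQ⟩ : Polynomial.X ∣ P := by
    rw [Polynomial.X_dvd_iff, Polynomial.coeff_zero_eq_eval_zero, hP]
  have h1 : (Q - Polynomial.C (Q.eval 0)).eval 0 = 0 := by simp
  obtain ⟨C, hC, h2⟩ := poly_bound h1
  refine ⟨Q.eval 0, 1 + C, by positivity, fun w hw1 hw2 => ?_⟩
  have h3 := h2 w.1 hw1
  rw [Polynomial.eval_sub, Polynomial.eval_C] at h3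
  have e : w.1 ^ m * w.2 + P.eval w.1 - w.1 * Q.eval 0 =
      w.1 ^ m * w.2 + w.1 * (Q.eval w.1 - Q.eval 0) := by
    rw [hQ, Polynomial.eval_mul, Polynomial.eval_X]
    ring
  rw [e]
  refine (norm_add_le _ _).trans ?_
  rw [norm_mul, norm_mul, norm_pow]
  have h4 : ‖w.1‖ ^ m ≤ ‖w.1‖ := pow_le_of_le_one (norm_nonneg _) hw1 (by omega)
  have h5 : ‖w.1‖ ≤ ‖w‖ := norm_fst_le w
  have h6 : ‖w.2‖ ≤ ‖w‖ := norm_snd_le w
  calc ‖w.1‖ ^ m * ‖w.2‖ + ‖w.1‖ * ‖Q.eval w.1 - Q.eval 0‖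
      ≤ ‖w.1‖ * ‖w‖ + ‖w.1‖ * (C * ‖w‖) := by
        gcongr
        exact h3.trans (by gcongr)
    _ = _ := by ring

theorem Pure.dir {ψ : V → V} (h : Pure ψ) : ∃ d, Dir ψ d := by
  obtain ⟨m, P, hm, hP, h⟩ := h
  obtain ⟨a, C, hC, h1⟩ := pure_dir hm hP
  rcases h with h | h
  · refine ⟨(1, a), ?_, C, hC, ?_⟩
    · intro h0
      simpa using congrArg Prod.fst h0
    · filter_upwards [ev_small one_pos] with w hw
      have h2 := h1 w hw.1 hw.2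
      rw [h]
      refine max_le ?_ ?_
      · simp only [Prod.fst_sub, Prod.smul_fst, smul_eq_mul, mul_one, sub_self, norm_zero]
        positivity
      · simpa only [Prod.snd_sub, Prod.smul_snd, smul_eq_mul] using h2
  · refine ⟨(a, 1), ?_, C, hC, ?_⟩
    · intro h0
      simpa using congrArg Prod.snd h0
    · filter_upwards [ev_small one_pos] with w hw
      have h2 := h1 w hw.1 hw.2
      rw [h]
      refine max_le ?_ ?_
      · simpa only [Prod.fst_sub, Prod.smul_fst, smul_eq_mul] using h2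
      · simp only [Prod.snd_sub, Prod.smul_snd, smul_eq_mul, mul_one, sub_self, norm_zero]
        positivity

theorem Dir.fderiv {ψ : V → V} {d : V} (h : Dir ψ d) (v : V) :
    fderiv ℂ ψ 0 v = v.1 • d := by
  obtain ⟨_, C, hC, h⟩ := h
  have h1 : (fun w : V => ψ w - w.1 • d) =O[𝓝 0] fun w => ‖w - 0‖ ^ 2 := by
    refine IsBigO.of_bound C ?_
    filter_upwards [h] with w hw
    rw [Real.norm_of_nonneg (by positivity), sub_zero]
    refine hw.trans (mul_le_mul_of_nonneg_left ?_ hC)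
    rw [sq]
    exact mul_le_mul_of_nonneg_right (norm_fst_le w) (norm_nonneg _)
  have h2 : HasFDerivAt (fun w : V => ψ w - w.1 • d) (0 : V →L[ℂ] V) 0 :=
    h1.hasFDerivAt (by norm_num)
  have h3 : HasFDerivAt (fun w : V => w.1 • d) ((ContinuousLinearMap.fst ℂ ℂ ℂ).smulRight d) 0 :=
    ((ContinuousLinearMap.fst ℂ ℂ ℂ).smulRight d).hasFDerivAt
  have h4 := h2.add h3
  have h5 : HasFDerivAt ψ (0 + (ContinuousLinearMap.fst ℂ ℂ ℂ).smulRight d) 0 := by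
    refine h4.congr_of_eventuallyEq (Eventually.of_forall fun w => ?_)
    simp
  rw [h5.fderiv]
  simp

theorem pure_upper {ψ : V → V} (h : Pure ψ) : ∃ C : ℝ, 0 ≤ C ∧
    ∀ᶠ w : V in 𝓝 0, ‖ψ w‖ ≤ C * ‖w.1‖ := by
  obtain ⟨m, P, hm, hP, h⟩ := h
  obtain ⟨C, hC, h1⟩ := pure_bound hm hP
  refine ⟨1 + C, by positivity, ?_⟩
  filter_upwards [ev_small one_pos] with w hw
  have h2 := h1 w hw.1 hw.2
  have h3 : 0 ≤ C * ‖w.1‖ := by positivity
  have h4 := norm_nonneg w.1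
  rcases h with h | h
  · rw [h]
    refine max_le ?_ ?_
    · change ‖w.1‖ ≤ _
      linarith
    · change ‖w.1 ^ m * w.2 + P.eval w.1‖ ≤ _
      linarith
  · rw [h]
    refine max_le ?_ ?_
    · change ‖w.1 ^ m * w.2 + P.eval w.1‖ ≤ _
      linarith
    · change ‖w.1‖ ≤ _
      linarith

/-- the multiplier -/
noncomputable def mult (s : V → V) (d : V) : ℂ := (fderiv ℂ s 0 d).1

theorem fst_comp_pure {ψ s : V → V} (hs : AnalyticAt ℂ s 0) (hs0 : s 0 = 0) {d : V} (hd : Dir ψ d)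
    (hψ : AnalyticAt ℂ ψ 0) (hψ0 : ψ 0 = 0) :
    ∃ C : ℝ, 0 ≤ C ∧ ∀ᶠ w : V in 𝓝 0, ‖(s (ψ w)).1 - w.1 * mult s d‖ ≤ C * (‖w.1‖ * ‖w‖) := by
  obtain ⟨L, hL, hL0, hLs⟩ := hadamard hs hs0
  obtain ⟨_, C, hC, hdir⟩ := hd
  have hψt := tendsto_of_zero hψ hψ0
  obtain ⟨D, hD, hψD⟩ := eventually_norm_le hψ hψ0
  have h1 : (fun x => L x - L 0) =O[𝓝 0] fun x : V => x - 0 := hL.differentiableAt.isBigO_sub
  obtain ⟨B, hB0, hB⟩ := h1.exists_nonneg
  rw [isBigOWith_iff] at hB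
  have h2 : ∀ᶠ x in 𝓝 (0 : V), ‖L x‖ < ‖L 0‖ + 1 :=
    hL.continuousAt.norm.eventually_lt_const (by linarith)
  refine ⟨B * D * ‖d‖ + (‖L 0‖ + 1) * C, by positivity, ?_⟩
  filter_upwards [hψt.eventually hLs, hψt.eventually hB, hψt.eventually h2, hdir, hψD] with
    w h3 h4 h5 h6 h7
  have e : s (ψ w) - w.1 • fderiv ℂ s 0 d =
      w.1 • (L (ψ w) - L 0) d + L (ψ w) (ψ w - w.1 • d) := by
    rw [h3, ← hL0, sub_apply, map_sub, map_smul, smul_sub]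
    abel
  have e' : (s (ψ w)).1 - w.1 * mult s d = (s (ψ w) - w.1 • fderiv ℂ s 0 d).1 := by
    simp [mult]
  rw [e']
  refine (norm_fst_le _).trans ?_
  rw [e]
  refine (norm_add_le _ _).trans ?_
  rw [norm_smul]
  rw [sub_zero] at h4
  have h8 : ‖(L (ψ w) - L 0) d‖ ≤ B * (D * ‖w‖) * ‖d‖ := by
    refine ((L (ψ w) - L 0).le_opNorm d).trans ?_
    gcongr
    exact h4.trans (by gcongr)
  have h9 : ‖L (ψ w) (ψ w - w.1 • d)‖ ≤ (‖L 0‖ + 1) * (C * (‖w.1‖ * ‖w‖)) := by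
    refine ((L (ψ w)).le_opNorm _).trans ?_
    gcongr
  calc ‖w.1‖ * ‖(L (ψ w) - L 0) d‖ + ‖L (ψ w) (ψ w - w.1 • d)‖
      ≤ ‖w.1‖ * (B * (D * ‖w‖) * ‖d‖) + (‖L 0‖ + 1) * (C * (‖w.1‖ * ‖w‖)) := by gcongr
    _ = _ := by ring

theorem normal_cases {F s ψ : V → V} (hs : Loc s 0) (hs0 : s 0 = 0)
    (hψ : ∀ w, AnalyticAt ℂ ψ w) (hψ0 : ψ 0 = 0) (hbir : Bir ψ) (hkind : Kind ψ)
    (hF : ∀ᶠ x in 𝓝 0, F x = ψ (s x))
    (hmult : Pure ψ → ∀ d, Dir ψ d → mult s d = 0) :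
    ∃ ξ F' : V → V, Loc ξ 0 ∧ ξ 0 = 0 ∧ Bir F' ∧ ∀ᶠ x in 𝓝 0, ξ (F x) = F' (ξ x) := by
  have hlb := hkind.lb2
  obtain ⟨S, hS, hsS⟩ := eventually_norm_le hs.1 hs0
  have hψt := tendsto_of_zero (hψ 0) hψ0
  rcases hkind with ⟨h1, h2⟩ | ⟨h1, h2⟩ | ⟨h1, h2⟩
  · obtain ⟨d, hd⟩ := h1.dir
    obtain ⟨C₁, hC₁, h3⟩ := pure_upper h1
    obtain ⟨C₂, k, hC₂, h4⟩ := h2
    obtain ⟨C₃, hC₃, h5⟩ := fst_comp_pure hs.1 hs0 hd (hψ 0) hψ0
    rw [hmult h1 d hd] at h5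
    refine normal_of_estimates (p := fun w => w.1) (C := C₁ + C₂ + C₃) (k := k) hs hs0 hψ hψ0
      hbir hlb hF analyticAt_fst rfl ?_ ?_ ?_
    · filter_upwards [h3] with w hw
      exact hw.trans (mul_le_mul_of_nonneg_right (by linarith) (norm_nonneg _))
    · filter_upwards [h4] with w hw v
      exact (hw v).trans (mul_le_mul_of_nonneg_right (by linarith) (norm_nonneg _))
    · filter_upwards [h5] with w hw
      rw [mul_zero, sub_zero] at hw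
      refine hw.trans ?_
      rw [mul_assoc]
      exact mul_le_mul_of_nonneg_right (by linarith) (by positivity)
  · obtain ⟨C₁, hC₁, h3⟩ := h1
    obtain ⟨C₂, k, hC₂, h4⟩ := h2
    refine normal_of_estimates (p := fun w => w.1) (C := C₁ + C₂ + S * C₁) (k := k) hs hs0 hψ hψ0
      hbir hlb hF analyticAt_fst rfl ?_ ?_ ?_
    · filter_upwards [h3, Metric.ball_mem_nhds (0 : V) one_pos] with w hw hw1
      have hw2 : ‖w‖ ≤ 1 := by
        have : ‖w‖ < 1 := by simpa using hw1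
        exact this.le
      refine hw.trans ?_
      have h6 : C₁ * (‖w.1‖ * ‖w‖) ≤ C₁ * ‖w.1‖ := by
        refine mul_le_mul_of_nonneg_left ?_ hC₁
        nlinarith [norm_nonneg w.1]
      refine h6.trans (mul_le_mul_of_nonneg_right ?_ (norm_nonneg _))
      have : 0 ≤ S * C₁ := by positivity
      linarith
    · filter_upwards [h4] with w hw v
      refine (hw v).trans (mul_le_mul_of_nonneg_right ?_ (norm_nonneg _))
      have : 0 ≤ S * C₁ := by positivity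
      linarith
    · filter_upwards [h3, hψt.eventually hsS] with w hw hw1
      have h6 : ‖(s (ψ w)).1‖ ≤ S * ‖ψ w‖ := (norm_fst_le _).trans hw1
      refine h6.trans ?_
      calc S * ‖ψ w‖ ≤ S * (C₁ * (‖w.1‖ * ‖w‖)) := by gcongr
        _ = (S * C₁) * (‖w.1‖ * ‖w‖) := by ring
        _ ≤ (C₁ + C₂ + S * C₁) * (‖w.1‖ * ‖w‖) :=
          mul_le_mul_of_nonneg_right (by linarith) (by positivity)
        _ = _ := by ring
  · obtain ⟨C₁, hC₁, h3⟩ := h1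
    obtain ⟨C₂, k, hC₂, h4⟩ := h2
    refine normal_of_estimates (p := fun w => w.1 * w.2) (C := C₁ + C₂ + (S * C₁) ^ 2) (k := k) hs
      hs0 hψ hψ0 hbir hlb hF (analyticAt_fst.mul analyticAt_snd) (by simp) ?_ ?_ ?_
    · filter_upwards [h3] with w hw
      refine hw.trans ?_
      rw [norm_mul]
      refine mul_le_mul_of_nonneg_right ?_ (by positivity)
      have : 0 ≤ (S * C₁) ^ 2 := by positivity
      linarith
    · filter_upwards [h4] with w hw v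
      rw [norm_mul]
      refine (hw v).trans (mul_le_mul_of_nonneg_right ?_ (norm_nonneg _))
      have : 0 ≤ (S * C₁) ^ 2 := by positivity
      linarith
    · filter_upwards [h3, hψt.eventually hsS, ev_small one_pos] with w hw hw1 hw2
      have h6 : ‖s (ψ w)‖ ≤ S * (C₁ * (‖w.1‖ * ‖w.2‖)) := hw1.trans (by gcongr)
      have h7 : ‖(s (ψ w)).1 * (s (ψ w)).2‖ ≤ (S * (C₁ * (‖w.1‖ * ‖w.2‖))) ^ 2 := by
        rw [norm_mul, sq]
        exact mul_le_mul ((norm_fst_le _).trans h6) ((norm_snd_le _).trans h6) (norm_nonneg _)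
          (by positivity)
      refine h7.trans ?_
      have h8 : ‖w.1‖ * ‖w.2‖ ≤ ‖w‖ := by
        have := norm_snd_le w
        nlinarith [norm_nonneg w.1, norm_nonneg w.2, hw2.1]
      rw [norm_mul]
      calc (S * (C₁ * (‖w.1‖ * ‖w.2‖))) ^ 2
          = (S * C₁) ^ 2 * (‖w.1‖ * ‖w.2‖) * (‖w.1‖ * ‖w.2‖) := by ring
        _ ≤ (C₁ + C₂ + (S * C₁) ^ 2) * (‖w.1‖ * ‖w.2‖) * ‖w‖ := by
          gcongr
          linarith

/-- the multiplier is an eigenvalue of the derivative -/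
theorem mult_eigen {F s ψ : V → V} (hs : Loc s 0) (hs0 : s 0 = 0)
    (hψ : AnalyticAt ℂ ψ 0) (hF : ∀ᶠ x in 𝓝 0, F x = ψ (s x)) {d : V}
    (hd : Dir ψ d) : fderiv ℂ F 0 d = mult s d • d := by
  have h1 : fderiv ℂ F 0 = fderiv ℂ (fun x => ψ (s x)) 0 := EventuallyEq.fderiv_eq hF
  have h2 : fderiv ℂ (fun x => ψ (s x)) 0 = (fderiv ℂ ψ (s 0)).comp (fderiv ℂ s 0) :=
    fderiv_comp 0 (by rw [hs0]; exact hψ.differentiableAt) hs.1.differentiableAt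
  rw [h1, h2, ContinuousLinearMap.comp_apply, hs0, hd.fderiv]
  rfl

end Pool.Agent.U157.Kato
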