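import Pool.Agent.U157.Kato.Lift

/-!
Charts of complex surfaces and locally biholomorphic maps of the plane.
-/

set_option autoImplicit false

open Manifold Filter Topology Set
open scoped ContDiff

namespace Pool.Agent.U157.Kato

theorem cmdiffAt_iff {f : V → V} {x : V} :
    ContMDiffAt 𝓘(ℂ, V) 𝓘(ℂ, V) ω f x ↔ AnalyticAt ℂ f x := by
  rw [contMDiffAt_iff_contDiffAt]
  exact ⟨fun h => h.analyticAt, fun h => h.contDiffAt⟩

/-- an analytic map with an analytic left inverse has an injective derivative -/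
theorem loc_of_leftInv {f g : V → V} {x : V} (hf : AnalyticAt ℂ f x) (hg : AnalyticAt ℂ g (f x))
    (h : ∀ᶠ y in 𝓝 x, g (f y) = y) : Loc f x := by
  refine ⟨hf, ?_⟩
  have h1 : HasFDerivAt (g ∘ f) ((fderiv ℂ g (f x)).comp (fderiv ℂ f x)) x :=
    hg.differentiableAt.hasFDerivAt.comp x hf.differentiableAt.hasFDerivAt
  have h2 : HasFDerivAt (g ∘ f) (ContinuousLinearMap.id ℂ V) x :=
    (hasFDerivAt_id x).congr_of_eventuallyEq h
  have h3 := h1.unique h2
  intro v w hvw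
  have h4 : ∀ u, fderiv ℂ g (f x) (fderiv ℂ f x u) = u := fun u => by
    have := DFunLike.congr_fun h3 u
    simpa using this
  rw [← h4 v, ← h4 w, hvw]

theorem Loc.comp {g f : V → V} {x : V} (hg : Loc g (f x)) (hf : Loc f x) :
    Loc (fun y => g (f y)) x := by
  refine ⟨AnalyticAt.fun_comp hg.1 hf.1, ?_⟩
  have h1 : HasFDerivAt (fun y => g (f y)) ((fderiv ℂ g (f x)).comp (fderiv ℂ f x)) x :=
    hg.1.differentiableAt.hasFDerivAt.comp x hf.1.differentiableAt.hasFDerivAt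
  rw [h1.fderiv]
  exact hg.2.comp hf.2

theorem Loc.congr {g f : V → V} {x : V} (hg : Loc g x) (h : g =ᶠ[𝓝 x] f) : Loc f x := by
  refine ⟨hg.1.congr h, ?_⟩
  rw [← h.fderiv_eq]
  exact hg.2

theorem exists_cle {A : V →L[ℂ] V} (hA : Function.Injective A) :
    ∃ e : V ≃L[ℂ] V, (e : V →L[ℂ] V) = A := by
  have hinj : Function.Injective (A : V →ₗ[ℂ] V) := hA
  refine ⟨(LinearEquiv.ofInjectiveEndo (A : V →ₗ[ℂ] V) hinj).toContinuousLinearEquiv, ?_⟩
  ext <;> simp

/-- inverse function theorem -/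
theorem exists_local_chart {g : V → V} {x : V} (hg : Loc g x) :
    ∃ e : OpenPartialHomeomorph V V, x ∈ e.source ∧ IsChart e ∧ ∀ y, e y = g y := by
  obtain ⟨A, hA⟩ := exists_cle hg.2
  have h1 : HasStrictFDerivAt g (A : V →L[ℂ] V) x := by
    rw [hA]
    exact hg.1.hasStrictFDerivAt
  have h2 : ∀ᶠ y in 𝓝 x, AnalyticAt ℂ g y := hg.1.eventually_analyticAt
  have h3 : ContinuousAt (fderiv ℂ g) x := hg.1.fderiv.continuousAt
  have h4 : ∀ᶠ y in 𝓝 x, fderiv ℂ g y ∈
      range ((↑) : (V ≃L[ℂ] V) → (V →L[ℂ] V)) := by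
    apply h3
    rw [← hA]
    exact ContinuousLinearEquiv.nhds A
  obtain ⟨O, hO, hOo, hxO⟩ := eventually_nhds_iff.1 (h2.and h4)
  set e₀ := h1.toOpenPartialHomeomorph g with he₀
  have he₀x : x ∈ e₀.source := h1.mem_toOpenPartialHomeomorph_source
  have hco : ∀ y, e₀ y = g y := fun y => rfl
  refine ⟨e₀.restrOpen O hOo, ⟨he₀x, hxO⟩, ⟨?_, ?_⟩, fun y => rfl⟩
  · intro y hy
    have hyO : y ∈ O := hy.2
    have h5 : ContMDiffAt 𝓘(ℂ, V) 𝓘(ℂ, V) ω (e₀.restrOpen O hOo) y := by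
      rw [cmdiffAt_iff]
      exact (hO y hyO).1
    exact h5.contMDiffWithinAt
  · intro w hw
    have hw1 : w ∈ e₀.target := by
      have := (e₀.restrOpen O hOo).map_target hw
      have h5 := e₀.map_source this.1
      have h6 : e₀ (e₀.symm w) = w := (e₀.restrOpen O hOo).right_inv hw
      rw [← h6]
      exact h5
    have hw2 : e₀.symm w ∈ O := ((e₀.restrOpen O hOo).map_target hw).2
    obtain ⟨B, hB⟩ := (hO _ hw2).2
    have h5 : AnalyticAt ℂ e₀.symm w := by
      refine ContDiffAt.analyticAt (e₀.contDiffAt_symm hw1 (f₀' := B) ?_ ?_)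
      · rw [hB]
        exact (hO _ hw2).1.differentiableAt.hasFDerivAt
      · exact (hO _ hw2).1.contDiffAt
    have h6 : ContMDiffAt 𝓘(ℂ, V) 𝓘(ℂ, V) ω (e₀.restrOpen O hOo).symm w := by
      rw [cmdiffAt_iff]
      exact h5
    exact h6.contMDiffWithinAt

/-- local inverse -/
theorem Loc.exists_inv {g : V → V} {x : V} (hg : Loc g x) :
    ∃ f : V → V, Loc f (g x) ∧ f (g x) = x ∧ (∀ᶠ y in 𝓝 x, f (g y) = y) ∧
      ∀ᶠ y in 𝓝 (g x), g (f y) = y := by
  obtain ⟨e, hx, he, heg⟩ := exists_local_chart hg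
  have h1 : g x ∈ e.target := by
    rw [← heg]
    exact e.map_source hx
  have h2 : e.symm (g x) = x := by
    rw [← heg]
    exact e.left_inv hx
  have h3 : ∀ᶠ y in 𝓝 (g x), g (e.symm y) = y := by
    filter_upwards [e.open_target.mem_nhds h1] with y hy
    rw [← heg]
    exact e.right_inv hy
  have h4 : AnalyticAt ℂ e.symm (g x) := by
    rw [← cmdiffAt_iff]
    exact (he.2 _ h1).contMDiffAt (e.open_target.mem_nhds h1)
  refine ⟨e.symm, loc_of_leftInv h4 (by rw [h2]; exact hg.1) h3, h2, ?_, h3⟩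
  filter_upwards [e.open_source.mem_nhds hx] with y hy
  rw [← heg]
  exact e.left_inv hy

section surface

variable {X : Type} [TopologicalSpace X] [ChartedSpace V X]

theorem IsChart.at {c : OpenPartialHomeomorph X V} (hc : IsChart c) {x : X} (hx : x ∈ c.source) :
    ContMDiffAt 𝓘(ℂ, V) 𝓘(ℂ, V) ω c x :=
  (hc.1 x hx).contMDiffAt (c.open_source.mem_nhds hx)

theorem IsChart.symm_at {c : OpenPartialHomeomorph X V} (hc : IsChart c) {w : V}
    (hw : w ∈ c.target) : ContMDiffAt 𝓘(ℂ, V) 𝓘(ℂ, V) ω c.symm w :=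
  (hc.2 w hw).contMDiffAt (c.open_target.mem_nhds hw)

theorem trans_analytic {b φ : OpenPartialHomeomorph X V} (hb : IsChart b) (hφ : IsChart φ) {x : X}
    (hxb : x ∈ b.source) (hxφ : x ∈ φ.source) :
    AnalyticAt ℂ (fun w => b (φ.symm w)) (φ x) := by
  rw [← cmdiffAt_iff]
  have h1 := hφ.symm_at (φ.map_source hxφ)
  have h2 : ContMDiffAt 𝓘(ℂ, V) 𝓘(ℂ, V) ω b (φ.symm (φ x)) := by
    rw [φ.left_inv hxφ]
    exact hb.at hxb
  exact h2.comp (φ x) h1

theorem trans_loc {b φ : OpenPartialHomeomorph X V} (hb : IsChart b) (hφ : IsChart φ) {x : X}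
    (hxb : x ∈ b.source) (hxφ : x ∈ φ.source) : Loc (fun w => b (φ.symm w)) (φ x) := by
  refine loc_of_leftInv (g := fun w => φ (b.symm w)) (trans_analytic hb hφ hxb hxφ) ?_ ?_
  · simp only [φ.left_inv hxφ]
    exact trans_analytic hφ hb hxφ hxb
  · have h1 : ContinuousAt φ.symm (φ x) := φ.continuousAt_symm (φ.map_source hxφ)
    have h2 : ∀ᶠ w in 𝓝 (φ x), φ.symm w ∈ b.source := by
      apply h1.eventually_mem
      rw [φ.left_inv hxφ]
      exact b.open_source.mem_nhds hxb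
    filter_upwards [h2, φ.open_target.mem_nhds (φ.map_source hxφ)] with w hw1 hw2
    rw [b.left_inv hw1, φ.right_inv hw2]

theorem isChart_trans {c : OpenPartialHomeomorph X V} (hc : IsChart c)
    {e : OpenPartialHomeomorph V V} (he : IsChart e) : IsChart (c.trans e) := by
  constructor
  · intro y hy
    rw [OpenPartialHomeomorph.trans_source] at hy
    have h1 : ContMDiffAt 𝓘(ℂ, V) 𝓘(ℂ, V) ω (e ∘ c) y := (he.at hy.2).comp y (hc.at hy.1)
    exact h1.contMDiffWithinAt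
  · intro w hw
    rw [OpenPartialHomeomorph.trans_target] at hw
    have h1 : ContMDiffAt 𝓘(ℂ, V) 𝓘(ℂ, V) ω (c.symm ∘ e.symm) w :=
      (hc.symm_at hw.2).comp w (he.symm_at hw.1)
    exact h1.contMDiffWithinAt

theorem chart_comp {c : OpenPartialHomeomorph X V} (hc : IsChart c) {x : X} (hx : x ∈ c.source)
    {g : V → V} (hg : Loc g (c x)) :
    ∃ c' : OpenPartialHomeomorph X V, IsChart c' ∧ x ∈ c'.source ∧ c'.source ⊆ c.source ∧
      ∀ y, c' y = g (c y) := by
  obtain ⟨e, hxe, he, heg⟩ := exists_local_chart hg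
  refine ⟨c.trans e, isChart_trans hc he, ?_, ?_, ?_⟩
  · rw [OpenPartialHomeomorph.trans_source]
    exact ⟨hx, hxe⟩
  · rw [OpenPartialHomeomorph.trans_source]
    exact inter_subset_left
  · intro y
    exact heg _

theorem isChart_restr {c : OpenPartialHomeomorph X V} (hc : IsChart c) {O : Set X}
    (hO : IsOpen O) : IsChart (c.restrOpen O hO) := by
  constructor
  · intro y hy
    exact (hc.at hy.1 : ContMDiffAt 𝓘(ℂ, V) 𝓘(ℂ, V) ω (c.restrOpen O hO) y).contMDiffWithinAt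
  · intro w hw
    have h1 : w ∈ c.target := by
      have h2 := ((c.restrOpen O hO).map_target hw).1
      have h3 := c.map_source h2
      have h4 : c (c.symm w) = w := (c.restrOpen O hO).right_inv hw
      rw [← h4]
      exact h3
    exact (hc.symm_at h1 : ContMDiffAt 𝓘(ℂ, V) 𝓘(ℂ, V) ω (c.restrOpen O hO).symm w).contMDiffWithinAt

theorem isChart_of_diffeo {Y : Type} [TopologicalSpace Y] [ChartedSpace V Y] {π : Y → X} {y : Y}
    (h : IsLocalDiffeomorphAt 𝓘(ℂ, V) 𝓘(ℂ, V) ω π y) {b : OpenPartialHomeomorph X V}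
    (hb : IsChart b) (hy : π y ∈ b.source) :
    ∃ c : OpenPartialHomeomorph Y V, IsChart c ∧ y ∈ c.source ∧
      ∀ z ∈ c.source, π z ∈ b.source ∧ c z = b (π z) := by
  obtain ⟨Φ, hyΦ, hΦ⟩ := h
  set Ψ : OpenPartialHomeomorph Y X :=
    { toPartialEquiv := Φ.toPartialEquiv
      open_source := Φ.open_source
      open_target := Φ.open_target
      continuousOn_toFun := Φ.contMDiffOn_toFun.continuousOn
      continuousOn_invFun := Φ.contMDiffOn_invFun.continuousOn } with hΨ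
  refine ⟨Ψ.trans b, ⟨?_, ?_⟩, ?_, ?_⟩
  · intro z hz
    rw [OpenPartialHomeomorph.trans_source] at hz
    have h1 : ContMDiffAt 𝓘(ℂ, V) 𝓘(ℂ, V) ω Ψ z :=
      (Φ.contMDiffOn_toFun z hz.1).contMDiffAt (Φ.open_source.mem_nhds hz.1)
    have h2 : ContMDiffAt 𝓘(ℂ, V) 𝓘(ℂ, V) ω (b ∘ Ψ) z := (hb.at hz.2).comp z h1
    exact h2.contMDiffWithinAt
  · intro w hw
    rw [OpenPartialHomeomorph.trans_target] at hw
    have h1 : ContMDiffAt 𝓘(ℂ, V) 𝓘(ℂ, V) ω Ψ.symm (b.symm w) :=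
      (Φ.contMDiffOn_invFun _ hw.2).contMDiffAt (Φ.open_target.mem_nhds hw.2)
    have h2 : ContMDiffAt 𝓘(ℂ, V) 𝓘(ℂ, V) ω (Ψ.symm ∘ b.symm) w :=
      h1.comp w (hb.symm_at hw.1)
    exact h2.contMDiffWithinAt
  · rw [OpenPartialHomeomorph.trans_source]
    refine ⟨hyΦ, ?_⟩
    have h1 : Ψ y = π y := (hΦ hyΦ).symm
    rw [mem_preimage, h1]
    exact hy
  · intro z hz
    rw [OpenPartialHomeomorph.trans_source] at hz
    have h1 : Ψ z = π z := (hΦ hz.1).symm
    have h2 : Ψ z ∈ b.source := hz.2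
    refine ⟨by rw [← h1]; exact h2, ?_⟩
    change b (Ψ z) = b (π z)
    rw [h1]

end surface

end Pool.Agent.U157.Kato
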