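import Pool.Agent.U157.Kato.Iter2

/-!
A contracting germ `F` is conjugate to `α ∘ F` if `α` is tangent to the identity to high order.
-/

set_option autoImplicit false
set_option linter.unusedSectionVars false
set_option linter.unusedVariables false

open Metric Set Filter Topology
open scoped NNReal

namespace Pool.Agent.U157.Kato

variable {E : Type*} [NormedAddCommGroup E] [NormedSpace ℂ E] [FiniteDimensional ℂ E]
  [Nontrivial E]

variable {F α : E → E} {h : E → ℂ}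

/-- numerical constants -/
theorem exists_const (L C R K₁ K : ℝ) (hL : 1 ≤ L) (hC : 1 ≤ C) (hR : 0 < R) (hK1 : 1 ≤ K₁)
    (hK : 1 ≤ K) : ∃ c r r₁ : ℝ, 0 < c ∧ 0 < r ∧ 0 < r₁ ∧ 2 * (L * c) * C ≤ 1 ∧ c ≤ R / 2 ∧
      r ≤ R / 2 ∧ r ≤ 1 ∧ K₁ * r ≤ 1 ∧ r₁ ≤ 1 ∧ r₁ ≤ c ∧ 4 * C * K * r₁ ≤ 1 ∧
      K * r₁ * (2 * C) ≤ c ∧ K₁ * r₁ ≤ r ∧ C * r₁ ≤ R := by
  have hL0 : 0 < L := by linarith
  have hC0 : 0 < C := by linarith
  have hK0 : 0 < K := by linarith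
  have hK10 : 0 < K₁ := by linarith
  set c := min (1 / (2 * L * C)) (R / 2) with hc
  have hc0 : 0 < c := lt_min (by positivity) (by positivity)
  have hc1 : c ≤ 1 / (2 * L * C) := min_le_left _ _
  have hc2 : c ≤ R / 2 := min_le_right _ _
  set r := min (min (R / 2) 1) (1 / K₁) with hr
  have hr0 : 0 < r := lt_min (lt_min (by positivity) one_pos) (by positivity)
  have hr1 : r ≤ R / 2 := (min_le_left _ _).trans (min_le_left _ _)
  have hr2 : r ≤ 1 := (min_le_left _ _).trans (min_le_right _ _)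
  have hr3 : r ≤ 1 / K₁ := min_le_right _ _
  set s := min (min (min c (1 / (4 * C * K))) (min (c / (K * (2 * C))) (r / K₁)))
    (min 1 (R / C)) with hs
  have hs0 : 0 < s := lt_min (lt_min (lt_min hc0 (by positivity))
    (lt_min (by positivity) (by positivity))) (lt_min one_pos (by positivity))
  have s1 : s ≤ c := (min_le_left _ _).trans ((min_le_left _ _).trans (min_le_left _ _))
  have s2 : s ≤ 1 / (4 * C * K) :=
    (min_le_left _ _).trans ((min_le_left _ _).trans (min_le_right _ _))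
  have s3 : s ≤ c / (K * (2 * C)) :=
    (min_le_left _ _).trans ((min_le_right _ _).trans (min_le_left _ _))
  have s4 : s ≤ r / K₁ :=
    (min_le_left _ _).trans ((min_le_right _ _).trans (min_le_right _ _))
  have s5 : s ≤ 1 := (min_le_right _ _).trans (min_le_left _ _)
  have s6 : s ≤ R / C := (min_le_right _ _).trans (min_le_right _ _)
  rw [le_div_iff₀ (by positivity)] at hc1 hr3 s2 s3 s4 s6
  refine ⟨c, r, s, hc0, hr0, hs0, ?_, hc2, hr1, hr2, ?_, s5, s1, ?_, ?_, ?_, ?_⟩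
  · linarith
  · linarith
  · linarith
  · linarith
  · linarith
  · linarith

/-- the estimate of the weight -/
theorem est_aux {k : ℕ} {L K₁ a x d f g : ℝ} (hL : 1 ≤ L) (hK1 : 1 ≤ K₁) (ha0 : 0 ≤ a)
    (hx0 : 0 ≤ x) (hf0 : 0 ≤ f) (hg0 : 0 ≤ g) (ha1 : a ≤ 1) (hax : a ≤ L * x)
    (hd : d ≤ K₁ * a ^ (3 * k + 8)) (hf : f ≤ K₁ * a * x) (hg : g ≤ K₁ * a) :
    d + f ^ (k + 1 + 2) * g ^ (k + 1 + 2) ≤
      (K₁ * L ^ (k + 3) + K₁ ^ (2 * (k + 3))) * a ^ (k + 1 + 1) * (a ^ (k + 1 + 2) * x ^ (k + 1 + 2)) := by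
  have e1 : d ≤ K₁ * L ^ (k + 3) * (a ^ (k + 1 + 1) * (a ^ (k + 1 + 2) * x ^ (k + 1 + 2))) := by
    refine hd.trans ?_
    have h1 : a ^ (3 * k + 8) = a ^ (k + 2) * a ^ (k + 3) * a ^ (k + 3) := by ring
    have h2 : a ^ (k + 3) ≤ (L * x) ^ (k + 3) := pow_le_pow_left₀ ha0 hax _
    rw [h1]
    calc K₁ * (a ^ (k + 2) * a ^ (k + 3) * a ^ (k + 3))
        ≤ K₁ * (a ^ (k + 2) * a ^ (k + 3) * (L * x) ^ (k + 3)) := by gcongr
      _ = _ := by ring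
  have e2 : f ^ (k + 1 + 2) * g ^ (k + 1 + 2) ≤
      K₁ ^ (2 * (k + 3)) * (a ^ (k + 1 + 1) * (a ^ (k + 1 + 2) * x ^ (k + 1 + 2))) := by
    calc f ^ (k + 1 + 2) * g ^ (k + 1 + 2) ≤ (K₁ * a * x) ^ (k + 3) * (K₁ * a) ^ (k + 3) := by
          gcongr
      _ = K₁ ^ (2 * (k + 3)) * (a ^ (k + 2) * (a ^ (k + 3) * x ^ (k + 3))) * a := by ring
      _ ≤ K₁ ^ (2 * (k + 3)) * (a ^ (k + 2) * (a ^ (k + 3) * x ^ (k + 3))) * 1 := by gcongr
      _ = _ := by ring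
  linarith

/-- **Conjugacy of contracting germs.** -/
theorem exists_conj (hF : AnalyticAt ℂ F 0) (hα : AnalyticAt ℂ α 0) (hh : AnalyticAt ℂ h 0)
    (h0 : h 0 = 0) {C : ℝ} {k : ℕ}
    (ha : ∀ᶠ x in 𝓝 (0 : E), ‖F x‖ ≤ C * ‖h x‖)
    (hb : ∀ᶠ x in 𝓝 (0 : E), ‖h (F x)‖ ≤ C * ‖h x‖ * ‖x‖)
    (hc : ∀ᶠ x in 𝓝 (0 : E), ∀ v, ‖h x‖ ^ k * ‖v‖ ≤ C * ‖fderiv ℂ F x v‖)
    (hd : ∀ᶠ x in 𝓝 (0 : E), ‖α x - x‖ ≤ C * ‖x‖ ^ (3 * k + 8)) :
    ∃ δ : E → E, AnalyticAt ℂ δ 0 ∧ δ 0 = 0 ∧ fderiv ℂ δ 0 = 0 ∧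
      ∀ᶠ x in 𝓝 (0 : E), F (x + δ x) = α (F x) + δ (α (F x)) := by
  have : CompleteSpace E := FiniteDimensional.complete ℂ E
  -- Lipschitz constants
  obtain ⟨L1, t1, ht1, hL1⟩ := (hF.fderiv.contDiffAt (n := 1)).exists_lipschitzOnWith
  obtain ⟨L2, t2, ht2, hL2⟩ := (hh.contDiffAt (n := 1)).exists_lipschitzOnWith
  obtain ⟨L, hL⟩ : ∃ L : ℝ, L = 1 + L1 + L2 := ⟨_, rfl⟩
  have hL1' : 1 ≤ L := by
    have := L1.coe_nonneg
    have := L2.coe_nonneg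
    linarith
  obtain ⟨D, hD1, hCD⟩ : ∃ D : ℝ, 1 ≤ D ∧ C ≤ D := ⟨max C 1, le_max_right _ _, le_max_left _ _⟩
  -- the ball
  have hev : ∀ᶠ x in 𝓝 (0 : E), (‖F x‖ ≤ D * ‖h x‖ ∧ ‖h (F x)‖ ≤ D * ‖h x‖ * ‖x‖ ∧
      (∀ v, ‖h x‖ ^ k * ‖v‖ ≤ D * ‖fderiv ℂ F x v‖) ∧ ‖α x - x‖ ≤ D * ‖x‖ ^ (3 * k + 8)) ∧
      (x ∈ t1 ∧ x ∈ t2 ∧ DifferentiableAt ℂ F x ∧ DifferentiableAt ℂ α x ∧
        DifferentiableAt ℂ h x) := by
    filter_upwards [ha, hb, hc, hd, ht1, ht2, hF.eventually_analyticAt, hα.eventually_analyticAt,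
      hh.eventually_analyticAt] with x h1 h2 h3 h4 h5 h6 h7 h8 h9
    refine ⟨⟨h1.trans (by gcongr), h2.trans (by gcongr), fun v => (h3 v).trans (by gcongr),
      h4.trans (by gcongr)⟩, h5, h6, h7.differentiableAt, h8.differentiableAt,
      h9.differentiableAt⟩
  obtain ⟨R₀, hR₀, hball⟩ := Metric.eventually_nhds_iff_ball.1 hev
  obtain ⟨R, hR⟩ : ∃ R : ℝ, R = R₀ / 2 := ⟨_, rfl⟩
  have hRp : 0 < R := by rw [hR]; positivity
  have hsub : ∀ x : E, ‖x‖ < 2 * R → x ∈ ball (0 : E) R₀ := by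
    intro x hx
    rw [mem_ball_zero_iff]
    linarith
  have hhx : ∀ x : E, ‖x‖ < 2 * R → ‖h x‖ ≤ L * ‖x‖ := by
    intro x hx
    have h1 := hL2.dist_le_mul x (hball x (hsub x hx)).2.2.1 0
      (hball 0 (mem_ball_self hR₀)).2.2.1
    rw [dist_eq_norm, dist_eq_norm, h0, sub_zero, sub_zero] at h1
    refine h1.trans (mul_le_mul_of_nonneg_right ?_ (norm_nonneg _))
    have := L1.coe_nonneg
    linarith
  obtain ⟨K₁, hK₁⟩ : ∃ K₁ : ℝ, K₁ = D + L ^ 2 * D ^ (3 * k + 9) + D ^ (3 * k + 9) := ⟨_, rfl⟩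
  have hD9 : 1 ≤ D ^ (3 * k + 9) := one_le_pow₀ hD1
  have hK11 : 1 ≤ K₁ := by
    have : 0 ≤ L ^ 2 * D ^ (3 * k + 9) := by positivity
    linarith
  obtain ⟨K, hK⟩ : ∃ K : ℝ, K = K₁ * L ^ (k + 3) + K₁ ^ (2 * (k + 3)) := ⟨_, rfl⟩
  have hK1 : 1 ≤ K := by
    have h1 : 1 ≤ K₁ ^ (2 * (k + 3)) := one_le_pow₀ hK11
    have h2 : 0 ≤ K₁ * L ^ (k + 3) := by positivity
    linarith
  obtain ⟨c, r, r₁, hc0, hr0, hr10, n1, n2, n3, n4, n5, n6, n7, n8, n9, n10, n11⟩ :=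
    exists_const L D R K₁ K hL1' hD1 hRp hK11 hK1
  obtain ⟨Ω, hΩ⟩ : ∃ Ω : Set E, Ω = ball 0 r ∩ h ⁻¹' (ball 0 r₁) := ⟨_, rfl⟩
  have hΩm : ∀ x, x ∈ Ω ↔ ‖x‖ < r ∧ ‖h x‖ < r₁ := by
    intro x
    rw [hΩ, mem_inter_iff, mem_ball_zero_iff, mem_preimage, mem_ball_zero_iff]
  have hrR : r < 2 * R := by linarith
  have hG : ∀ x : E, ‖x‖ < 2 * R → _ := fun x hx => hball x (hsub x hx)
  have hΩR : ∀ x ∈ Ω, ‖x‖ < 2 * R := fun x hx => ((hΩm x).1 hx).1.trans hrR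
  have hFx : ∀ x ∈ Ω, ‖F x‖ < 2 * R := by
    intro x hx
    have h1 := (hG x (hΩR x hx)).1.1
    have h2 := ((hΩm x).1 hx).2
    calc ‖F x‖ ≤ D * ‖h x‖ := h1
      _ ≤ D * r₁ := by gcongr
      _ ≤ R := n11
      _ < 2 * R := by linarith
  have hda : ∀ x ∈ Ω, ‖α (F x) - F x‖ ≤ D ^ (3 * k + 9) * ‖h x‖ ^ (3 * k + 8) := by
    intro x hx
    have h1 := (hG x (hΩR x hx)).1.1
    have h2 := (hG _ (hFx x hx)).1.2.2.2
    calc ‖α (F x) - F x‖ ≤ D * ‖F x‖ ^ (3 * k + 8) := h2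
      _ ≤ D * (D * ‖h x‖) ^ (3 * k + 8) := by gcongr
      _ = D ^ (3 * k + 9) * ‖h x‖ ^ (3 * k + 8) := by ring
  have ha1 : ∀ x ∈ Ω, ‖h x‖ ≤ 1 := fun x hx => ((hΩm x).1 hx).2.le.trans n6
  have hgx : ∀ x ∈ Ω, ‖α (F x)‖ ≤ K₁ * ‖h x‖ := by
    intro x hx
    have h1 := (hG x (hΩR x hx)).1.1
    have h3 : ‖h x‖ ^ (3 * k + 8) ≤ ‖h x‖ := by
      calc ‖h x‖ ^ (3 * k + 8) = ‖h x‖ ^ (3 * k + 7) * ‖h x‖ := by ring
        _ ≤ 1 * ‖h x‖ := by
            gcongr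
            exact pow_le_one₀ (norm_nonneg _) (ha1 x hx)
        _ = ‖h x‖ := one_mul _
    have h4 : ‖α (F x)‖ ≤ ‖F x‖ + ‖α (F x) - F x‖ := by
      have := norm_add_le (F x) (α (F x) - F x)
      rwa [add_sub_cancel] at this
    calc ‖α (F x)‖ ≤ D * ‖h x‖ + D ^ (3 * k + 9) * ‖h x‖ ^ (3 * k + 8) := by
          linarith [hda x hx]
      _ ≤ D * ‖h x‖ + D ^ (3 * k + 9) * ‖h x‖ := by gcongr
      _ ≤ K₁ * ‖h x‖ := by
          rw [hK₁]
          have : 0 ≤ L ^ 2 * D ^ (3 * k + 9) * ‖h x‖ := by positivity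
          nlinarith
  have hgr : ∀ x ∈ Ω, ‖α (F x)‖ < r := by
    intro x hx
    have h2 := ((hΩm x).1 hx).2
    calc ‖α (F x)‖ ≤ K₁ * ‖h x‖ := hgx x hx
      _ < K₁ * r₁ := by gcongr
      _ ≤ r := n10
  have hfx : ∀ x ∈ Ω, ‖h (α (F x))‖ ≤ K₁ * ‖h x‖ * ‖x‖ := by
    intro x hx
    have h1 := (hG x (hΩR x hx)).1.2.1
    have h2 : ‖h (α (F x)) - h (F x)‖ ≤ L * ‖α (F x) - F x‖ := by
      have h3 := hL2.dist_le_mul (α (F x)) (hG _ ((hgr x hx).trans hrR)).2.2.1 (F x)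
        (hG _ (hFx x hx)).2.2.1
      rw [dist_eq_norm, dist_eq_norm] at h3
      refine h3.trans (mul_le_mul_of_nonneg_right ?_ (norm_nonneg _))
      have := L1.coe_nonneg
      linarith
    have h3 : ‖h x‖ ^ (3 * k + 8) ≤ ‖h x‖ * (L * ‖x‖) := by
      have h4 := hhx x (hΩR x hx)
      calc ‖h x‖ ^ (3 * k + 8) = ‖h x‖ ^ (3 * k + 6) * (‖h x‖ * ‖h x‖) := by ring
        _ ≤ 1 * (‖h x‖ * (L * ‖x‖)) := by
            gcongr
            exact pow_le_one₀ (norm_nonneg _) (ha1 x hx)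
        _ = _ := one_mul _
    have h4 : ‖h (α (F x))‖ ≤ ‖h (F x)‖ + ‖h (α (F x)) - h (F x)‖ := by
      have := norm_add_le (h (F x)) (h (α (F x)) - h (F x))
      rwa [add_sub_cancel] at this
    calc ‖h (α (F x))‖ ≤ D * ‖h x‖ * ‖x‖ + L * (D ^ (3 * k + 9) * ‖h x‖ ^ (3 * k + 8)) := by
          have := mul_le_mul_of_nonneg_left (hda x hx) (by linarith : (0 : ℝ) ≤ L)
          linarith
      _ ≤ D * ‖h x‖ * ‖x‖ + L * (D ^ (3 * k + 9) * (‖h x‖ * (L * ‖x‖))) := by gcongr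
      _ ≤ K₁ * ‖h x‖ * ‖x‖ := by
          rw [hK₁]
          have : 0 ≤ D ^ (3 * k + 9) * ‖h x‖ * ‖x‖ := by positivity
          nlinarith
  have q : Q F α h (k + 1) L D K c Ω := by
    refine ⟨by omega, ?_, ?_, by linarith, by linarith, by linarith, hc0, n1, ?_, ?_, ?_, ?_, ?_,
      ?_, ?_, ?_, ?_, h0, ha1, ?_, ?_, ?_, ?_, ?_⟩
    · rw [hΩ]
      refine ContinuousOn.isOpen_inter_preimage (fun x hx => ?_) isOpen_ball isOpen_ball
      rw [mem_ball_zero_iff] at hx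
      exact (hG x (hx.trans hrR)).2.2.2.2.2.continuousAt.continuousWithinAt
    · rw [hΩm, norm_zero, h0, norm_zero]
      exact ⟨hr0, hr10⟩
    · intro x hx y hy
      rw [mem_closedBall, dist_eq_norm] at hy
      have h1 : ‖y‖ < 2 * R := by
        have h2 := norm_add_le x (y - x)
        rw [add_sub_cancel] at h2
        have h3 := ((hΩm x).1 hx).1
        linarith
      exact (hG y h1).2.2.2.1
    · intro x hx y hy
      rw [mem_closedBall, dist_eq_norm] at hy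
      have h1 : ‖y‖ < 2 * R := by
        have h2 := norm_add_le x (y - x)
        rw [add_sub_cancel] at h2
        have h3 := ((hΩm x).1 hx).1
        linarith
      have h3 := hL1.dist_le_mul y (hG y h1).2.1 x (hG x (hΩR x hx)).2.1
      rw [dist_eq_norm, dist_eq_norm] at h3
      refine h3.trans (mul_le_mul_of_nonneg_right ?_ (norm_nonneg _))
      have := L2.coe_nonneg
      linarith
    · intro x hx
      exact (hG x (hΩR x hx)).2.2.2.2.2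
    · intro x hx y hy
      have h3 := hL2.dist_le_mul y (hG y (hΩR y hy)).2.2.1 x (hG x (hΩR x hx)).2.2.1
      rw [dist_eq_norm, dist_eq_norm] at h3
      refine h3.trans (mul_le_mul_of_nonneg_right ?_ (norm_nonneg _))
      have := L1.coe_nonneg
      linarith
    · intro x hx
      exact (hG _ (hFx x hx)).2.2.2.2.1
    · intro x hx
      rw [hΩm]
      refine ⟨hgr x hx, ?_⟩
      have h2 := (hΩm x).1 hx
      calc ‖h (α (F x))‖ ≤ K₁ * ‖h x‖ * ‖x‖ := hfx x hx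
        _ = (K₁ * ‖x‖) * ‖h x‖ := by ring
        _ ≤ (K₁ * r) * ‖h x‖ := by
            gcongr
            exact h2.1.le
        _ ≤ 1 * ‖h x‖ := by gcongr
        _ = ‖h x‖ := one_mul _
        _ < r₁ := h2.2
    · intro x hx v
      have h1 := (hG x (hΩR x hx)).1.2.2.1 v
      calc ‖h x‖ ^ (k + 1) * ‖v‖ = ‖h x‖ * (‖h x‖ ^ k * ‖v‖) := by ring
        _ ≤ 1 * (‖h x‖ ^ k * ‖v‖) := by
            gcongr
            exact ha1 x hx
        _ ≤ D * ‖fderiv ℂ F x v‖ := by rw [one_mul]; exact h1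
    · intro x hx hx0
      have h1 := (hG x (hΩR x hx)).1.1
      rw [hx0, norm_zero, mul_zero] at h1
      exact norm_le_zero_iff.1 h1
    · have h1 := (hG 0 (by rw [norm_zero]; positivity)).1.2.2.2
      rw [sub_zero, norm_zero, zero_pow (by omega), mul_zero] at h1
      exact norm_le_zero_iff.1 h1
    · intro x hx
      exact ((hΩm x).1 hx).1.le.trans n4
    · intro x hx
      exact ((hΩm x).1 hx).2.le.trans n7
    · intro x hx
      have h1 := ((hΩm x).1 hx).2.le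
      calc 4 * D * K * ‖h x‖ ≤ 4 * D * K * r₁ := by gcongr
        _ ≤ 1 := n8
    · intro x hx
      have h1 := ((hΩm x).1 hx).2.le
      calc K * ‖h x‖ * (2 * D) ≤ K * r₁ * (2 * D) := by gcongr
        _ ≤ c := n9
    · intro x hx
      rw [hK]
      refine est_aux (L := L) hL1' hK11 (norm_nonneg _) (norm_nonneg _) (norm_nonneg _)
        (norm_nonneg _) (ha1 x hx) (hhx x (hΩR x hx)) ?_ (hfx x hx) (hgx x hx)
      refine (hda x hx).trans (mul_le_mul_of_nonneg_right ?_ (by positivity))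
      have : 0 ≤ L ^ 2 * D ^ (3 * k + 9) := by positivity
      linarith
  obtain ⟨δ, -, h2, h3, h4, h5⟩ := q.exists_conj
  exact ⟨δ, h2, h3, h4, Filter.eventually_of_mem (q.op.mem_nhds q.mem0) h5⟩

end Pool.Agent.U157.Kato
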