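import Pool.Agent.U157.Kato.Tower

/-!
Germs of birational maps which are locally biholomorphic at the origin.
-/

set_option autoImplicit false

open Filter Topology Set MvPolynomial

namespace Pool.Agent.U157.Kato

/-- a locally biholomorphic germ which is birational -/
def Cr (τ : V → V) : Prop := Loc τ 0 ∧ τ 0 = 0 ∧ Bir τ

theorem Loc.eventually {τ : V → V} {x : V} (h : Loc τ x) : ∀ᶠ y in 𝓝 x, Loc τ y := by
  obtain ⟨A, hA⟩ := exists_cle h.2
  have h2 : ∀ᶠ y in 𝓝 x, AnalyticAt ℂ τ y := h.1.eventually_analyticAt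
  have h3 : ContinuousAt (fderiv ℂ τ) x := h.1.fderiv.continuousAt
  have h4 : ∀ᶠ y in 𝓝 x, fderiv ℂ τ y ∈
      range ((↑) : (V ≃L[ℂ] V) → (V →L[ℂ] V)) := by
    apply h3
    rw [← hA]
    exact ContinuousLinearEquiv.nhds A
  filter_upwards [h2, h4] with y hy1 hy2
  obtain ⟨B, hB⟩ := hy2
  refine ⟨hy1, ?_⟩
  rw [← hB]
  exact B.injective

theorem qo_of_loc {τ : V → V} {x : V} (h : Loc τ x) :
    ∃ W : Set V, IsOpen W ∧ x ∈ W ∧ QO τ W ∧ ContinuousOn τ W := by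
  obtain ⟨W, hW, hWo, h0⟩ := eventually_nhds_iff.1 h.eventually
  refine ⟨W, hWo, h0, QO.of_dense fun O hO hOo hne => ?_, fun y hy =>
    (hW y hy).1.continuousAt.continuousWithinAt⟩
  obtain ⟨x, hx⟩ := hne
  exact ⟨x, hx, (hW x (hO hx)).map_nhds⟩

theorem Cr.comp {τ₁ τ₂ : V → V} (h1 : Cr τ₁) (h2 : Cr τ₂) : Cr (fun x => τ₁ (τ₂ x)) := by
  obtain ⟨ha, ha0, Wa, hWa, h0a, ra, ra'⟩ := h1
  obtain ⟨hb, hb0, Wb, hWb, h0b, rb, rb'⟩ := h2
  have hc : Loc (fun x => τ₁ (τ₂ x)) 0 := Loc.comp (by rw [hb0]; exact ha) hb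
  refine ⟨hc, by simp only [hb0, ha0], ?_⟩
  obtain ⟨W₁, hW₁, h01, q1, c1⟩ := qo_of_loc hb
  obtain ⟨W₂, hW₂, h02, q2, c2⟩ := qo_of_loc hc
  have hWo : IsOpen ((W₁ ∩ τ₂ ⁻¹' Wa) ∩ (Wb ∩ W₂)) :=
    (c1.isOpen_inter_preimage hW₁ hWa).inter (hWb.inter hW₂)
  set W : Set V := (W₁ ∩ τ₂ ⁻¹' Wa) ∩ (Wb ∩ W₂) with hW
  have h0 : (0 : V) ∈ W := ⟨⟨h01, by rw [mem_preimage, hb0]; exact h0a⟩, h0b, h02⟩
  refine ⟨W, hWo, h0, ?_, ?_⟩
  · have r1 : Rel (fun w => τ₁ (τ₂ w)) (fun w => id (τ₂ w)) W := ra.comp (fun w hw => hw.1.2)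
    have r2 : Rel τ₂ id W := rb.mono (fun w hw => hw.2.1)
    exact Rel.trans hWo ⟨0, h0⟩ (c2.mono fun w hw => hw.2.2) (q2.mono fun w hw => hw.2.2)
      (q1.mono fun w hw => hw.1.1) r1 r2
  · have r1 : Rel (fun w => id (τ₂ w)) (fun w => τ₁ (τ₂ w)) W := ra'.comp (fun w hw => hw.1.2)
    have r2 : Rel id τ₂ W := rb'.mono (fun w hw => hw.2.1)
    exact Rel.trans hWo ⟨0, h0⟩ continuous_id.continuousOn (qo_id W)
      (q1.mono fun w hw => hw.1.1) r2 r1

theorem cr_id : Cr (fun x => x) := by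
  refine ⟨loc_of_leftInv (g := fun x => x) analyticAt_id analyticAt_id
    (Eventually.of_forall fun _ => rfl), rfl, univ, isOpen_univ, mem_univ _, Rel.refl _ _,
    Rel.refl _ _⟩

/-- a linear form as a polynomial -/
noncomputable def lin (l : V →L[ℂ] ℂ) : MvPolynomial (Fin 2) ℂ :=
  C (l (1, 0)) * X 0 + C (l (0, 1)) * X 1

theorem clm_decomp {F : Type*} [AddCommGroup F] [Module ℂ F] [TopologicalSpace F] (l : V →L[ℂ] F)
    (x : V) : l x = x.1 • l (1, 0) + x.2 • l (0, 1) := by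
  have h : x = x.1 • ((1, 0) : V) + x.2 • ((0, 1) : V) := by ext <;> simp
  conv_lhs => rw [h]
  rw [map_add, map_smul, map_smul]

theorem ev_lin (l : V →L[ℂ] ℂ) (x : V) : ev (lin l) x = l x := by
  rw [lin, ev_add, ev_mul, ev_mul, ev_C, ev_C, ev_X0, ev_X1, clm_decomp l x]
  simp only [smul_eq_mul]
  ring

theorem rel_linear (A : V →L[ℂ] V) (W : Set V) : Rel id A W := by
  refine ⟨![1, lin ((ContinuousLinearMap.fst ℂ ℂ ℂ).comp A),
    lin ((ContinuousLinearMap.snd ℂ ℂ ℂ).comp A)], one_ne_zero, fun x _ => ⟨?_, ?_⟩⟩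
  · change ev 1 x * (A x).1 = ev (lin _) x
    rw [ev_one, ev_lin, one_mul]
    rfl
  · change ev 1 x * (A x).2 = ev (lin _) x
    rw [ev_one, ev_lin, one_mul]
    rfl

theorem cr_linear {A : V →L[ℂ] V} (hA : Function.Injective A) : Cr A := by
  obtain ⟨B, rfl⟩ := exists_cle hA
  refine ⟨⟨(B : V →L[ℂ] V).analyticAt 0, ?_⟩, map_zero _, univ, isOpen_univ, mem_univ _, ?_,
    rel_linear _ _⟩
  · rw [(B : V →L[ℂ] V).fderiv]
    exact hA
  · have h1 : Rel (fun y : V => id ((B : V →L[ℂ] V) y))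
        (fun y : V => (B.symm : V →L[ℂ] V) ((B : V →L[ℂ] V) y)) univ :=
      (rel_linear (B.symm : V →L[ℂ] V) univ).comp (fun _ _ => mem_univ _)
    exact h1.congr (fun _ _ => rfl) (fun y _ => by simp)

/-- the elementary maps -/
theorem cr_elem (l m : V →L[ℂ] ℂ) {v : V} (hv : l v = 0) {n : ℕ} (hn : 1 ≤ n) :
    Cr (fun x => x + (l x ^ n * m x) • v) := by
  set κ : V → V := fun x => x + (l x ^ n * m x) • v with hκ
  have hκa : ∀ x, AnalyticAt ℂ κ x := fun x =>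
    analyticAt_id.add (((l.analyticAt x).pow n).mul (m.analyticAt x) |>.smul analyticAt_const)
  have hlκ : ∀ x, l (κ x) = l x := by
    intro x
    simp only [hκ, map_add, map_smul, hv, smul_zero, add_zero]
  have hmκ : ∀ x, m (κ x) = m x * (1 + l x ^ n * m v) := by
    intro x
    simp only [hκ, map_add, map_smul, smul_eq_mul]
    ring
  have hκ0 : κ 0 = 0 := by simp [hκ]
  set D : V → ℂ := fun y => 1 + l y ^ n * m v with hD
  have hDa : ∀ y, AnalyticAt ℂ D y := fun y =>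
    analyticAt_const.add (((l.analyticAt y).pow n).mul analyticAt_const)
  have hD0 : D 0 = 1 := by
    simp only [hD, map_zero]
    rw [zero_pow (by omega), zero_mul, add_zero]
  -- the inverse
  set ι : V → V := fun y => y - ((l y ^ n * m y) / D y) • v with hι
  have hιa : AnalyticAt ℂ ι 0 := by
    have h1 : AnalyticAt ℂ (fun y => (l y ^ n * m y) / D y) 0 :=
      (((l.analyticAt 0).pow n).mul (m.analyticAt 0)).div (hDa 0)
        (by rw [hD0]; exact one_ne_zero)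
    exact analyticAt_id.sub (h1.smul analyticAt_const)
  have hinv : ∀ᶠ x in 𝓝 0, ι (κ x) = x := by
    have h1 : ∀ᶠ x in 𝓝 (0 : V), D x ≠ 0 :=
      (hDa 0).continuousAt.eventually_ne (by rw [hD0]; exact one_ne_zero)
    filter_upwards [h1] with x hx
    have h2 : D (κ x) = D x := by simp only [hD, hlκ]
    simp only [hι]
    rw [h2, hlκ, hmκ]
    have h3 : l x ^ n * (m x * (1 + l x ^ n * m v)) / D x = l x ^ n * m x := by
      have : (1 + l x ^ n * m v) = D x := rfl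
      rw [this]
      field_simp
    rw [h3]
    simp only [hκ]
    rw [add_sub_cancel_right]
  refine ⟨loc_of_leftInv (hκa 0) (by rw [hκ0]; exact hιa) hinv, hκ0, univ, isOpen_univ,
    mem_univ _, ?_, ?_⟩
  · set P : MvPolynomial (Fin 2) ℂ := 1 + lin l ^ n * C (m v) with hP
    have hPe : ∀ y, ev P y = D y := fun y => by
      rw [hP, ev_add, ev_one, ev_mul, ev_pow, ev_lin, ev_C]
    refine ⟨![P, P * X 0 - lin l ^ n * lin m * C v.1, P * X 1 - lin l ^ n * lin m * C v.2],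
      ?_, fun x _ => ⟨?_, ?_⟩⟩
    · intro h0
      have h1 : ev P 0 = 0 := by
        change P = 0 at h0
        rw [h0, ev_zero]
      rw [hPe, hD0] at h1
      exact one_ne_zero h1
    · change ev P (κ x) * x.1 = ev (P * X 0 - lin l ^ n * lin m * C v.1) (κ x)
      rw [ev_sub, ev_mul, ev_mul, ev_mul, ev_pow, ev_lin, ev_lin, ev_C, ev_X0, hPe, hlκ, hmκ]
      simp only [hD, hlκ]
      simp only [hκ, Prod.fst_add, Prod.smul_fst, smul_eq_mul]
      ring
    · change ev P (κ x) * x.2 = ev (P * X 1 - lin l ^ n * lin m * C v.2) (κ x)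
      rw [ev_sub, ev_mul, ev_mul, ev_mul, ev_pow, ev_lin, ev_lin, ev_C, ev_X1, hPe, hlκ, hmκ]
      simp only [hD, hlκ]
      simp only [hκ, Prod.snd_add, Prod.smul_snd, smul_eq_mul]
      ring
  · refine ⟨![1, X 0 + lin l ^ n * lin m * C v.1, X 1 + lin l ^ n * lin m * C v.2],
      one_ne_zero, fun x _ => ⟨?_, ?_⟩⟩
    · change ev 1 x * (κ x).1 = ev (X 0 + lin l ^ n * lin m * C v.1) x
      rw [ev_add, ev_mul, ev_mul, ev_pow, ev_lin, ev_lin, ev_C, ev_X0, ev_one, one_mul]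
      simp [hκ]
    · change ev 1 x * (κ x).2 = ev (X 1 + lin l ^ n * lin m * C v.2) x
      rw [ev_add, ev_mul, ev_mul, ev_pow, ev_lin, ev_lin, ev_C, ev_X1, ev_one, one_mul]
      simp [hκ]

end Pool.Agent.U157.Kato
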