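import Mathlib

/-!
# Kato surfaces and birational structures: definitions

* `IsChart c`: `c` is a holomorphic chart of a complex surface;
* `IsBlowUp π p`: the holomorphic map `π : Y → X` of complex surfaces is the blow-up of the point `p`;
* `IsTower n Z`: the surface `Z` over `ℂ²` is obtained from `ℂ²` by `n` successive blow-ups of points
  over the origin;
* `IsKatoSurface S`: `S` is obtained by Kato's construction from such a `Z` and a holomorphic
  embedding `σ` of the unit ball into the part of `Z` over the unit ball;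
* `IsBirationalOn f U`: the map `f` is on `U` the restriction of a birational map of the plane;
* `HasBirationalStructure S`: the surface `S` has a birational structure.
-/

set_option autoImplicit false

open Manifold Set MvPolynomial
open scoped ContDiff Topology

namespace Pool.Agent.U157.Kato

/-- the affine plane `ℂ²` -/
abbrev V : Type := ℂ × ℂ

section charts

variable {X : Type} [TopologicalSpace X] [ChartedSpace V X]

/-- `c` is a holomorphic chart of the complex surface `X`: a biholomorphic map from an open subset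
of `X` to an open subset of `ℂ²`. -/
def IsChart (c : OpenPartialHomeomorph X V) : Prop :=
  ContMDiffOn 𝓘(ℂ, V) 𝓘(ℂ, V) ω c c.source ∧ ContMDiffOn 𝓘(ℂ, V) 𝓘(ℂ, V) ω c.symm c.target

end charts

/-- The map `π : Y → X` of complex surfaces is the blow-up of the point `p` of `X`: it is
holomorphic, it is biholomorphic outside `p`, and there is a chart `φ` of `X` which maps `p` to the
origin such that the part of `Y` over the domain of `φ` is covered by two charts with the coordinates
`(u, v)`, in which `φ ∘ π` is given by `(u, v) ↦ (u, u v)` and by `(u, v) ↦ (u v, v)`. -/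
structure IsBlowUp {X Y : Type} [TopologicalSpace X] [ChartedSpace V X] [TopologicalSpace Y]
    [ChartedSpace V Y] (π : Y → X) (p : X) : Prop where
  holomorphic : ContMDiff 𝓘(ℂ, V) 𝓘(ℂ, V) ω π
  bijective : ∀ x, x ≠ p → ∃! y, π y = x
  biholomorphic : ∀ y, π y ≠ p → IsLocalDiffeomorphAt 𝓘(ℂ, V) 𝓘(ℂ, V) ω π y
  charts : ∃ (φ : OpenPartialHomeomorph X V) (c₁ c₂ : OpenPartialHomeomorph Y V),
    IsChart φ ∧ IsChart c₁ ∧ IsChart c₂ ∧ p ∈ φ.source ∧ φ p = 0 ∧
    π ⁻¹' φ.source = c₁.source ∪ c₂.source ∧
    c₁.target = {w | (w.1, w.1 * w.2) ∈ φ.target} ∧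
    (∀ y ∈ c₁.source, φ (π y) = ((c₁ y).1, (c₁ y).1 * (c₁ y).2)) ∧
    c₂.target = {w | (w.1 * w.2, w.2) ∈ φ.target} ∧
    (∀ y ∈ c₂.source, φ (π y) = ((c₂ y).1 * (c₂ y).2, (c₂ y).2))

/-- A complex surface (a Hausdorff complex manifold of dimension two) with a map to `ℂ²`. -/
structure SurfaceOver where
  /-- the points -/
  X : Type
  /-- the topology -/
  [top : TopologicalSpace X]
  [t2 : T2Space X]
  /-- the complex charts -/
  [charts : ChartedSpace V X]
  [mfd : IsManifold 𝓘(ℂ, V) ω X]
  /-- the map to the plane -/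
  proj : X → V

attribute [instance] SurfaceOver.top SurfaceOver.t2 SurfaceOver.charts SurfaceOver.mfd

/-- `IsTower n Z`: the surface `Z` over `ℂ²` is obtained from `ℂ²` by `n` successive blow-ups of points
over the origin. -/
inductive IsTower : ℕ → SurfaceOver → Prop
  | plane : IsTower 0 { X := V, proj := id }
  | blowUp (n : ℕ) (Y Z : SurfaceOver) (π : Z.X → Y.X) (p : Y.X) : IsTower n Y → Y.proj p = 0 →
      IsBlowUp π p → (∀ z, Z.proj z = Y.proj (π z)) → IsTower (n + 1) Z

/-- the open ball in `ℂ²` with the centre `0` and the radius `r` -/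
def Ball (r : ℝ) : Set V := {x | ‖x.1‖ ^ 2 + ‖x.2‖ ^ 2 < r ^ 2}

/-- `S` is a Kato surface. There are a surface `Z`, the result of `n ≥ 1` successive blow-ups of
`ℂ²` in points over the origin, with the projection `proj : Z → ℂ²`, and a holomorphic open embedding
`σ` of the unit ball `Ball 1` of `ℂ²` into `Z`, such that `σ(0)` is a point over the origin and the
image of `σ` is contained in the part of `Z` over a smaller ball `Ball r`, `r < 1`. The surface `S` is the quotient of
`U = {z ∈ Z : proj z ∈ Ball 1, z ≠ σ(0)}` by the equivalence relation generated by `z ∼ σ(proj z)`: there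
is a locally biholomorphic map `q` from `U` onto `S` such that `q z = q w` if and only if one of the
points `z`, `w` is mapped to the other by an iterate of `z ↦ σ(proj z)`.

In other words, `S` is obtained from the part of `Z` over the unit ball by the removal of the image of
the ball under `σ` and the identification of the two boundary components through `σ ∘ proj`. -/
def IsKatoSurface (S : Type) [TopologicalSpace S] [ChartedSpace V S] : Prop :=
  ∃ (n : ℕ) (Z : SurfaceOver) (σ : V → Z.X) (q : Z.X → S) (r : ℝ),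
    1 ≤ n ∧ IsTower n Z ∧
    (∀ x ∈ Ball 1, IsLocalDiffeomorphAt 𝓘(ℂ, V) 𝓘(ℂ, V) ω σ x) ∧ InjOn σ (Ball 1) ∧
    0 < r ∧ r < 1 ∧ (∀ x ∈ Ball 1, Z.proj (σ x) ∈ Ball r) ∧ Z.proj (σ 0) = 0 ∧
    (∀ z, Z.proj z ∈ Ball 1 → z ≠ σ 0 → IsLocalDiffeomorphAt 𝓘(ℂ, V) 𝓘(ℂ, V) ω q z) ∧
    (∀ s, ∃ z, Z.proj z ∈ Ball 1 ∧ z ≠ σ 0 ∧ q z = s) ∧
    ∀ z w, Z.proj z ∈ Ball 1 → z ≠ σ 0 → Z.proj w ∈ Ball 1 → w ≠ σ 0 →
      (q z = q w ↔ ∃ k : ℕ, (fun z => σ (Z.proj z))^[k] z = w ∨ (fun z => σ (Z.proj z))^[k] w = z)

/-- the value of the polynomial `P` at the point `x` of `ℂ²` -/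
noncomputable def ev (P : MvPolynomial (Fin 2) ℂ) (x : V) : ℂ := eval ![x.1, x.2] P

/-- The point `y` is the image of the point `x` under the rational map `(A₁ / A₀, A₂ / A₀)`, if
`A₀(x) ≠ 0`. -/
def Fwd (A : Fin 3 → MvPolynomial (Fin 2) ℂ) (x y : V) : Prop :=
  ev (A 0) x * y.1 = ev (A 1) x ∧ ev (A 0) x * y.2 = ev (A 2) x

/-- The map `f` is on the set `U` the restriction of a birational map of the plane: there are
rational maps `A = (A₁ / A₀, A₂ / A₀)` and `B = (B₁ / B₀, B₂ / B₀)` of the plane to itself, such that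
`f(x) = A(x)` and `x = B(f(x))` for all `x ∈ U` (where the denominators do not vanish). If `f` is a
homeomorphism from a nonempty open set `U` to an open set then this means that `A` is birational, with
inverse `B`, and that `f` is its restriction to `U`. -/
def IsBirationalOn (f : V → V) (U : Set V) : Prop :=
  ∃ A B : Fin 3 → MvPolynomial (Fin 2) ℂ, A 0 ≠ 0 ∧ B 0 ≠ 0 ∧
    ∀ x ∈ U, Fwd A x (f x) ∧ Fwd B (f x) x

/-- The complex surface `S` has a birational structure: an atlas of holomorphic charts with values in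
`ℂ² ⊂ ℙ²` such that every change of charts is the restriction of a birational self-map of `ℙ²`. -/
def HasBirationalStructure (S : Type) [TopologicalSpace S] [ChartedSpace V S] : Prop :=
  ∃ A : Set (OpenPartialHomeomorph S V), (∀ c ∈ A, IsChart c) ∧ (∀ s, ∃ c ∈ A, s ∈ c.source) ∧
    ∀ c ∈ A, ∀ c' ∈ A, IsBirationalOn (c' ∘ c.symm) (c '' (c.source ∩ c'.source))

end Pool.Agent.U157.Kato
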