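import Pool.Agent.U157.Kato.Tail

/-!
The normal form in the case of a nonzero multiplier.
-/

set_option autoImplicit false

open Filter Topology Set MvPolynomial

namespace Pool.Agent.U157.Kato

/-- the Jacobian determinant -/
noncomputable def jac (g : V → V) (x : V) : ℂ :=
  (fderiv ℂ g x (1, 0)).1 * (fderiv ℂ g x (0, 1)).2 -
    (fderiv ℂ g x (1, 0)).2 * (fderiv ℂ g x (0, 1)).1

theorem jac_comp {g f : V → V} {x : V} (hg : DifferentiableAt ℂ g (f x))
    (hf : DifferentiableAt ℂ f x) : jac (fun y => g (f y)) x = jac g (f x) * jac f x := by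
  have h1 : fderiv ℂ (fun y => g (f y)) x = (fderiv ℂ g (f x)).comp (fderiv ℂ f x) :=
    fderiv_comp x hg hf
  simp only [jac, h1, ContinuousLinearMap.comp_apply]
  rw [clm_decomp (fderiv ℂ g (f x)) (fderiv ℂ f x (1, 0)),
    clm_decomp (fderiv ℂ g (f x)) (fderiv ℂ f x (0, 1))]
  simp only [Prod.fst_add, Prod.snd_add, Prod.smul_fst, Prod.smul_snd, smul_eq_mul]
  ring

theorem jac_an {g : V → V} {x : V} (hg : AnalyticAt ℂ g x) : AnalyticAt ℂ (jac g) x := by
  have h1 : AnalyticAt ℂ (fun y => fderiv ℂ g y (1, 0)) x := an_clm hg.fderiv analyticAt_const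
  have h2 : AnalyticAt ℂ (fun y => fderiv ℂ g y (0, 1)) x := an_clm hg.fderiv analyticAt_const
  exact ((analyticAt_fst.comp h1).mul (analyticAt_snd.comp h2)).sub
    ((analyticAt_snd.comp h1).mul (analyticAt_fst.comp h2))

theorem jac_ne {g : V → V} {x : V} (hg : Loc g x) : jac g x ≠ 0 := det_ne hg.2 0

/-- the data of a pure chart -/
theorem Pure.data {ψ : V → V} (h : Pure ψ) : ∃ (m : ℕ) (ε : ℂ) (D : V → V), 1 ≤ m ∧ ε ≠ 0 ∧
    (∀ w, AnalyticAt ℂ D w) ∧ (∀ w, ψ w = w.1 • D w) ∧ (∀ w, AnalyticAt ℂ ψ w) ∧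
    Dir ψ (D 0) ∧ ∀ w, jac ψ w = ε * w.1 ^ m := by
  obtain ⟨m, P, hm, hP, h⟩ := h
  obtain ⟨Q, hQ⟩ : Polynomial.X ∣ P := by
    rw [Polynomial.X_dvd_iff, Polynomial.coeff_zero_eq_eval_zero, hP]
  have hQa : ∀ w : V, AnalyticAt ℂ (fun w : V => Q.eval w.1) w := by
    intro w
    have : (fun w : V => Q.eval w.1) = ev (Polynomial.aeval (X 0) Q) :=
      funext fun w => (ev_aeval Q w).symm
    rw [this]
    exact an_ev _ _
  have hga : ∀ w : V, AnalyticAt ℂ (fun w : V => w.1 ^ (m - 1) * w.2 + Q.eval w.1) w :=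
    fun w => ((analyticAt_fst.pow (m - 1)).mul analyticAt_snd).add (hQa w)
  have hform : ∀ w : V, w.1 ^ m * w.2 + P.eval w.1 =
      w.1 * (w.1 ^ (m - 1) * w.2 + Q.eval w.1) := by
    intro w
    obtain ⟨k, rfl⟩ : ∃ k, m = k + 1 := ⟨m - 1, by omega⟩
    rw [hQ, Polynomial.eval_mul, Polynomial.eval_X, Nat.add_sub_cancel, pow_succ]
    ring
  -- estimates
  have hDir : ∀ D : V → V, AnalyticAt ℂ D 0 → (∀ w, ψ w = w.1 • D w) → D 0 ≠ 0 → Dir ψ (D 0) := by
    intro D hD hψD hne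
    refine ⟨hne, ?_⟩
    have h1 : (fun w => D w - D 0) =O[𝓝 0] fun w : V => w - 0 := hD.differentiableAt.isBigO_sub
    obtain ⟨C, hC, hC1⟩ := h1.exists_nonneg
    rw [Asymptotics.isBigOWith_iff] at hC1
    refine ⟨C, hC, ?_⟩
    filter_upwards [hC1] with w hw
    rw [hψD, ← smul_sub, norm_smul]
    rw [sub_zero] at hw
    calc ‖w.1‖ * ‖D w - D 0‖ ≤ ‖w.1‖ * (C * ‖w‖) := by gcongr
      _ = _ := by ring
  have hpow : ∀ w : V, HasDerivAt (fun τ : ℂ => w.1 ^ m * (w.2 + τ * 1) + P.eval w.1)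
      (w.1 ^ m) 0 := by
    intro w
    have h1 := (hd_lin w.2 1).const_mul (w.1 ^ m)
    rw [mul_one] at h1
    exact h1.add_const _
  rcases h with h | h
  · have hψD : ∀ w : V, ψ w = w.1 • ((1, w.1 ^ (m - 1) * w.2 + Q.eval w.1) : V) := by
      intro w
      rw [h, hform]
      ext <;> simp
    have hψa : ∀ w, AnalyticAt ℂ ψ w := by
      intro w
      have : ψ = fun w : V => w.1 • ((1, w.1 ^ (m - 1) * w.2 + Q.eval w.1) : V) := funext hψD
      rw [this]
      exact analyticAt_fst.smul (analyticAt_const.prod (hga w))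
    refine ⟨m, 1, fun w => (1, w.1 ^ (m - 1) * w.2 + Q.eval w.1), hm, one_ne_zero,
      fun w => analyticAt_const.prod (hga w), hψD, hψa,
      hDir _ (analyticAt_const.prod (hga 0)) hψD ?_, ?_⟩
    · intro h0
      simpa using congrArg Prod.fst h0
    · intro w
      have h1 := line_deriv' (hψa w).differentiableAt (1, 0)
      have h2 := line_deriv' (hψa w).differentiableAt (0, 1)
      have h3 : (fderiv ℂ ψ w (1, 0)).1 = 1 := by
        refine (hd_fst h1).unique ?_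
        have : (fun τ : ℂ => (ψ (w + τ • ((1, 0) : V))).1) = fun τ => w.1 + τ * 1 := by
          funext τ
          rw [h]
          simp
        rw [this]
        exact hd_lin _ _
      have h4 : (fderiv ℂ ψ w (0, 1)).1 = 0 := by
        refine (hd_fst h2).unique ?_
        have : (fun τ : ℂ => (ψ (w + τ • ((0, 1) : V))).1) = fun τ => w.1 := by
          funext τ
          rw [h]
          simp
        rw [this]
        exact hasDerivAt_const _ _
      have h5 : (fderiv ℂ ψ w (0, 1)).2 = w.1 ^ m := by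
        refine (hd_snd h2).unique ?_
        have : (fun τ : ℂ => (ψ (w + τ • ((0, 1) : V))).2) =
            fun τ : ℂ => w.1 ^ m * (w.2 + τ * 1) + P.eval w.1 := by
          funext τ
          rw [h]
          simp
        rw [this]
        exact hpow w
      rw [jac, h3, h4, h5]
      ring
  · have hψD : ∀ w : V, ψ w = w.1 • ((w.1 ^ (m - 1) * w.2 + Q.eval w.1, 1) : V) := by
      intro w
      rw [h, hform]
      ext <;> simp
    have hψa : ∀ w, AnalyticAt ℂ ψ w := by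
      intro w
      have : ψ = fun w : V => w.1 • ((w.1 ^ (m - 1) * w.2 + Q.eval w.1, 1) : V) := funext hψD
      rw [this]
      exact analyticAt_fst.smul ((hga w).prod analyticAt_const)
    refine ⟨m, -1, fun w => (w.1 ^ (m - 1) * w.2 + Q.eval w.1, 1), hm, by norm_num,
      fun w => (hga w).prod analyticAt_const, hψD, hψa,
      hDir _ ((hga 0).prod analyticAt_const) hψD ?_, ?_⟩
    · intro h0
      simpa using congrArg Prod.snd h0
    · intro w
      have h1 := line_deriv' (hψa w).differentiableAt (1, 0)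
      have h2 := line_deriv' (hψa w).differentiableAt (0, 1)
      have h3 : (fderiv ℂ ψ w (1, 0)).2 = 1 := by
        refine (hd_snd h1).unique ?_
        have : (fun τ : ℂ => (ψ (w + τ • ((1, 0) : V))).2) = fun τ => w.1 + τ * 1 := by
          funext τ
          rw [h]
          simp
        rw [this]
        exact hd_lin _ _
      have h4 : (fderiv ℂ ψ w (0, 1)).2 = 0 := by
        refine (hd_snd h2).unique ?_
        have : (fun τ : ℂ => (ψ (w + τ • ((0, 1) : V))).2) = fun τ => w.1 := by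
          funext τ
          rw [h]
          simp
        rw [this]
        exact hasDerivAt_const _ _
      have h5 : (fderiv ℂ ψ w (0, 1)).1 = w.1 ^ m := by
        refine (hd_fst h2).unique ?_
        have : (fun τ : ℂ => (ψ (w + τ • ((0, 1) : V))).1) =
            fun τ : ℂ => w.1 ^ m * (w.2 + τ * 1) + P.eval w.1 := by
          funext τ
          rw [h]
          simp
        rw [this]
        exact hpow w
      rw [jac, h3, h4, h5]
      ring

/-- the model germs -/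
theorem bir_model {t κ : ℂ} (ht : t ≠ 0) (hκ : κ ≠ 0) (m : ℕ) (Q : Polynomial ℂ) :
    Bir (fun y : V => (t * y.1, κ * y.1 ^ m * y.2 + Q.eval y.1)) := by
  refine ⟨univ, isOpen_univ, mem_univ _, ?_, ?_⟩
  · set z : MvPolynomial (Fin 2) ℂ := C t⁻¹ * X 0 with hz
    have hzev : ∀ y : V, ev z y = t⁻¹ * y.1 := fun y => by rw [hz, ev_mul, ev_C, ev_X0]
    have hQev : ∀ y : V, ev (Polynomial.aeval z Q) y = Q.eval (t⁻¹ * y.1) := by
      intro y
      induction Q using Polynomial.induction_on' with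
      | add p q hp hq => rw [map_add, ev_add, hp, hq, Polynomial.eval_add]
      | monomial n a =>
        rw [Polynomial.aeval_monomial, ev_mul, ev_pow, hzev, Polynomial.eval_monomial]
        congr 1
        simp [ev]
    refine ⟨![C κ * z ^ m, C κ * z ^ m * z, X 1 - Polynomial.aeval z Q], ?_, fun y _ => ⟨?_, ?_⟩⟩
    · have h1 : z ≠ 0 := mul_ne_zero (by simpa using ht) (X_ne_zero 0)
      exact mul_ne_zero (by simpa using hκ) (pow_ne_zero _ h1)
    · change ev (C κ * z ^ m) (t * y.1, κ * y.1 ^ m * y.2 + Q.eval y.1) * y.1 =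
        ev (C κ * z ^ m * z) (t * y.1, κ * y.1 ^ m * y.2 + Q.eval y.1)
      rw [ev_mul, ev_mul, ev_mul, ev_pow, ev_C, hzev]
      simp only [inv_mul_cancel_left₀ ht]
    · change ev (C κ * z ^ m) (t * y.1, κ * y.1 ^ m * y.2 + Q.eval y.1) * y.2 =
        ev (X 1 - Polynomial.aeval z Q) (t * y.1, κ * y.1 ^ m * y.2 + Q.eval y.1)
      rw [ev_mul, ev_sub, ev_pow, ev_C, ev_X1, hzev, hQev]
      simp only [inv_mul_cancel_left₀ ht]
      ring
  · refine ⟨![1, C t * X 0, C κ * X 0 ^ m * X 1 + Polynomial.aeval (X 0) Q], one_ne_zero,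
      fun y _ => ⟨?_, ?_⟩⟩
    · change ev 1 y * (t * y.1) = ev (C t * X 0) y
      rw [ev_one, ev_mul, ev_C, ev_X0, one_mul]
    · change ev 1 y * (κ * y.1 ^ m * y.2 + Q.eval y.1) =
        ev (C κ * X 0 ^ m * X 1 + Polynomial.aeval (X 0) Q) y
      rw [ev_one, ev_add, ev_mul, ev_mul, ev_pow, ev_C, ev_X0, ev_X1, ev_aeval, one_mul]

theorem enoki_core {G : V → V} (hG : AnalyticAt ℂ G 0) {t : ℂ} (ht0 : t ≠ 0) (ht1 : ‖t‖ < 1)
    {m : ℕ} {J : V → ℂ} (hJ : AnalyticAt ℂ J 0) (hJ0 : J 0 ≠ 0) {C : ℝ} (hC : 0 ≤ C)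
    (h1 : ∀ᶠ x in 𝓝 (0 : V), (G x).1 = t * x.1)
    (h2 : ∀ᶠ x in 𝓝 (0 : V), ‖(G x).2‖ ≤ C * ‖x.1‖)
    (h3 : ∀ᶠ x in 𝓝 (0 : V), jac G x = x.1 ^ m * J x) :
    ∃ ξ F' : V → V, Loc ξ 0 ∧ ξ 0 = 0 ∧ Bir F' ∧ ∀ᶠ x in 𝓝 0, ξ (G x) = F' (ξ x) := by
  have hG0 : G 0 = 0 := by
    have e1 := h1.self_of_nhds
    have e2 := h2.self_of_nhds
    rw [Prod.fst_zero, mul_zero] at e1
    rw [Prod.fst_zero, norm_zero, mul_zero] at e2
    exact Prod.ext e1 (norm_le_zero_iff.1 e2)
  have hGt := tendsto_of_zero hG hG0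
  have ht0' : 0 < ‖t‖ := norm_pos_iff.2 ht0
  have hcon : ∀ᶠ x : V in 𝓝 0, ‖(G x).1‖ ≤ ‖t‖ * ‖x.1‖ ∧ ‖(G x).2‖ ≤ C * ‖x.1‖ := by
    filter_upwards [h1, h2] with x e1 e2
    exact ⟨by rw [e1, norm_mul], e2⟩
  obtain ⟨w, hw, hw0, hwx⟩ := exists_prod hG hG0 ht0' ht1 hC hcon (e := fun x => J x / J 0)
    (hJ.div analyticAt_const hJ0) (div_self hJ0)
  obtain ⟨A, hA, hA0, hAx⟩ := exists_primitive hw
  set κ := J 0 / t with hκ
  have hκ0 : κ ≠ 0 := div_ne_zero hJ0 ht0
  set C₁ : V → ℂ := fun x => A (G x) - κ * x.1 ^ m * A x with hC₁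
  have hAG : AnalyticAt ℂ (fun x => A (G x)) 0 := AnalyticAt.fun_comp (by rw [hG0]; exact hA) hG
  have hC₁a : AnalyticAt ℂ C₁ 0 :=
    hAG.sub ((analyticAt_const.mul (analyticAt_fst.pow m)).mul hA)
  -- the derivative in the second direction vanishes
  have hder : ∀ᶠ x in 𝓝 (0 : V), DifferentiableAt ℂ C₁ x ∧ fderiv ℂ C₁ x (0, 1) = 0 := by
    filter_upwards [h1.eventually_nhds, h3, hG.eventually_analyticAt, hA.eventually_analyticAt,
      hGt.eventually hA.eventually_analyticAt, hC₁a.eventually_analyticAt, hwx, hAx,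
      hGt.eventually hAx] with x e1 e3 e4 e5 e6 e7 e8 e9 e10
    refine ⟨e7.differentiableAt, ?_⟩
    have d1 : ∀ v : V, (fderiv ℂ G x v).1 = t * v.1 := by
      intro v
      have a1 := hd_fst (line_deriv' e4.differentiableAt v)
      have a2 : (fun τ : ℂ => (G (x + τ • v)).1) =ᶠ[𝓝 0] fun τ => t * (x.1 + τ * v.1) := by
        have a3 : Tendsto (fun τ : ℂ => x + τ • v) (𝓝 0) (𝓝 x) := by
          have : Continuous (fun τ : ℂ => x + τ • v) := by fun_prop
          have := this.tendsto 0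
          simpa using this
        filter_upwards [a3.eventually e1] with τ hτ
        rw [hτ]
        simp
      have a4 : HasDerivAt (fun τ : ℂ => t * (x.1 + τ * v.1)) (t * v.1) 0 :=
        (hd_lin x.1 v.1).const_mul t
      exact a1.unique (a4.congr_of_eventuallyEq a2)
    have d2 : (fderiv ℂ G x (1, 0)).1 = t := by rw [d1]; simp
    have d3 : (fderiv ℂ G x (0, 1)).1 = 0 := by rw [d1]; simp
    set s := (fderiv ℂ G x (0, 1)).2 with hs
    have d4 : t * s = x.1 ^ m * J x := by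
      rw [← e3, jac, d2, d3]
      ring
    have d5 : fderiv ℂ G x (0, 1) = s • ((0, 1) : V) := by
      refine Prod.ext ?_ ?_
      · simp [d3]
      · simp [hs]
    have b1 : HasDerivAt (fun τ : ℂ => A (G (x + τ • ((0, 1) : V)))) (s * w (G x)) 0 := by
      have b2 : HasFDerivAt (fun y => A (G y)) ((fderiv ℂ A (G x)).comp (fderiv ℂ G x)) x :=
        e6.differentiableAt.hasFDerivAt.comp x e4.differentiableAt.hasFDerivAt
      have b3 := line_deriv' (f := fun y => A (G y)) b2.differentiableAt ((0, 1) : V)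
      rw [b2.fderiv, ContinuousLinearMap.comp_apply, d5, map_smul, e10, smul_eq_mul] at b3
      exact b3
    have b4 : HasDerivAt (fun τ : ℂ => κ * x.1 ^ m * A (x + τ • ((0, 1) : V)))
        (κ * x.1 ^ m * w x) 0 := by
      have b5 := (line_deriv' e5.differentiableAt ((0, 1) : V)).const_mul (κ * x.1 ^ m)
      rw [e9] at b5
      exact b5
    have b6 := b1.sub b4
    have b7 := line_deriv' e7.differentiableAt ((0, 1) : V)
    have b8 : (fun τ : ℂ => C₁ (x + τ • ((0, 1) : V))) = (fun τ : ℂ => A (G (x + τ • ((0, 1) : V))))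
        - fun τ : ℂ => κ * x.1 ^ m * A (x + τ • ((0, 1) : V)) := by
      funext τ
      simp [hC₁]
    rw [b8] at b7
    rw [b7.unique b6, e8]
    have b9 : s = x.1 ^ m * J x / t := by
      rw [eq_div_iff ht0, ← d4]
      ring
    rw [b9, hκ]
    field_simp
    ring
  obtain ⟨r, hr, hb⟩ := Metric.eventually_nhds_iff_ball.1 hder
  have hconst : ∀ x : V, ‖x‖ < r → C₁ x = C₁ (x.1, 0) := by
    intro x hx
    have hx1 : ‖x.1‖ < r := (norm_fst_le x).trans_lt hx
    have hx2 : ‖x.2‖ < r := (norm_snd_le x).trans_lt hx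
    have hmem : ∀ z ∈ Metric.ball (0 : ℂ) r, ((x.1, z) : V) ∈ Metric.ball (0 : V) r := by
      intro z hz
      rw [mem_ball_zero_iff] at hz ⊢
      exact max_lt hx1 hz
    have hd : ∀ z ∈ Metric.ball (0 : ℂ) r, HasDerivAt (fun z : ℂ => C₁ (x.1, z)) 0 z := by
      intro z hz
      obtain ⟨g1, g2⟩ := hb _ (hmem z hz)
      have g3 : HasDerivAt (fun z : ℂ => ((x.1, z) : V)) ((0, 1) : V) z :=
        (hasDerivAt_const z x.1).prodMk (hasDerivAt_id z)
      have g4 := g1.hasFDerivAt.comp_hasDerivAt z g3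
      rw [g2] at g4
      exact g4
    have := Metric.isOpen_ball.is_const_of_deriv_eq_zero
      (convex_ball (0 : ℂ) r).isPreconnected
      (fun z hz => (hd z hz).differentiableAt.differentiableWithinAt)
      (fun z hz => (hd z hz).deriv) (x := x.2) (y := 0) (by simpa using hx2) (by simpa using hr)
    exact this
  set β : ℂ → ℂ := fun z => C₁ (z, 0) with hβ
  have hβa : AnalyticAt ℂ β 0 := by
    have h4 : AnalyticAt ℂ (fun z : ℂ => ((z, 0) : V)) 0 := analyticAt_id.prod analyticAt_const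
    exact AnalyticAt.fun_comp (g := C₁) (f := fun z : ℂ => ((z, 0) : V)) hC₁a h4
  obtain ⟨b, Q, hb1, hb0, hbQ⟩ := exists_tail hβa ht1 hκ0 m
  have hbf : AnalyticAt ℂ (fun x : V => b x.1) 0 :=
    AnalyticAt.fun_comp (g := b) (f := fun x : V => x.1) hb1 analyticAt_fst
  set ξ : V → V := fun x => (x.1, A x - b x.1) with hξ
  have hξa : AnalyticAt ℂ ξ 0 := analyticAt_fst.prod (hA.sub hbf)
  have hw00 : fderiv ℂ A 0 (0, 1) = 1 := by
    have := hAx.self_of_nhds
    rw [this, hw0]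
  have hξl : Loc ξ 0 := by
    refine ⟨hξa, ?_⟩
    rw [injective_iff_map_eq_zero]
    rintro ⟨a, c⟩ hac
    have g1 := line_deriv hξa.differentiableAt (a, c)
    have g2 := hd_fst g1
    have g3 : HasDerivAt (fun τ : ℂ => (ξ (τ • ((a, c) : V))).1) a 0 := by
      have : (fun τ : ℂ => (ξ (τ • ((a, c) : V))).1) = fun τ => 0 + τ * a := by
        funext τ
        simp [hξ]
      rw [this]
      exact hd_lin 0 a
    have g4 := g2.unique g3
    rw [hac] at g4
    have ha : a = 0 := g4.symm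
    subst ha
    have g5 : HasDerivAt (fun τ : ℂ => (ξ (τ • ((0, c) : V))).2) (fderiv ℂ A 0 (0, c)) 0 := by
      have : (fun τ : ℂ => (ξ (τ • ((0, c) : V))).2) = fun τ : ℂ => A (τ • ((0, c) : V)) - b 0 := by
        funext τ
        simp [hξ]
      rw [this]
      exact (line_deriv hA.differentiableAt (0, c)).sub_const _
    have g6 := (hd_snd g1).unique g5
    have g7 : ((0, c) : V) = c • ((0, 1) : V) := by ext <;> simp
    rw [hac, g7, map_smul, hw00, smul_eq_mul, mul_one] at g6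
    have hc : c = 0 := g6.symm
    rw [hc]
    rfl
  refine ⟨ξ, fun y => (t * y.1, κ * y.1 ^ m * y.2 + Q.eval y.1), hξl, ?_, bir_model ht0 hκ0 m Q, ?_⟩
  · simp only [hξ, hA0, hb0, Prod.fst_zero, sub_zero]
    rfl
  · have hball : ∀ᶠ x in 𝓝 (0 : V), ‖x‖ < r := by
      filter_upwards [Metric.ball_mem_nhds (0 : V) hr] with x hx
      simpa using hx
    have hft : Tendsto (fun x : V => x.1) (𝓝 0) (𝓝 0) := continuous_fst.tendsto (0 : V)
    filter_upwards [h1, hball, hft.eventually hbQ] with x e1 e2 e3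
    have e4 := hconst x e2
    have e5 : A (G x) = κ * x.1 ^ m * A x + β x.1 := by
      have : A (G x) - κ * x.1 ^ m * A x = β x.1 := e4
      rw [← this]
      ring
    simp only [hξ, e1, e5]
    refine Prod.ext rfl ?_
    simp only
    rw [← e3]
    ring

theorem normal_enoki {F s ψ : V → V} (hs : Loc s 0) (hs0 : s 0 = 0) (hψ0 : ψ 0 = 0)
    (hpure : Pure ψ) (hF : ∀ᶠ x in 𝓝 0, F x = ψ (s x))
    (hmult : ∀ d, Dir ψ d → mult s d ≠ 0 ∧ ‖mult s d‖ < 1) :
    ∃ ξ F' : V → V, Loc ξ 0 ∧ ξ 0 = 0 ∧ Bir F' ∧ ∀ᶠ x in 𝓝 0, ξ (F x) = F' (ξ x) := by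
  obtain ⟨m, ε, D, hm, hε, hD, hψD, hψ, hDir, hjac⟩ := hpure.data
  obtain ⟨ht0, ht1⟩ := hmult _ hDir
  set t := mult s (D 0) with ht
  obtain ⟨L, hL, hL0, hLs⟩ := hadamard hs.1 hs0
  have hψt := tendsto_of_zero (hψ 0) hψ0
  have hst := tendsto_of_zero hs.1 hs0
  set G₀ : V → V := fun w => s (ψ w) with hG₀
  have hG₀a : AnalyticAt ℂ G₀ 0 := AnalyticAt.fun_comp (by rw [hψ0]; exact hs.1) (hψ 0)
  have hG₀0 : G₀ 0 = 0 := by simp only [hG₀, hψ0, hs0]
  have hG₀t := tendsto_of_zero hG₀a hG₀0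
  set θ : V → ℂ := fun w => (L (ψ w) (D w)).1 with hθ
  have hθa : AnalyticAt ℂ θ 0 := by
    have h1 : AnalyticAt ℂ (fun w => L (ψ w)) 0 :=
      AnalyticAt.fun_comp (by rw [hψ0]; exact hL) (hψ 0)
    exact analyticAt_fst.comp (an_clm h1 (hD 0))
  have hθ0 : θ 0 = t := by
    simp only [hθ, hψ0, hL0, ht, mult]
  have hG₀1 : ∀ᶠ w in 𝓝 (0 : V), (G₀ w).1 = w.1 * θ w := by
    filter_upwards [hψt.eventually hLs] with w hw
    have h1 : G₀ w = w.1 • L (ψ w) (D w) := by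
      simp only [hG₀]
      rw [hw, ← map_smul, ← hψD]
    rw [h1]
    rfl
  obtain ⟨C₁, hC₁, hψC⟩ := pure_upper hpure
  obtain ⟨C₂, hC₂, hsC⟩ := eventually_norm_le hs.1 hs0
  have hG₀2 : ∀ᶠ w in 𝓝 (0 : V), ‖(G₀ w).2‖ ≤ (C₂ * C₁) * ‖w.1‖ := by
    filter_upwards [hψC, hψt.eventually hsC] with w h1 h2
    refine (norm_snd_le _).trans (h2.trans ?_)
    rw [mul_assoc]
    exact mul_le_mul_of_nonneg_left h1 hC₂
  set ρ := (‖t‖ + 1) / 2 with hρ
  have hρ0 : 0 < ρ := by positivity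
  have hρ1 : ρ < 1 := by rw [hρ]; linarith
  have hcon : ∀ᶠ x : V in 𝓝 0, ‖(G₀ x).1‖ ≤ ρ * ‖x.1‖ ∧ ‖(G₀ x).2‖ ≤ (C₂ * C₁) * ‖x.1‖ := by
    have h1 : ∀ᶠ w in 𝓝 (0 : V), ‖θ w‖ < ρ := by
      refine hθa.continuousAt.norm.eventually_lt_const ?_
      simp only [hθ0, hρ]
      linarith
    filter_upwards [hG₀1, hG₀2, h1] with x e1 e2 e3
    refine ⟨?_, e2⟩
    rw [e1, norm_mul, mul_comm]
    exact mul_le_mul_of_nonneg_right e3.le (norm_nonneg _)
  obtain ⟨W₁, hW₁, hW₁0, hW₁x⟩ := exists_prod hG₀a hG₀0 hρ0 hρ1 (by positivity) hcon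
    (e := fun x => θ x / t) (hθa.div analyticAt_const ht0) (by
      simp only [hθ0]
      exact div_self ht0)
  -- the coordinates
  set κ : V → V := fun w => (w.1 * W₁ w, w.2) with hκ
  have hκa : AnalyticAt ℂ κ 0 := (analyticAt_fst.mul hW₁).prod analyticAt_snd
  have hκ0 : κ 0 = 0 := by
    simp only [hκ, Prod.fst_zero, Prod.snd_zero, zero_mul]
    rfl
  have hκl : Loc κ 0 := by
    refine ⟨hκa, ?_⟩
    rw [injective_iff_map_eq_zero]
    rintro ⟨a, c⟩ hac
    have g1 := line_deriv hκa.differentiableAt (a, c)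
    have g3 : HasDerivAt (fun τ : ℂ => (κ (τ • ((a, c) : V))).2) c 0 := by
      have : (fun τ : ℂ => (κ (τ • ((a, c) : V))).2) = fun τ => 0 + τ * c := by
        funext τ
        simp [hκ]
      rw [this]
      exact hd_lin 0 c
    have g4 := (hd_snd g1).unique g3
    have g5 : HasDerivAt (fun τ : ℂ => (κ (τ • ((a, c) : V))).1)
        (a * W₁ ((0 : ℂ) • ((a, c) : V)) + (0 + 0 * a) * fderiv ℂ W₁ 0 (a, c)) 0 := by
      have g6 := hd_mul (hd_lin 0 a) (line_deriv hW₁.differentiableAt (a, c))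
      have : (fun τ : ℂ => (κ (τ • ((a, c) : V))).1) =
          fun τ : ℂ => (0 + τ * a) * W₁ (τ • ((a, c) : V)) := by
        funext τ
        simp [hκ]
      rw [this]
      exact g6
    have g6 := (hd_fst g1).unique g5
    rw [hac, zero_smul, hW₁0] at g6
    rw [hac] at g4
    have hc : c = 0 := g4.symm
    have ha : a = 0 := by
      rw [Prod.fst_zero] at g6
      linear_combination -g6
    rw [ha, hc]
    rfl
  obtain ⟨ι, hι, hι0, hιl, hιr⟩ := hκl.exists_inv
  rw [hκ0] at hι hι0 hιr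
  have hιt := tendsto_of_zero hι.1 hι0
  have hκt := tendsto_of_zero hκa hκ0
  set G : V → V := fun x => κ (G₀ (ι x)) with hG
  have hGι : AnalyticAt ℂ (fun x => G₀ (ι x)) 0 :=
    AnalyticAt.fun_comp (by rw [hι0]; exact hG₀a) hι.1
  have hGι0 : G₀ (ι 0) = 0 := by rw [hι0, hG₀0]
  have hGιt : Tendsto (fun x => G₀ (ι x)) (𝓝 0) (𝓝 0) := hG₀t.comp hιt
  have hGa : AnalyticAt ℂ G 0 := AnalyticAt.fun_comp (g := κ) (f := fun x => G₀ (ι x))
    (by rw [hGι0]; exact hκa) hGι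
  have hG1 : ∀ᶠ x in 𝓝 (0 : V), (G x).1 = t * x.1 := by
    filter_upwards [hιt.eventually hG₀1, hιt.eventually hW₁x, hιr] with x e1 e2 e3
    have e4 : x.1 = (ι x).1 * W₁ (ι x) := by
      conv_lhs => rw [← e3]
    simp only [hG, hκ]
    rw [e1, e4, e2]
    field_simp
  have hW₁h : ∀ᶠ w in 𝓝 (0 : V), 1 / 2 < ‖W₁ w‖ := by
    refine hW₁.continuousAt.norm.eventually_const_lt ?_
    simp only [hW₁0, norm_one]
    norm_num
  have hG2 : ∀ᶠ x in 𝓝 (0 : V), ‖(G x).2‖ ≤ (2 * (C₂ * C₁)) * ‖x.1‖ := by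
    filter_upwards [hιt.eventually hG₀2, hιt.eventually hW₁h, hιr] with x e1 e2 e3
    have e4 : x.1 = (ι x).1 * W₁ (ι x) := by
      conv_lhs => rw [← e3]
    have e5 : ‖(ι x).1‖ ≤ 2 * ‖x.1‖ := by
      rw [e4, norm_mul]
      nlinarith [norm_nonneg (ι x).1]
    calc ‖(G x).2‖ = ‖(G₀ (ι x)).2‖ := rfl
      _ ≤ (C₂ * C₁) * ‖(ι x).1‖ := e1
      _ ≤ (C₂ * C₁) * (2 * ‖x.1‖) := by gcongr
      _ = _ := by ring
  set J : V → ℂ := fun x => jac κ (G₀ (ι x)) * (jac s (ψ (ι x)) * (ε / W₁ (ι x) ^ m)) * jac ι x with hJ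
  have hψι : AnalyticAt ℂ (fun x => ψ (ι x)) 0 := AnalyticAt.fun_comp (hψ _) hι.1
  have hψι0 : ψ (ι 0) = 0 := by rw [hι0, hψ0]
  have hW₁ι : AnalyticAt ℂ (fun x => W₁ (ι x)) 0 :=
    AnalyticAt.fun_comp (by rw [hι0]; exact hW₁) hι.1
  have hJa : AnalyticAt ℂ J 0 := by
    have a1 : AnalyticAt ℂ (fun x => jac κ (G₀ (ι x))) 0 :=
      AnalyticAt.fun_comp (g := jac κ) (f := fun x => G₀ (ι x))
        (by rw [hGι0]; exact jac_an hκa) hGι
    have a2 : AnalyticAt ℂ (fun x => jac s (ψ (ι x))) 0 :=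
      AnalyticAt.fun_comp (g := jac s) (f := fun x => ψ (ι x))
        (by rw [hψι0]; exact jac_an hs.1) hψι
    have a3 : AnalyticAt ℂ (fun x => ε / W₁ (ι x) ^ m) 0 :=
      analyticAt_const.div (hW₁ι.pow m) (by
        simp only [hι0, hW₁0, one_pow]
        exact one_ne_zero)
    exact (a1.mul (a2.mul a3)).mul (jac_an hι.1)
  have hJ0 : J 0 ≠ 0 := by
    simp only [hJ]
    rw [hGι0, hψι0, hι0, hW₁0, one_pow, div_one]
    exact mul_ne_zero (mul_ne_zero (jac_ne hκl) (mul_ne_zero (jac_ne hs) hε)) (jac_ne hι)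
  have hG3 : ∀ᶠ x in 𝓝 (0 : V), jac G x = x.1 ^ m * J x := by
    filter_upwards [hGιt.eventually hκa.eventually_analyticAt,
      hιt.eventually hG₀a.eventually_analyticAt, hι.1.eventually_analyticAt,
      (hψt.comp hιt).eventually hs.1.eventually_analyticAt, hιr, hιt.eventually hW₁h] with
      x e1 e2 e3 e4 e5 e6
    have e7 : x.1 = (ι x).1 * W₁ (ι x) := by
      conv_lhs => rw [← e5]
    have e8 : W₁ (ι x) ≠ 0 := by
      intro h
      rw [h, norm_zero] at e6
      linarith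
    have j1 : jac G x = jac κ (G₀ (ι x)) * jac (fun y => G₀ (ι y)) x :=
      jac_comp (g := κ) (f := fun y => G₀ (ι y)) e1.differentiableAt
        (e2.differentiableAt.comp x e3.differentiableAt)
    have j2 : jac (fun y => G₀ (ι y)) x = jac G₀ (ι x) * jac ι x :=
      jac_comp e2.differentiableAt e3.differentiableAt
    have j3 : jac G₀ (ι x) = jac s (ψ (ι x)) * jac ψ (ι x) :=
      jac_comp e4.differentiableAt (hψ _).differentiableAt
    rw [j1, j2, j3, hjac]
    simp only [hJ]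
    rw [e7, mul_pow]
    field_simp
  obtain ⟨ξ, F', hξ, hξ0, hF', hξx⟩ := enoki_core hGa ht0 ht1 hJa hJ0 (by positivity) hG1 hG2 hG3
  have hκs : Loc (fun x => κ (s x)) 0 := Loc.comp (by rw [hs0]; exact hκl) hs
  have hκs0 : κ (s 0) = 0 := by rw [hs0, hκ0]
  refine ⟨fun x => ξ (κ (s x)), F', Loc.comp (g := ξ) (f := fun x => κ (s x))
    (by rw [hκs0]; exact hξ) hκs, by simp only [hκs0, hξ0], hF', ?_⟩
  filter_upwards [hF, (hκt.comp hst).eventually hξx, hst.eventually hιl] with x e1 e2 e3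
  have e4 : κ (s (F x)) = G (κ (s x)) := by
    simp only [hG]
    rw [e3, e1]
  rw [e4]
  exact e2

end Pool.Agent.U157.Kato
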