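import Mathlib

/-!
Hadamard's lemma for analytic maps, and lifts of coordinate changes to the blow-up of the origin.
-/

set_option autoImplicit false

open Filter Topology

namespace Pool.Agent.U157.Kato

section hadamard

variable {E F : Type*} [NormedAddCommGroup E] [NormedSpace ℂ E] [NormedAddCommGroup F]
  [NormedSpace ℂ F] [CompleteSpace F]

/-- An analytic map which vanishes at the origin is linear with analytic coefficients. -/
theorem hadamard {f : E → F} (hf : AnalyticAt ℂ f 0) (h0 : f 0 = 0) :
    ∃ L : E → E →L[ℂ] F, AnalyticAt ℂ L 0 ∧ L 0 = fderiv ℂ f 0 ∧ ∀ᶠ x in 𝓝 0, f x = L x x := by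
  obtain ⟨p, r, hp⟩ := hf
  have hr : p.shift.radius = p.radius := p.radius_shift
  have hr0 : 0 < p.shift.radius := by
    rw [hr]
    exact lt_of_lt_of_le hp.r_pos hp.r_le
  have hL := p.shift.hasFPowerSeriesOnBall hr0
  refine ⟨p.shift.sum, hL.analyticAt, ?_, ?_⟩
  · ext v
    have h1 : p.shift.sum 0 = p.shift 0 0 := hL.coeff_zero _ ▸ rfl
    have h2 : fderiv ℂ f 0 = continuousMultilinearCurryFin1 ℂ E F (p 1) :=
      hp.hasFPowerSeriesAt.fderiv_eq
    rw [h1, h2]
    simp only [FormalMultilinearSeries.shift, continuousMultilinearCurryFin1_apply]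
    change p 1 _ = p 1 _
    congr 1
  · have hmem : ∀ᶠ x in 𝓝 (0 : E), x ∈ Metric.eball (0 : E) r :=
      Metric.eball_mem_nhds _ hp.r_pos
    filter_upwards [hmem] with x hx
    have h1 : HasSum (fun n => p n fun _ => x) (f x) := by
      have := hp.hasSum hx
      rwa [zero_add] at this
    have h2 : HasSum (fun n => p.shift n fun _ => x) (p.shift.sum x) := by
      have h3 : x ∈ Metric.eball (0 : E) p.shift.radius := by
        rw [hr]
        exact Metric.eball_subset_eball hp.r_le hx
      have := hL.hasSum h3
      rwa [zero_add] at this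
    have h3 : HasSum (fun n => (p.shift n fun _ => x) x) (p.shift.sum x x) :=
      h2.mapL (ContinuousLinearMap.apply ℂ F x)
    have h4 : ∀ n, (p.shift n fun _ => x) x = p (n + 1) fun _ => x := by
      intro n
      simp only [FormalMultilinearSeries.shift]
      change p (n + 1) _ = p (n + 1) _
      congr 1
      ext i
      refine Fin.lastCases ?_ (fun j => ?_) i
      · simp
      · simp
    simp only [h4] at h3
    have h5 : HasSum (fun n => p n fun _ => x) (p.shift.sum x x + ∑ i ∈ Finset.range 1, p i fun _ => x) :=
      (hasSum_nat_add_iff (f := fun n => p n fun _ => x) 1).1 h3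
    have h6 : (p 0 fun _ => x) = 0 := by
      have := hp.coeff_zero (fun _ => x)
      rw [this, h0]
    rw [Finset.sum_range_one, h6, add_zero] at h5
    exact h1.unique h5

end hadamard

end Pool.Agent.U157.Kato
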