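import Mathlib

/-!
A quantitative inverse function theorem for holomorphic maps whose derivative is bounded below at a
point.
-/

set_option autoImplicit false

open Metric Set Filter Topology
open scoped NNReal

namespace Pool.Agent.U157.Kato

variable {E : Type*} [NormedAddCommGroup E] [NormedSpace ℂ E]

/-- close to a point the map is nearly its derivative at this point -/
theorem approx_fderiv {F : E → E} {x : E} {L ρ : ℝ}
    (hd : ∀ y ∈ closedBall x ρ, DifferentiableAt ℂ F y)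
    (hL : ∀ y ∈ closedBall x ρ, ‖fderiv ℂ F y - fderiv ℂ F x‖ ≤ L * ‖y - x‖)
    (hL0 : 0 ≤ L) :
    ∀ y ∈ closedBall x ρ, ∀ z ∈ closedBall x ρ,
      ‖F y - F z - fderiv ℂ F x (y - z)‖ ≤ L * ρ * ‖y - z‖ := by
  intro y hy z hz
  refine Convex.norm_image_sub_le_of_norm_fderiv_le' (s := closedBall x ρ) (𝕜 := ℂ)
    (fun w hw => hd w hw) (fun w hw => ?_) (convex_closedBall x ρ) hz hy
  refine (hL w hw).trans ?_
  have h1 : ‖w - x‖ ≤ ρ := by
    rw [← dist_eq_norm]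
    exact hw
  exact mul_le_mul_of_nonneg_left h1 hL0

/-- lower bound for the differences of the values -/
theorem lower_bound {F : E → E} {x : E} {L ρ m : ℝ}
    (hd : ∀ y ∈ closedBall x ρ, DifferentiableAt ℂ F y)
    (hL : ∀ y ∈ closedBall x ρ, ‖fderiv ℂ F y - fderiv ℂ F x‖ ≤ L * ‖y - x‖)
    (hL0 : 0 ≤ L) (hm : ∀ v, m * ‖v‖ ≤ ‖fderiv ℂ F x v‖) (hρ : 2 * (L * ρ) ≤ m) :
    ∀ y ∈ closedBall x ρ, ∀ z ∈ closedBall x ρ, m / 2 * ‖y - z‖ ≤ ‖F y - F z‖ := by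
  intro y hy z hz
  have h1 := approx_fderiv hd hL hL0 y hy z hz
  have h2 := hm (y - z)
  have h3 : ‖fderiv ℂ F x (y - z)‖ ≤ ‖F y - F z‖ + ‖F y - F z - fderiv ℂ F x (y - z)‖ := by
    have := norm_sub_le (F y - F z) (F y - F z - fderiv ℂ F x (y - z))
    rwa [sub_sub_cancel] at this
  have h4 : L * ρ * ‖y - z‖ ≤ m / 2 * ‖y - z‖ :=
    mul_le_mul_of_nonneg_right (by linarith) (norm_nonneg _)
  nlinarith [norm_nonneg (y - z)]

/-- a linear map which is bounded below on a finite dimensional space is invertible -/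
theorem exists_equiv [FiniteDimensional ℂ E] {A : E →L[ℂ] E} {m : ℝ} (hm0 : 0 < m)
    (hm : ∀ v, m * ‖v‖ ≤ ‖A v‖) :
    ∃ e : E ≃L[ℂ] E, (e : E →L[ℂ] E) = A ∧ ‖(e.symm : E →L[ℂ] E)‖ ≤ m⁻¹ := by
  have hinj : Function.Injective (A : E →ₗ[ℂ] E) := by
    rw [injective_iff_map_eq_zero]
    intro v hv
    have h1 := hm v
    have h2 : ‖A v‖ = 0 := by
      rw [norm_eq_zero]
      exact hv
    rw [h2] at h1
    have h3 : ‖v‖ ≤ 0 := by
      by_contra h
      push Not at h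
      have := mul_pos hm0 h
      linarith
    exact norm_le_zero_iff.1 h3
  let e : E ≃L[ℂ] E := (LinearEquiv.ofInjectiveEndo (A : E →ₗ[ℂ] E) hinj).toContinuousLinearEquiv
  have he : ∀ v, e v = A v := fun v => rfl
  refine ⟨e, by ext v; exact he v, ?_⟩
  refine ContinuousLinearMap.opNorm_le_bound _ (inv_pos.2 hm0).le fun w => ?_
  have h1 := hm (e.symm w)
  rw [← he, e.apply_symm_apply] at h1
  rw [ContinuousLinearEquiv.coe_coe, inv_mul_eq_div, le_div_iff₀ hm0, mul_comm]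
  exact h1

/-- the image of a small ball contains a small ball -/
theorem exists_preimage [FiniteDimensional ℂ E] [Nontrivial E] {F : E → E} {x : E} {L ρ m : ℝ} (hρ0 : 0 ≤ ρ)
    (hd : ∀ y ∈ closedBall x ρ, DifferentiableAt ℂ F y)
    (hL : ∀ y ∈ closedBall x ρ, ‖fderiv ℂ F y - fderiv ℂ F x‖ ≤ L * ‖y - x‖)
    (hL0 : 0 ≤ L) (hm0 : 0 < m) (hm : ∀ v, m * ‖v‖ ≤ ‖fderiv ℂ F x v‖) (hρ : 2 * (L * ρ) ≤ m)
    {ε : E} (hε : ‖ε‖ ≤ m / 2 * ρ) :
    ∃ η : E, ‖η‖ ≤ ρ ∧ F (x + η) = F x + ε := by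
  have : CompleteSpace E := FiniteDimensional.complete ℂ E
  obtain ⟨e, he, hn⟩ := exists_equiv hm0 hm
  have hap : ApproximatesLinearOn F (e : E →L[ℂ] E) (closedBall x ρ)
      (⟨m / 2, by positivity⟩ : ℝ≥0) := by
    intro y hy z hz
    rw [he]
    refine (approx_fderiv hd hL hL0 y hy z hz).trans ?_
    refine mul_le_mul_of_nonneg_right ?_ (norm_nonneg _)
    change L * ρ ≤ m / 2
    linarith
  have hs := hap.surjOn_closedBall_of_nonlinearRightInverse
    e.toNonlinearRightInverse hρ0 (b := x) subset_rfl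
  have hmem : F x + ε ∈ closedBall (F x)
      ((((e.toNonlinearRightInverse).nnnorm : ℝ)⁻¹ - (⟨m / 2, by positivity⟩ : ℝ≥0)) * ρ) := by
    rw [mem_closedBall, dist_eq_norm, add_sub_cancel_left]
    refine hε.trans (mul_le_mul_of_nonneg_right ?_ hρ0)
    have h1 : (((e.toNonlinearRightInverse).nnnorm : ℝ≥0) : ℝ) = ‖(e.symm : E →L[ℂ] E)‖ := rfl
    rw [h1]
    change m / 2 ≤ ‖(e.symm : E →L[ℂ] E)‖⁻¹ - m / 2
    have h2 : m ≤ ‖(e.symm : E →L[ℂ] E)‖⁻¹ := by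
      rw [le_inv_comm₀ hm0 e.norm_symm_pos]
      exact hn
    linarith
  obtain ⟨y, hy, hyF⟩ := hs hmem
  refine ⟨y - x, ?_, ?_⟩
  · rw [← dist_eq_norm]
    exact hy
  · rw [add_sub_cancel]
    exact hyF

end Pool.Agent.U157.Kato
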