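import Pool.Agent.U157.Kato.InvEst
import Pool.Agent.Y785.MV.Osg

/-!
The iteration which conjugates a contracting germ `F` to a germ `α ∘ F`, where `α` is tangent to the
identity to high order.
-/

set_option autoImplicit false
set_option linter.unusedSectionVars false
set_option linter.unusedVariables false

open Metric Set Filter Topology
open scoped NNReal

namespace Pool.Agent.U157.Kato

open Pool.Agent.Helper417.Mer.Hartogs673

variable {E : Type*} [NormedAddCommGroup E] [NormedSpace ℂ E]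

/-- the weight -/
noncomputable def W (h : E → ℂ) (k : ℕ) (x : E) : ℝ := ‖h x‖ ^ (k + 2) * ‖x‖ ^ (k + 2)

theorem W_nonneg (h : E → ℂ) (k : ℕ) (x : E) : 0 ≤ W h k x := by
  unfold W
  positivity

/-- the quantitative assumptions of the iteration -/
structure Q (F α : E → E) (h : E → ℂ) (k : ℕ) (L C K c : ℝ) (Ω : Set E) : Prop where
  k_pos : 1 ≤ k
  op : IsOpen Ω
  mem0 : (0 : E) ∈ Ω
  L_pos : 0 < L
  C_pos : 0 < C
  K_pos : 0 < K
  c_pos : 0 < c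
  c_le : 2 * (L * c) * C ≤ 1
  F_diff : ∀ x ∈ Ω, ∀ y ∈ closedBall x c, DifferentiableAt ℂ F y
  F_lip : ∀ x ∈ Ω, ∀ y ∈ closedBall x c, ‖fderiv ℂ F y - fderiv ℂ F x‖ ≤ L * ‖y - x‖
  h_diff : ∀ x ∈ Ω, DifferentiableAt ℂ h x
  h_lip : ∀ x ∈ Ω, ∀ y ∈ Ω, ‖h y - h x‖ ≤ L * ‖y - x‖
  α_diff : ∀ x ∈ Ω, DifferentiableAt ℂ α (F x)
  maps : ∀ x ∈ Ω, α (F x) ∈ Ω
  low : ∀ x ∈ Ω, ∀ v, ‖h x‖ ^ k * ‖v‖ ≤ C * ‖fderiv ℂ F x v‖
  F_zero : ∀ x ∈ Ω, h x = 0 → F x = 0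
  α_zero : α 0 = 0
  h_zero : h 0 = 0
  small1 : ∀ x ∈ Ω, ‖h x‖ ≤ 1
  small2 : ∀ x ∈ Ω, ‖x‖ ≤ 1
  small3 : ∀ x ∈ Ω, ‖h x‖ ≤ c
  small4 : ∀ x ∈ Ω, 4 * C * K * ‖h x‖ ≤ 1
  small5 : ∀ x ∈ Ω, K * ‖h x‖ * (2 * C) ≤ c
  est : ∀ x ∈ Ω, ‖α (F x) - F x‖ + W h k (α (F x)) ≤ K * ‖h x‖ ^ (k + 1) * W h k x

variable {F α : E → E} {h : E → ℂ} {k : ℕ} {L C K c : ℝ} {Ω : Set E}

/-- the maps which are close to zero -/
def Sml (h : E → ℂ) (k : ℕ) (Ω : Set E) (δ : E → E) : Prop := ∀ x ∈ Ω, ‖δ x‖ ≤ W h k x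

/-- `η` solves the equation at the point `x` -/
def Sol (F α : E → E) (h : E → ℂ) (k : ℕ) (c : ℝ) (δ : E → E) (x η : E) : Prop :=
  ‖η‖ ≤ c * ‖h x‖ ^ k ∧ F (x + η) = α (F x) + δ (α (F x))

section

variable (q : Q F α h k L C K c Ω)

include q

theorem Q.rad_le {x : E} (hx : x ∈ Ω) : c * ‖h x‖ ^ k ≤ c := by
  have h1 : ‖h x‖ ^ k ≤ 1 := pow_le_one₀ (norm_nonneg _) (q.small1 x hx)
  nlinarith [q.c_pos]

theorem Q.rad_sub {x : E} (hx : x ∈ Ω) : closedBall x (c * ‖h x‖ ^ k) ⊆ closedBall x c :=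
  closedBall_subset_closedBall (q.rad_le hx)

theorem Q.low' {x : E} (hx : x ∈ Ω) (v : E) : ‖h x‖ ^ k / C * ‖v‖ ≤ ‖fderiv ℂ F x v‖ := by
  have h1 := q.low x hx v
  have hC := q.C_pos
  rw [div_mul_eq_mul_div, div_le_iff₀ hC]
  linarith

theorem Q.rad_bd {x : E} : 2 * (L * (c * ‖h x‖ ^ k)) ≤ ‖h x‖ ^ k / C := by
  have hC := q.C_pos
  have h1 : 0 ≤ ‖h x‖ ^ k := by positivity
  rw [le_div_iff₀ hC]
  nlinarith [q.c_le]

theorem Q.diffs {x : E} (hx : x ∈ Ω) {η₁ η₂ : E} (h1 : ‖η₁‖ ≤ c * ‖h x‖ ^ k)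
    (h2 : ‖η₂‖ ≤ c * ‖h x‖ ^ k) :
    ‖h x‖ ^ k / C / 2 * ‖η₁ - η₂‖ ≤ ‖F (x + η₁) - F (x + η₂)‖ := by
  have h3 := lower_bound (F := F) (x := x) (L := L) (ρ := c * ‖h x‖ ^ k) (m := ‖h x‖ ^ k / C)
    (fun y hy => q.F_diff x hx y (q.rad_sub hx hy)) (fun y hy => q.F_lip x hx y (q.rad_sub hx hy))
    q.L_pos.le (q.low' hx) q.rad_bd (x + η₁) (by
      rw [mem_closedBall, dist_eq_norm, add_sub_cancel_left]
      exact h1) (x + η₂) (by
      rw [mem_closedBall, dist_eq_norm, add_sub_cancel_left]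
      exact h2)
  rwa [add_sub_add_left_eq_sub] at h3

theorem Q.eps_le {x : E} (hx : x ∈ Ω) {δ : E → E} (hδ : Sml h k Ω δ) :
    ‖α (F x) + δ (α (F x)) - F x‖ ≤ K * ‖h x‖ ^ (k + 1) * W h k x := by
  have h1 : α (F x) + δ (α (F x)) - F x = (α (F x) - F x) + δ (α (F x)) := by abel
  rw [h1]
  refine (norm_add_le _ _).trans ?_
  have h2 := hδ _ (q.maps x hx)
  have h3 := q.est x hx
  linarith

theorem Q.W_le {x : E} (hx : x ∈ Ω) : W h k x ≤ ‖h x‖ ^ (k + 2) := by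
  have h1 : ‖x‖ ^ (k + 2) ≤ 1 := pow_le_one₀ (norm_nonneg _) (q.small2 x hx)
  have h2 : 0 ≤ ‖h x‖ ^ (k + 2) := by positivity
  unfold W
  nlinarith

theorem Q.exists_sol [FiniteDimensional ℂ E] [Nontrivial E] {x : E} (hx : x ∈ Ω) {δ : E → E}
    (hδ : Sml h k Ω δ) : ∃ η, Sol F α h k c δ x η := by
  by_cases h0 : h x = 0
  · refine ⟨0, ?_, ?_⟩
    · rw [norm_zero]
      have := q.c_pos
      positivity
    · rw [add_zero, q.F_zero x hx h0, q.α_zero]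
      have h1 : δ 0 = 0 := by
        have h2 := hδ 0 q.mem0
        unfold W at h2
        rw [q.h_zero, norm_zero, zero_pow (by omega), zero_mul] at h2
        exact norm_le_zero_iff.1 h2
      rw [h1, add_zero]
  · have hp : 0 < ‖h x‖ := norm_pos_iff.2 h0
    have hC := q.C_pos
    have hc := q.c_pos
    obtain ⟨η, h1, h2⟩ := exists_preimage (F := F) (x := x) (L := L) (ρ := c * ‖h x‖ ^ k)
      (m := ‖h x‖ ^ k / C) (by positivity)
      (fun y hy => q.F_diff x hx y (q.rad_sub hx hy)) (fun y hy => q.F_lip x hx y (q.rad_sub hx hy))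
      q.L_pos.le (by positivity) (q.low' hx) q.rad_bd (ε := α (F x) + δ (α (F x)) - F x) (by
        refine (q.eps_le hx hδ).trans ?_
        have h3 := q.W_le hx
        have h4 := q.small5 x hx
        have h5 := q.small1 x hx
        have hK := q.K_pos
        calc K * ‖h x‖ ^ (k + 1) * W h k x ≤ K * ‖h x‖ ^ (k + 1) * ‖h x‖ ^ (k + 2) := by gcongr
          _ = (K * ‖h x‖) * (‖h x‖ ^ k * ‖h x‖ ^ k) * ‖h x‖ ^ 2 := by ring
          _ ≤ (K * ‖h x‖) * (‖h x‖ ^ k * ‖h x‖ ^ k) * 1 := by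
              gcongr
              exact pow_le_one₀ hp.le h5
          _ ≤ (c / (2 * C)) * (‖h x‖ ^ k * ‖h x‖ ^ k) * 1 := by
              gcongr
              rw [le_div_iff₀ (by positivity)]
              exact h4
          _ = ‖h x‖ ^ k / C / 2 * (c * ‖h x‖ ^ k) := by
              field_simp)
    exact ⟨η, h1, by rw [h2]; abel⟩

theorem Q.sol_le {x : E} (hx : x ∈ Ω) {δ : E → E} (hδ : Sml h k Ω δ) {η : E}
    (hη : Sol F α h k c δ x η) : ‖η‖ ≤ W h k x / 2 := by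
  by_cases h0 : h x = 0
  · have h1 := hη.1
    have hk := q.k_pos
    rw [h0, norm_zero, zero_pow (by omega), mul_zero] at h1
    have := W_nonneg h k x
    linarith
  · have hp : 0 < ‖h x‖ := norm_pos_iff.2 h0
    have hC := q.C_pos
    have hc := q.c_pos
    have h1 := q.diffs hx hη.1 (η₂ := 0) (by rw [norm_zero]; positivity)
    rw [sub_zero, add_zero, hη.2] at h1
    have h2 := h1.trans (q.eps_le hx hδ)
    have h4 := q.small4 x hx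
    have hW := W_nonneg h k x
    have h5 : ‖h x‖ ^ k * ‖η‖ ≤ ‖h x‖ ^ k * (W h k x / 2) := by
      have h6 : ‖h x‖ ^ k * ‖η‖ = 2 * C * (‖h x‖ ^ k / C / 2 * ‖η‖) := by field_simp
      rw [h6]
      calc 2 * C * (‖h x‖ ^ k / C / 2 * ‖η‖) ≤ 2 * C * (K * ‖h x‖ ^ (k + 1) * W h k x) := by
            gcongr
        _ = ‖h x‖ ^ k * W h k x * (4 * C * K * ‖h x‖) / 2 := by ring
        _ ≤ ‖h x‖ ^ k * W h k x * 1 / 2 := by gcongr
        _ = ‖h x‖ ^ k * (W h k x / 2) := by ring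
    exact le_of_mul_le_mul_left h5 (by positivity)

theorem Q.sol_lt {x : E} (hx : x ∈ Ω) {δ : E → E} (hδ : Sml h k Ω δ) {η : E}
    (hη : Sol F α h k c δ x η) (h0 : h x ≠ 0) : ‖η‖ < c * ‖h x‖ ^ k := by
  have hp : 0 < ‖h x‖ := norm_pos_iff.2 h0
  have h1 := q.sol_le hx hδ hη
  have h2 := q.W_le hx
  have h3 := q.small3 x hx
  have h4 := q.small1 x hx
  have hc := q.c_pos
  calc ‖η‖ ≤ ‖h x‖ ^ (k + 2) / 2 := by linarith
    _ = ‖h x‖ ^ k * (‖h x‖ * ‖h x‖) / 2 := by ring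
    _ ≤ ‖h x‖ ^ k * (c * 1) / 2 := by gcongr
    _ < c * ‖h x‖ ^ k := by
      have : 0 < ‖h x‖ ^ k * c := by positivity
      linarith

/-- the difference of two solutions -/
theorem Q.sol_sub {x : E} (hx : x ∈ Ω) {δ₁ δ₂ : E → E} {η₁ η₂ : E} {κ : ℝ} (hκ0 : 0 ≤ κ)
    (hκ : ∀ y ∈ Ω, ‖δ₁ y - δ₂ y‖ ≤ κ * W h k y) (h1 : Sol F α h k c δ₁ x η₁)
    (h2 : Sol F α h k c δ₂ x η₂) : ‖η₁ - η₂‖ ≤ κ / 2 * W h k x := by
  have hW := W_nonneg h k x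
  by_cases h0 : h x = 0
  · have h3 := h1.1
    have h4 := h2.1
    have hk := q.k_pos
    rw [h0, norm_zero, zero_pow (by omega), mul_zero] at h3 h4
    rw [norm_le_zero_iff.1 h3, norm_le_zero_iff.1 h4, sub_zero, norm_zero]
    positivity
  · have hp : 0 < ‖h x‖ := norm_pos_iff.2 h0
    have hC := q.C_pos
    have hc := q.c_pos
    have h3 := q.diffs hx h1.1 h2.1
    rw [h1.2, h2.2, add_sub_add_left_eq_sub] at h3
    have h4 := q.small4 x hx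
    have h5 : ‖h x‖ ^ k / C / 2 * ‖η₁ - η₂‖ ≤ κ * (K * ‖h x‖ ^ (k + 1) * W h k x) := by
      refine (h3.trans (hκ _ (q.maps x hx))).trans ?_
      refine mul_le_mul_of_nonneg_left ?_ hκ0
      have h6 := q.est x hx
      linarith [norm_nonneg (α (F x) - F x)]
    have h6 : ‖h x‖ ^ k * ‖η₁ - η₂‖ ≤ ‖h x‖ ^ k * (κ / 2 * W h k x) := by
      have h7 : ‖h x‖ ^ k * ‖η₁ - η₂‖ = 2 * C * (‖h x‖ ^ k / C / 2 * ‖η₁ - η₂‖) := by field_simp
      rw [h7]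
      calc 2 * C * (‖h x‖ ^ k / C / 2 * ‖η₁ - η₂‖)
          ≤ 2 * C * (κ * (K * ‖h x‖ ^ (k + 1) * W h k x)) := by gcongr
        _ = κ * (‖h x‖ ^ k * W h k x) * (4 * C * K * ‖h x‖) / 2 := by ring
        _ ≤ κ * (‖h x‖ ^ k * W h k x) * 1 / 2 := by gcongr
        _ = ‖h x‖ ^ k * (κ / 2 * W h k x) := by ring
    exact le_of_mul_le_mul_left h6 (by positivity)

theorem Q.sol_unique {x : E} (hx : x ∈ Ω) {δ : E → E} {η₁ η₂ : E}
    (h1 : Sol F α h k c δ x η₁) (h2 : Sol F α h k c δ x η₂) : η₁ = η₂ := by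
  have h3 := q.sol_sub hx (le_refl (0 : ℝ)) (fun y _ => by simp) h1 h2
  rw [zero_div, zero_mul] at h3
  exact sub_eq_zero.1 (norm_le_zero_iff.1 h3)

end

end Pool.Agent.U157.Kato
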