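import Pool.Agent.U157.Kato.Iter

/-!
The iteration which conjugates a contracting germ `F` to a germ `α ∘ F`: convergence.
-/

set_option autoImplicit false
set_option linter.unusedSectionVars false
set_option linter.unusedVariables false

open Metric Set Filter Topology
open scoped NNReal

namespace Pool.Agent.U157.Kato

open Pool.Agent.Helper417.Mer.Hartogs673

variable {E : Type*} [NormedAddCommGroup E] [NormedSpace ℂ E] [FiniteDimensional ℂ E]
  [Nontrivial E]

variable {F α : E → E} {h : E → ℂ} {k : ℕ} {L C K c : ℝ} {Ω : Set E}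

open Classical in
/-- the next approximation -/
noncomputable def nxt (F α : E → E) (h : E → ℂ) (k : ℕ) (c : ℝ) (δ : E → E) (x : E) : E :=
  if H : ∃ η, Sol F α h k c δ x η then H.choose else 0

theorem Q.nxt_sol (q : Q F α h k L C K c Ω) {δ : E → E} (hδ : Sml h k Ω δ) {x : E} (hx : x ∈ Ω) :
    Sol F α h k c δ x (nxt F α h k c δ x) := by
  have H := q.exists_sol hx hδ
  unfold nxt
  rw [dif_pos H]
  exact H.choose_spec

theorem Q.nxt_small (q : Q F α h k L C K c Ω) {δ : E → E} (hδ : Sml h k Ω δ) :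
    Sml h k Ω (nxt F α h k c δ) := fun x hx => by
  have h1 := q.sol_le hx hδ (q.nxt_sol hδ hx)
  have h2 := W_nonneg h k x
  linarith

theorem Q.F_diffAt (q : Q F α h k L C K c Ω) {x : E} (hx : x ∈ Ω) : DifferentiableAt ℂ F x :=
  q.F_diff x hx x (mem_closedBall_self q.c_pos.le)

/-- small maps are differentiable at the zeros of `h` -/
theorem Q.diff_zero (q : Q F α h k L C K c Ω) {δ : E → E} (hδ : Sml h k Ω δ) {x : E}
    (hx : x ∈ Ω) (h0 : h x = 0) : HasFDerivAt δ (0 : E →L[ℂ] E) x := by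
  have hδx : δ x = 0 := by
    have h2 := hδ x hx
    unfold W at h2
    rw [h0, norm_zero, zero_pow (by omega), zero_mul] at h2
    exact norm_le_zero_iff.1 h2
  rw [hasFDerivAt_iff_isLittleO_nhds_zero]
  have h1 : (fun v : E => δ (x + v) - δ x - (0 : E →L[ℂ] E) v) =O[𝓝 0] fun v : E => ‖v‖ ^ 2 := by
    refine Asymptotics.IsBigO.of_bound (L ^ 2) ?_
    have h3 : ∀ᶠ v : E in 𝓝 0, x + v ∈ Ω := by
      have h4 : Tendsto (fun v : E => x + v) (𝓝 0) (𝓝 (x + 0)) :=
        (continuous_const.add continuous_id).tendsto 0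
      rw [add_zero] at h4
      exact h4.eventually (q.op.mem_nhds hx)
    filter_upwards [h3] with v hv
    rw [hδx, sub_zero, zero_apply, sub_zero]
    refine (hδ _ hv).trans ((q.W_le hv).trans ?_)
    have h5 := q.h_lip x hx (x + v) hv
    rw [h0, sub_zero, add_sub_cancel_left] at h5
    have h6 := q.small1 _ hv
    rw [norm_pow, norm_norm]
    calc ‖h (x + v)‖ ^ (k + 2) = ‖h (x + v)‖ ^ k * ‖h (x + v)‖ ^ 2 := by ring
      _ ≤ 1 * (L * ‖v‖) ^ 2 := by
          gcongr
          exact pow_le_one₀ (norm_nonneg _) h6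
      _ = L ^ 2 * ‖v‖ ^ 2 := by ring
  refine h1.trans_isLittleO ?_
  have h2 : (fun v : E => ‖v‖ ^ 2) =o[𝓝 0] fun v : E => ‖v‖ ^ 1 := by
    exact Asymptotics.isLittleO_norm_pow_norm_pow (by norm_num)
  simp only [pow_one] at h2
  exact Asymptotics.isLittleO_norm_right.1 h2

theorem Q.nxt_diff (q : Q F α h k L C K c Ω) {δ : E → E} (hδ : Sml h k Ω δ)
    (hd : DifferentiableOn ℂ δ Ω) : DifferentiableOn ℂ (nxt F α h k c δ) Ω := by
  have : CompleteSpace E := FiniteDimensional.complete ℂ E
  intro x hx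
  apply DifferentiableAt.differentiableWithinAt
  by_cases h0 : h x = 0
  · exact (q.diff_zero (q.nxt_small hδ) hx h0).differentiableAt
  -- the value
  set η := nxt F α h k c δ x with hη
  have hs := q.nxt_sol hδ hx
  have hlt := q.sol_lt hx hδ hs h0
  have hp : 0 < ‖h x‖ := norm_pos_iff.2 h0
  have hC := q.C_pos
  have hc := q.c_pos
  -- `F` is analytic near `x + η`
  have hmem : x + η ∈ ball x c := by
    rw [mem_ball, dist_eq_norm, add_sub_cancel_left]
    exact lt_of_lt_of_le hlt (q.rad_le hx)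
  have hFd : DifferentiableOn ℂ F (ball x c) := fun y hy =>
    (q.F_diff x hx y (ball_subset_closedBall hy)).differentiableWithinAt
  have hFa : AnalyticAt ℂ F (x + η) :=
    Pool.Agent.Y785.MV.Osg.analytic isOpen_ball hFd _ hmem
  -- the derivative is invertible
  have hlow : ∀ v, ‖h x‖ ^ k / C / 2 * ‖v‖ ≤ ‖fderiv ℂ F (x + η) v‖ := by
    intro v
    have h1 := q.low' hx v
    have h2 := q.F_lip x hx (x + η) (ball_subset_closedBall hmem)
    rw [add_sub_cancel_left] at h2
    have h3 : ‖(fderiv ℂ F (x + η) - fderiv ℂ F x) v‖ ≤ ‖h x‖ ^ k / C / 2 * ‖v‖ := by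
      refine (ContinuousLinearMap.le_opNorm _ _).trans ?_
      refine mul_le_mul_of_nonneg_right (h2.trans ?_) (norm_nonneg _)
      have h4 := q.rad_bd (x := x)
      have h5 := mul_le_mul_of_nonneg_left hlt.le q.L_pos.le
      linarith
    have h4 : fderiv ℂ F x v = fderiv ℂ F (x + η) v - (fderiv ℂ F (x + η) - fderiv ℂ F x) v := by
      simp
    rw [h4] at h1
    have h5 := h1.trans (norm_sub_le _ _)
    linarith
  obtain ⟨e, he, -⟩ := exists_equiv (by positivity) hlow
  have hst : HasStrictFDerivAt F (e : E →L[ℂ] E) (x + η) := by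
    rw [he]
    exact hFa.hasStrictFDerivAt
  set g := hst.localInverse F e (x + η) with hg
  -- the right hand side
  set y : E → E := fun w => α (F w) + δ (α (F w)) with hy
  have hy0 : y x = F (x + η) := hs.2.symm
  have hyd : DifferentiableAt ℂ y x := by
    have h1 : DifferentiableAt ℂ (fun w => α (F w)) x :=
      (q.α_diff x hx).comp x (q.F_diffAt hx)
    have h2 : DifferentiableAt ℂ (fun w => δ (α (F w))) x := by
      have h3 : DifferentiableAt ℂ δ (α (F x)) :=
        (hd _ (q.maps x hx)).differentiableAt (q.op.mem_nhds (q.maps x hx))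
      exact DifferentiableAt.comp (g := δ) (f := fun w => α (F w)) x h3 h1
    exact h1.add h2
  have hgd : DifferentiableAt ℂ g (y x) := by
    rw [hy0]
    exact hst.to_localInverse.hasFDerivAt.differentiableAt
  have hgy : g (y x) = x + η := by
    rw [hy0]
    exact hst.localInverse_apply_image
  have hGd : DifferentiableAt ℂ (fun w => g (y w) - w) x :=
    (DifferentiableAt.comp (g := g) (f := y) x hgd hyd).sub differentiableAt_id
  have hG0 : g (y x) - x = η := by
    rw [hgy, add_sub_cancel_left]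
  refine hGd.congr_of_eventuallyEq ?_
  -- nearby the solution is given by the inverse
  have e1 : ∀ᶠ w in 𝓝 x, w ∈ Ω := q.op.mem_nhds hx
  have e2 : ∀ᶠ w in 𝓝 x, F (g (y w)) = y w := by
    have h1 := hst.eventually_right_inverse
    rw [← hy0] at h1
    exact hyd.continuousAt.tendsto.eventually h1
  have e3 : ∀ᶠ w in 𝓝 x, ‖g (y w) - w‖ < c * ‖h w‖ ^ k := by
    have h1 : ContinuousAt (fun w => ‖g (y w) - w‖) x := hGd.continuousAt.norm
    have h2 : ContinuousAt (fun w => c * ‖h w‖ ^ k) x :=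
      ((q.h_diff x hx).continuousAt.norm.pow k).const_mul c
    refine h1.eventually_lt h2 ?_
    rw [hG0]
    exact hlt
  filter_upwards [e1, e2, e3] with w h1 h2 h3
  refine q.sol_unique h1 (q.nxt_sol hδ h1) ⟨h3.le, ?_⟩
  rw [add_sub_cancel]
  exact h2

/-- the approximations -/
noncomputable def app (F α : E → E) (h : E → ℂ) (k : ℕ) (c : ℝ) : ℕ → E → E
  | 0 => fun _ => 0
  | n + 1 => nxt F α h k c (app F α h k c n)

theorem Q.app_small (q : Q F α h k L C K c Ω) (n : ℕ) : Sml h k Ω (app F α h k c n) := by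
  induction n with
  | zero =>
    intro x _
    rw [app, norm_zero]
    exact W_nonneg h k x
  | succ n ih => exact q.nxt_small ih

theorem Q.app_diff (q : Q F α h k L C K c Ω) (n : ℕ) :
    DifferentiableOn ℂ (app F α h k c n) Ω := by
  induction n with
  | zero => exact differentiableOn_const 0
  | succ n ih => exact q.nxt_diff (q.app_small n) ih

theorem Q.app_step (q : Q F α h k L C K c Ω) (n : ℕ) :
    ∀ x ∈ Ω, ‖app F α h k c (n + 1) x - app F α h k c n x‖ ≤ (1 / 2) ^ n * W h k x := by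
  induction n with
  | zero =>
    intro x hx
    have h1 := q.app_small 1 x hx
    rw [app, sub_zero, pow_zero, one_mul]
    exact h1
  | succ n ih =>
    intro x hx
    have h1 := q.sol_sub hx (by positivity) ih (q.nxt_sol (q.app_small (n + 1)) hx)
      (q.nxt_sol (q.app_small n) hx)
    refine h1.trans (le_of_eq ?_)
    ring

theorem Q.exists_limit (q : Q F α h k L C K c Ω) :
    ∃ δ : E → E, Sml h k Ω δ ∧ TendstoUniformlyOn (app F α h k c) δ atTop Ω := by
  have : CompleteSpace E := FiniteDimensional.complete ℂ E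
  have hW1 : ∀ x ∈ Ω, W h k x ≤ 1 := fun x hx =>
    (q.W_le hx).trans (pow_le_one₀ (norm_nonneg _) (q.small1 x hx))
  have hst : ∀ x ∈ Ω, ∀ n, dist (app F α h k c n x) (app F α h k c (n + 1) x) ≤
      1 * (1 / 2) ^ n := by
    intro x hx n
    rw [dist_comm, dist_eq_norm, one_mul]
    refine (q.app_step n x hx).trans ?_
    have h1 : (0 : ℝ) ≤ (1 / 2) ^ n := by positivity
    have h2 := hW1 x hx
    nlinarith
  have hex : ∀ x ∈ Ω, ∃ l, Tendsto (fun n => app F α h k c n x) atTop (𝓝 l) := by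
    intro x hx
    exact cauchySeq_tendsto_of_complete (cauchySeq_of_le_geometric (1 / 2) 1 (by norm_num)
      (hst x hx))
  choose! δ hδ using hex
  refine ⟨δ, ?_, ?_⟩
  · intro x hx
    exact le_of_tendsto (hδ x hx).norm (Eventually.of_forall fun n => q.app_small n x hx)
  · rw [Metric.tendstoUniformlyOn_iff]
    intro ε hε
    have h1 : Tendsto (fun n : ℕ => (1 : ℝ) * (1 / 2) ^ n / (1 - 1 / 2)) atTop (𝓝 0) := by
      have h2 : Tendsto (fun n : ℕ => (1 / 2 : ℝ) ^ n) atTop (𝓝 0) :=
        tendsto_pow_atTop_nhds_zero_of_lt_one (by norm_num) (by norm_num)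
      have h3 := (h2.const_mul 1).div_const (1 - 1 / 2)
      simpa using h3
    filter_upwards [h1.eventually (gt_mem_nhds hε)] with n hn x hx
    rw [dist_comm]
    exact (dist_le_of_le_geometric_of_tendsto (1 / 2) 1 (by norm_num) (hst x hx) (hδ x hx) n).trans_lt
      hn

/-- the conjugacy -/
theorem Q.exists_conj (q : Q F α h k L C K c Ω) :
    ∃ δ : E → E, Sml h k Ω δ ∧ AnalyticAt ℂ δ 0 ∧ δ 0 = 0 ∧ fderiv ℂ δ 0 = 0 ∧
      ∀ x ∈ Ω, F (x + δ x) = α (F x) + δ (α (F x)) := by
  have : CompleteSpace E := FiniteDimensional.complete ℂ E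
  obtain ⟨δ, h1, h2⟩ := q.exists_limit
  obtain ⟨R, hR, hRΩ⟩ := Metric.isOpen_iff.1 q.op 0 q.mem0
  have h3 : DifferentiableOn ℂ δ (ball 0 (R / 2)) :=
    differentiableOn_of_uniform_limit (f := app F α h k c) (fun n => (q.app_diff n).mono hRΩ)
      (h2.mono hRΩ)
  have h4 : HasFDerivAt δ (0 : E →L[ℂ] E) 0 := q.diff_zero h1 q.mem0 q.h_zero
  have h5 : δ 0 = 0 := by
    have h6 := h1 0 q.mem0
    unfold W at h6
    rw [q.h_zero, norm_zero, zero_pow (by omega), zero_mul] at h6
    exact norm_le_zero_iff.1 h6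
  refine ⟨δ, h1, Pool.Agent.Y785.MV.Osg.analytic isOpen_ball h3 _ (mem_ball_self (by positivity)),
    h5, h4.fderiv, ?_⟩
  intro x hx
  have t1 : Tendsto (fun n => app F α h k c (n + 1) x) atTop (𝓝 (δ x)) :=
    (h2.tendsto_at hx).comp (tendsto_add_atTop_nat 1)
  have hle : ‖δ x‖ ≤ c * ‖h x‖ ^ k :=
    le_of_tendsto t1.norm (Eventually.of_forall fun n => (q.nxt_sol (q.app_small n) hx).1)
  have hFc : ContinuousAt F (x + δ x) := by
    refine (q.F_diff x hx (x + δ x) ?_).continuousAt
    rw [mem_closedBall, dist_eq_norm, add_sub_cancel_left]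
    exact hle.trans (q.rad_le hx)
  have t2 : Tendsto (fun n => F (x + app F α h k c (n + 1) x)) atTop (𝓝 (F (x + δ x))) :=
    hFc.tendsto.comp (t1.const_add x)
  have t3 : Tendsto (fun n => α (F x) + app F α h k c n (α (F x))) atTop
      (𝓝 (α (F x) + δ (α (F x)))) := (h2.tendsto_at (q.maps x hx)).const_add _
  refine tendsto_nhds_unique t2 (t3.congr fun n => ?_)
  exact (q.nxt_sol (q.app_small n) hx).2.symm

end Pool.Agent.U157.Kato
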