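import Pool.Agent.U157.Kato.Cr

/-!
Every jet of a locally biholomorphic map of the plane is the jet of a birational map.
-/

set_option autoImplicit false

open Filter Topology Set Asymptotics

namespace Pool.Agent.U157.Kato

theorem lip_loc {H : V → V} (hH : AnalyticAt ℂ H 0) :
    ∃ C ρ : ℝ, 0 ≤ C ∧ 0 < ρ ∧ ∀ x y : V, ‖x‖ < ρ → ‖y‖ < ρ → ‖H x - H y‖ ≤ C * ‖x - y‖ := by
  have h1 : ∀ᶠ z in 𝓝 (0 : V), DifferentiableAt ℂ H z := by
    filter_upwards [hH.eventually_analyticAt] with z hz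
    exact hz.differentiableAt
  have h2 : ∀ᶠ z in 𝓝 (0 : V), ‖fderiv ℂ H z‖ < ‖fderiv ℂ H 0‖ + 1 := by
    have h3 : ContinuousAt (fun z => ‖fderiv ℂ H z‖) 0 := hH.fderiv.continuousAt.norm
    exact h3.eventually_lt_const (by linarith)
  obtain ⟨ρ, hρ, hb⟩ := Metric.eventually_nhds_iff_ball.1 (h1.and h2)
  refine ⟨‖fderiv ℂ H 0‖ + 1, ρ, by positivity, hρ, fun x y hx hy => ?_⟩
  exact (convex_ball (0 : V) ρ).norm_image_sub_le_of_norm_fderiv_le (𝕜 := ℂ)
    (fun z hz => (hb z hz).1) (fun z hz => (hb z hz).2.le) (by simpa using hy) (by simpa using hx)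

theorem lip_of_zero {H : V → V} (hH : AnalyticAt ℂ H 0) (h0 : fderiv ℂ H 0 = 0) :
    ∃ C ρ : ℝ, 0 ≤ C ∧ 0 < ρ ∧ ∀ x y : V, ‖x‖ < ρ → ‖y‖ < ρ →
      ‖H x - H y‖ ≤ C * (‖x‖ + ‖y‖) * ‖x - y‖ := by
  have h1 : ∀ᶠ z in 𝓝 (0 : V), DifferentiableAt ℂ H z := by
    filter_upwards [hH.eventually_analyticAt] with z hz
    exact hz.differentiableAt
  have h2 : (fun z => fderiv ℂ H z - fderiv ℂ H 0) =O[𝓝 0] fun z => z - 0 :=
    hH.fderiv.differentiableAt.isBigO_sub
  obtain ⟨C, hC0, hC⟩ := h2.exists_nonneg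
  rw [isBigOWith_iff] at hC
  obtain ⟨ρ, hρ, hb⟩ := Metric.eventually_nhds_iff_ball.1 (h1.and hC)
  refine ⟨C, ρ, hC0, hρ, fun x y hx hy => ?_⟩
  set M := max ‖x‖ ‖y‖ with hM
  have hMρ : M < ρ := max_lt hx hy
  have h3 : ∀ z ∈ Metric.closedBall (0 : V) M, z ∈ Metric.ball (0 : V) ρ :=
    fun z hz => Metric.closedBall_subset_ball hMρ hz
  have h4 : ‖H x - H y‖ ≤ (C * M) * ‖x - y‖ := by
    refine (convex_closedBall (0 : V) M).norm_image_sub_le_of_norm_fderiv_le (𝕜 := ℂ)
      (fun z hz => (hb z (h3 z hz)).1) (fun z hz => ?_) ?_ ?_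
    · have h5 := (hb z (h3 z hz)).2
      rw [h0, sub_zero, sub_zero] at h5
      refine h5.trans (mul_le_mul_of_nonneg_left ?_ hC0)
      simpa using hz
    · simp [hM]
    · simp [hM]
  refine h4.trans ?_
  refine mul_le_mul_of_nonneg_right (mul_le_mul_of_nonneg_left ?_ hC0) (norm_nonneg _)
  exact max_le (by linarith [norm_nonneg y]) (by linarith [norm_nonneg x])

theorem bigO_norm_pow_le {N M : ℕ} (h : M ≤ N) :
    (fun x : V => ‖x‖ ^ N) =O[𝓝 0] fun x => ‖x‖ ^ M := by
  refine IsBigO.of_bound 1 ?_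
  filter_upwards [Metric.ball_mem_nhds (0 : V) one_pos] with x hx
  have hx1 : ‖x‖ ≤ 1 := by
    have : ‖x‖ < 1 := by simpa using hx
    exact this.le
  rw [one_mul, Real.norm_of_nonneg (by positivity), Real.norm_of_nonneg (by positivity)]
  exact pow_le_pow_of_le_one (norm_nonneg _) hx1 h

theorem bigO_self {f : V → V} (hf : AnalyticAt ℂ f 0) (h0 : f 0 = 0) :
    f =O[𝓝 0] fun x => ‖x‖ := by
  have h1 := hf.differentiableAt.isBigO_sub
  simp only [h0, sub_zero] at h1
  exact h1.norm_right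

/-- the maps which are homogeneous parts of Cremona germs tangent to the identity -/
def MS (N : ℕ) : Set (V → V) := {H | AnalyticAt ℂ H 0 ∧ H =O[𝓝 0] (fun x => ‖x‖ ^ N) ∧
  ∃ κ, Cr κ ∧ (fun x => κ x - x - H x) =O[𝓝 0] fun x => ‖x‖ ^ (N + 1)}

theorem MS.sub_id {N : ℕ} {H κ : V → V} (hH : H =O[𝓝 0] (fun x => ‖x‖ ^ N))
    (h : (fun x => κ x - x - H x) =O[𝓝 0] fun x => ‖x‖ ^ (N + 1)) :
    (fun x => κ x - x) =O[𝓝 0] fun x => ‖x‖ ^ N := by
  have h1 := (h.trans (bigO_norm_pow_le (Nat.le_succ N))).add hH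
  refine h1.congr_left fun x => ?_
  simp

theorem MS.add {N : ℕ} (hN : 2 ≤ N) {H₁ H₂ : V → V} (h1 : H₁ ∈ MS N) (h2 : H₂ ∈ MS N) :
    (fun x => H₁ x + H₂ x) ∈ MS N := by
  obtain ⟨ha1, ho1, κ₁, hκ₁, hr1⟩ := h1
  obtain ⟨ha2, ho2, κ₂, hκ₂, hr2⟩ := h2
  refine ⟨ha1.add ha2, ho1.add ho2, fun x => κ₁ (κ₂ x), hκ₁.comp hκ₂, ?_⟩
  have hκt : Tendsto κ₂ (𝓝 0) (𝓝 0) := by
    have := hκ₂.1.1.continuousAt.tendsto
    rwa [hκ₂.2.1] at this
  have hκo : (fun x => ‖κ₂ x‖) =O[𝓝 0] fun x => ‖x‖ := (bigO_self hκ₂.1.1 hκ₂.2.1).norm_left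
  have e1 : (fun x => κ₁ (κ₂ x) - κ₂ x - H₁ (κ₂ x)) =O[𝓝 0] fun x => ‖x‖ ^ (N + 1) :=
    (hr1.comp_tendsto hκt).trans (hκo.pow (N + 1))
  have hsub := MS.sub_id ho2 hr2
  have hD : fderiv ℂ H₁ 0 = 0 := by
    have h3 : H₁ =O[𝓝 0] fun x => ‖x - 0‖ ^ N := by simpa using ho1
    exact (h3.hasFDerivAt (by omega)).fderiv
  obtain ⟨C, ρ, hC, hρ, hlip⟩ := lip_of_zero ha1 hD
  have e2 : (fun x => H₁ (κ₂ x) - H₁ x) =O[𝓝 0] fun x => ‖x‖ ^ (N + 1) := by
    have h3 : (fun x => H₁ (κ₂ x) - H₁ x) =O[𝓝 0]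
        fun x => (‖κ₂ x‖ + ‖x‖) * ‖κ₂ x - x‖ := by
      refine IsBigO.of_bound C ?_
      have hb : ∀ᶠ x in 𝓝 (0 : V), ‖x‖ < ρ := by
        filter_upwards [Metric.ball_mem_nhds (0 : V) hρ] with x hx
        simpa using hx
      filter_upwards [hb, hκt.eventually hb] with x hx1 hx2
      have := hlip _ _ hx2 hx1
      rw [Real.norm_of_nonneg (by positivity)]
      linarith
    refine h3.trans ?_
    have h4 : (fun x => (‖κ₂ x‖ + ‖x‖) * ‖κ₂ x - x‖) =O[𝓝 0] fun x : V => ‖x‖ * ‖x‖ ^ N :=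
      (hκo.add (isBigO_refl _ _)).mul hsub.norm_left
    refine h4.trans (IsBigO.of_bound 1 (Eventually.of_forall fun x => ?_))
    rw [one_mul, pow_succ, mul_comm]
  refine ((e1.add hr2).add e2).congr_left fun x => ?_
  simp only
  abel

theorem MS.zero (N : ℕ) : (fun _ => 0 : V → V) ∈ MS N := by
  refine ⟨analyticAt_const, isBigO_zero _ _, fun x => x, cr_id, ?_⟩
  simp only [sub_self]
  exact isBigO_zero _ _

/-- the corresponding space of maps -/
def MM (N : ℕ) (hN : 2 ≤ N) : Submodule ℂ (V → V) where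
  carrier := {H | ∀ c : ℂ, (fun x => c • H x) ∈ MS N}
  add_mem' := by
    intro H₁ H₂ h1 h2 c
    have := MS.add hN (h1 c) (h2 c)
    simpa only [Pi.add_apply, smul_add] using this
  zero_mem' := by
    intro c
    simpa only [Pi.zero_apply, smul_zero] using MS.zero N
  smul_mem' := by
    intro d H h c
    have := h (c * d)
    simpa only [Pi.smul_apply, smul_smul] using this

theorem gen_mem (l m : V →L[ℂ] ℂ) {v : V} (hv : l v = 0) {n : ℕ} (hn : 1 ≤ n) :
    (fun x => (l x ^ n * m x) • v) ∈ MM (n + 1) (by omega) := by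
  intro c
  have e1 : (fun x => c • ((l x ^ n * m x) • v)) = fun x => (l x ^ n * (c • m) x) • v := by
    funext x
    rw [smul_smul]
    congr 1
    simp only [smul_apply, smul_eq_mul]
    ring
  rw [e1]
  refine ⟨?_, ?_, _, cr_elem l (c • m) hv hn, ?_⟩
  · exact (((l.analyticAt 0).pow n).mul ((c • m).analyticAt 0)).smul analyticAt_const
  · refine IsBigO.of_bound (‖l‖ ^ n * ‖c • m‖ * ‖v‖) (Eventually.of_forall fun x => ?_)
    rw [norm_smul, norm_mul, norm_pow, Real.norm_of_nonneg (by positivity)]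
    have h1 := l.le_opNorm x
    have h2 := (c • m).le_opNorm x
    calc ‖l x‖ ^ n * ‖(c • m) x‖ * ‖v‖ ≤ (‖l‖ * ‖x‖) ^ n * (‖c • m‖ * ‖x‖) * ‖v‖ := by gcongr
      _ = _ := by ring
  · have e2 : (fun x : V => x + (l x ^ n * (c • m) x) • v - x - (l x ^ n * (c • m) x) • v) =
        fun _ => 0 := by
      funext x
      simp
    rw [e2]
    exact isBigO_zero _ _

/-- the coefficients of a polynomial curve in a subspace are in the subspace -/
theorem extract {E : Type*} [AddCommGroup E] [Module ℂ E] (M : Submodule ℂ E) (K : ℕ) :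
    ∀ c : ℕ → E, (∀ t : ℂ, ∑ i ∈ Finset.range K, t ^ i • c i ∈ M) → ∀ i < K, c i ∈ M := by
  induction K with
  | zero => intro c _ i hi; omega
  | succ K ih =>
    intro c h
    have h1 : ∀ i < K, c i ∈ M := by
      have h2 := ih (fun i => ((2 : ℂ) ^ i - 2 ^ K) • c i) (fun t => by
        have h3 := M.sub_mem (h (2 * t)) (M.smul_mem ((2 : ℂ) ^ K) (h t))
        rw [Finset.sum_range_succ, Finset.sum_range_succ] at h3
        rw [smul_add, Finset.smul_sum] at h3
        have e : (∑ x ∈ Finset.range K, (2 * t) ^ x • c x + (2 * t) ^ K • c K) -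
            (∑ x ∈ Finset.range K, (2 : ℂ) ^ K • t ^ x • c x + (2 : ℂ) ^ K • t ^ K • c K) =
            ∑ i ∈ Finset.range K, t ^ i • ((2 : ℂ) ^ i - 2 ^ K) • c i := by
          have e1 : (2 * t) ^ K • c K = (2 : ℂ) ^ K • t ^ K • c K := by
            rw [smul_smul, mul_pow]
          rw [e1, add_sub_add_right_eq_sub, ← Finset.sum_sub_distrib]
          refine Finset.sum_congr rfl fun i _ => ?_
          rw [smul_smul, smul_smul, ← sub_smul]
          congr 1
          rw [mul_pow]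
          ring
        rw [e] at h3
        exact h3)
      intro i hi
      have h3 := h2 i hi
      have h4 : ((2 : ℂ) ^ i - 2 ^ K) ≠ 0 := by
        rw [sub_ne_zero]
        intro h5
        have h6 : (2 : ℕ) ^ i = 2 ^ K := by exact_mod_cast h5
        have := Nat.pow_right_injective (le_refl 2) h6
        omega
      exact (M.smul_mem_iff h4).1 h3
    intro i hi
    rcases Nat.lt_succ_iff_lt_or_eq.1 hi with h2 | h2
    · exact h1 i h2
    · subst h2
      have h3 := h 1
      rw [Finset.sum_range_succ] at h3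
      have h4 : ∑ x ∈ Finset.range i, (1 : ℂ) ^ x • c x ∈ M := by
        refine M.sum_mem fun j hj => ?_
        rw [one_pow, one_smul]
        exact h1 j (Finset.mem_range.1 hj)
      have h5 := (M.add_mem_iff_right h4).1 h3
      rwa [one_pow, one_smul] at h5

/-- homogeneous vector fields -/
def EE (N i : ℕ) : V → V := fun x => (x.1 ^ (N - i) * x.2 ^ i, 0)

/-- homogeneous vector fields -/
def FF (N i : ℕ) : V → V := fun x => (0, x.1 ^ (N - i) * x.2 ^ i)

/-- the coefficients of the elementary maps -/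
noncomputable def AA (n u : ℕ) : ℕ → V → V
  | 0 => - FF (n + 1) u
  | i + 1 => (n.choose i : ℂ) • EE (n + 1) (i + u) - (n.choose (i + 1) : ℂ) • FF (n + 1) (i + 1 + u)

theorem sum_AA (n u : ℕ) (P : V → ℂ)
    (hP : ∀ x : V, ∀ i ≤ n, x.1 ^ (n + 1 - (i + u)) * x.2 ^ (i + u) = x.1 ^ (n - i) * x.2 ^ i * P x)
    (t : ℂ) : ∑ i ∈ Finset.range (n + 2), t ^ i • AA n u i =
      fun x => ((x.1 + t * x.2) ^ n * P x) • ((t, -1) : V) := by
  have key : ∀ x : V, ∑ i ∈ Finset.range (n + 1),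
      t ^ i * ((n.choose i : ℂ) * (x.1 ^ (n + 1 - (i + u)) * x.2 ^ (i + u))) =
      (x.1 + t * x.2) ^ n * P x := by
    intro x
    rw [add_comm x.1, add_pow, Finset.sum_mul]
    refine Finset.sum_congr rfl fun i hi => ?_
    rw [hP x i (by have := Finset.mem_range.1 hi; omega), mul_pow]
    ring
  funext x
  rw [Finset.sum_apply]
  have h1 : ∀ i, (t ^ i • AA n u i) x = t ^ i • AA n u i x := fun i => rfl
  simp only [h1]
  refine Prod.ext ?_ ?_
  · rw [Prod.fst_sum, Finset.sum_range_succ']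
    have h2 : (t ^ 0 • AA n u 0 x).1 = 0 := by
      simp [AA, FF]
    rw [h2, add_zero]
    simp only [Prod.smul_fst, smul_eq_mul]
    rw [← key x, Finset.sum_mul]
    refine Finset.sum_congr rfl fun i _ => ?_
    simp only [AA, EE, FF, Pi.sub_apply, Pi.smul_apply, Prod.fst_sub, Prod.smul_fst, smul_eq_mul,
      mul_zero, sub_zero]
    ring
  · rw [Prod.snd_sum]
    simp only [Prod.smul_snd, smul_eq_mul]
    have h3 : ∀ i, (AA n u i x).2 =
        -((n.choose i : ℂ) * (x.1 ^ (n + 1 - (i + u)) * x.2 ^ (i + u))) := by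
      intro i
      cases i with
      | zero => simp [AA, FF]
      | succ i => simp [AA, EE, FF]
    simp only [h3]
    rw [Finset.sum_range_succ, Nat.choose_succ_self]
    rw [← key x]
    simp only [Nat.cast_zero, zero_mul, neg_zero, mul_zero, add_zero, mul_neg, mul_one,
      Finset.sum_neg_distrib]

theorem choose_ne {n i : ℕ} (hi : i + 1 ≤ n) :
    ((n.choose (i + 1) : ℂ) ^ 2 - n.choose i * n.choose (i + 2)) ≠ 0 := by
  rw [sub_ne_zero]
  intro h
  have h1 : n.choose (i + 1) ^ 2 = n.choose i * n.choose (i + 2) := by exact_mod_cast h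
  have h2 : n.choose (i + 1) * (i + 1) = n.choose i * (n - i) := Nat.choose_succ_right_eq n i
  have h3 : n.choose (i + 2) * (i + 2) = n.choose (i + 1) * (n - (i + 1)) :=
    Nat.choose_succ_right_eq n (i + 1)
  have h4 : 0 < n.choose (i + 1) := Nat.choose_pos hi
  obtain ⟨k, rfl⟩ : ∃ k, n = i + 1 + k := ⟨n - (i + 1), by omega⟩
  have e1 : i + 1 + k - i = k + 1 := by omega
  have e2 : i + 1 + k - (i + 1) = k := by omega
  rw [e1] at h2
  rw [e2] at h3
  generalize (i + 1 + k).choose (i + 1) = a at *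
  generalize (i + 1 + k).choose i = b at *
  generalize (i + 1 + k).choose (i + 2) = c at *
  have h5 : a ^ 2 * ((k + 1) * (i + 2)) = a ^ 2 * ((i + 1) * k) := by
    calc a ^ 2 * ((k + 1) * (i + 2)) = (b * (k + 1)) * (c * (i + 2)) := by rw [h1]; ring
      _ = (a * (i + 1)) * (a * k) := by rw [← h2, h3]
      _ = _ := by ring
  have h6 := Nat.eq_of_mul_eq_mul_left (pow_pos h4 2) h5
  nlinarith

theorem AA_mem {n : ℕ} (hn : 1 ≤ n) (u : ℕ) (m : V →L[ℂ] ℂ)
    (hP : ∀ x : V, ∀ i ≤ n, x.1 ^ (n + 1 - (i + u)) * x.2 ^ (i + u) = x.1 ^ (n - i) * x.2 ^ i * m x) :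
    ∀ i < n + 2, AA n u i ∈ MM (n + 1) (by omega) := by
  apply extract
  intro t
  rw [sum_AA n u m hP t]
  have h1 := gen_mem (ContinuousLinearMap.fst ℂ ℂ ℂ + t • ContinuousLinearMap.snd ℂ ℂ ℂ) m
    (v := ((t, -1) : V)) (by simp) hn
  simpa only [add_apply, smul_apply,
    ContinuousLinearMap.coe_fst', ContinuousLinearMap.coe_snd', smul_eq_mul] using h1

theorem EF_mem {n : ℕ} (hn : 1 ≤ n) (i : ℕ) (hi : i ≤ n + 1) :
    EE (n + 1) i ∈ MM (n + 1) (by omega) ∧ FF (n + 1) i ∈ MM (n + 1) (by omega) := by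
  have h0 : ∀ i < n + 2, AA n 0 i ∈ MM (n + 1) (by omega) := by
    refine AA_mem hn 0 (ContinuousLinearMap.fst ℂ ℂ ℂ) fun x i hi => ?_
    rw [add_zero, Nat.sub_add_comm hi, pow_succ]
    simp only [ContinuousLinearMap.coe_fst']
    ring
  have h1 : ∀ i < n + 2, AA n 1 i ∈ MM (n + 1) (by omega) := by
    refine AA_mem hn 1 (ContinuousLinearMap.snd ℂ ℂ ℂ) fun x i hi => ?_
    rw [Nat.add_sub_add_right, pow_succ]
    simp only [ContinuousLinearMap.coe_snd']
    ring
  set M := MM (n + 1) (by omega) with hM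
  have hF0 : FF (n + 1) 0 ∈ M := by
    have := h0 0 (by omega)
    simpa only [AA, neg_mem_iff] using this
  have hF1 : FF (n + 1) 1 ∈ M := by
    have := h1 0 (by omega)
    simpa only [AA, neg_mem_iff] using this
  have hmid : ∀ i, i + 1 ≤ n → EE (n + 1) (i + 1) ∈ M ∧ FF (n + 1) (i + 2) ∈ M := by
    intro i hi
    have ha := h0 (i + 1 + 1) (by omega)
    have hb := h1 (i + 1) (by omega)
    simp only [AA, add_zero] at ha hb
    have e3 : i + 1 + 1 = i + 2 := rfl
    rw [e3] at ha hb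
    have hD := choose_ne hi
    set a := (n.choose (i + 1) : ℂ)
    set b := (n.choose i : ℂ)
    set c := (n.choose (i + 2) : ℂ)
    constructor
    · have h2 := M.sub_mem (M.smul_mem a ha) (M.smul_mem c hb)
      have e : a • (a • EE (n + 1) (i + 1) - c • FF (n + 1) (i + 2)) -
          c • (b • EE (n + 1) (i + 1) - a • FF (n + 1) (i + 2)) =
          (a ^ 2 - b * c) • EE (n + 1) (i + 1) := by
        module
      rw [e] at h2
      exact (M.smul_mem_iff hD).1 h2
    · have h2 := M.sub_mem (M.smul_mem b ha) (M.smul_mem a hb)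
      have e : b • (a • EE (n + 1) (i + 1) - c • FF (n + 1) (i + 2)) -
          a • (b • EE (n + 1) (i + 1) - a • FF (n + 1) (i + 2)) =
          (a ^ 2 - b * c) • FF (n + 1) (i + 2) := by
        module
      rw [e] at h2
      exact (M.smul_mem_iff hD).1 h2
  have hE0 : EE (n + 1) 0 ∈ M := by
    have ha := h0 1 (by omega)
    simp only [AA, add_zero, zero_add, Nat.choose_zero_right, Nat.cast_one, one_smul] at ha
    have h2 := M.add_mem ha (M.smul_mem (n.choose 1 : ℂ) hF1)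
    rwa [sub_add_cancel] at h2
  have hEn : EE (n + 1) (n + 1) ∈ M := by
    have ha := h1 (n + 1) (by omega)
    simp only [AA, Nat.choose_self, Nat.cast_one, one_smul, Nat.choose_succ_self, Nat.cast_zero,
      zero_smul, sub_zero] at ha
    exact ha
  constructor
  · rcases Nat.eq_zero_or_pos i with h2 | h2
    · subst h2
      exact hE0
    · obtain ⟨j, rfl⟩ : ∃ j, i = j + 1 := ⟨i - 1, by omega⟩
      by_cases hj : j + 1 ≤ n
      · exact (hmid j hj).1
      · have : j = n := by omega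
        subst this
        exact hEn
  · rcases Nat.lt_or_ge i 2 with h2 | h2
    · interval_cases i
      · exact hF0
      · exact hF1
    · obtain ⟨j, rfl⟩ : ∃ j, i = j + 2 := ⟨i - 2, by omega⟩
      exact (hmid j (by omega)).2

theorem hom_mem {n : ℕ} (hn : 1 ≤ n)
    (p : ContinuousMultilinearMap ℂ (fun _ : Fin (n + 1) => V) V) :
    (fun x => p fun _ => x) ∈ MM (n + 1) (by omega) := by
  classical
  set e₁ : Fin (n + 1) → V := fun _ => ((1, 0) : V) with he₁
  set e₂ : Fin (n + 1) → V := fun _ => ((0, 1) : V) with he₂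
  have h1 : (fun x : V => p fun _ => x) = ∑ s : Finset (Fin (n + 1)),
      ((p (s.piecewise e₁ e₂)).1 • EE (n + 1) (sᶜ.card) +
        (p (s.piecewise e₁ e₂)).2 • FF (n + 1) (sᶜ.card)) := by
    funext x
    have h2 : (fun _ : Fin (n + 1) => x) = (fun i => x.1 • e₁ i) + (fun i => x.2 • e₂ i) := by
      funext i
      ext <;> simp [he₁, he₂]
    rw [h2, p.map_add_univ, Finset.sum_apply]
    refine Finset.sum_congr rfl fun s _ => ?_
    have h3 : (s.piecewise (fun i => x.1 • e₁ i) fun i => x.2 • e₂ i) =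
        fun i => (if i ∈ s then x.1 else x.2) • (s.piecewise e₁ e₂) i := by
      funext i
      by_cases hi : i ∈ s
      · simp [hi]
      · simp [hi]
    rw [h3, p.map_smul_univ]
    have h4 : (∏ i : Fin (n + 1), (if i ∈ s then x.1 else x.2)) = x.1 ^ s.card * x.2 ^ sᶜ.card := by
      rw [Finset.prod_ite, Finset.prod_const, Finset.prod_const]
      congr 2
      · congr 1
        ext i
        simp
      · congr 1
        ext i
        simp
    have h5 : n + 1 - sᶜ.card = s.card := by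
      have := Finset.card_compl s
      rw [Fintype.card_fin] at this
      have h6 : s.card ≤ n + 1 := by
        have := Finset.card_le_univ s
        rwa [Fintype.card_fin] at this
      omega
    rw [h4]
    simp only [Pi.add_apply, Pi.smul_apply, EE, FF, h5]
    ext
    · simp only [Prod.smul_fst, Prod.fst_add, smul_eq_mul]
      ring
    · simp only [Prod.smul_snd, Prod.snd_add, smul_eq_mul]
      ring
  rw [h1]
  refine Submodule.sum_mem _ fun s _ => Submodule.add_mem _ (Submodule.smul_mem _ _ ?_)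
    (Submodule.smul_mem _ _ ?_)
  · refine (EF_mem hn _ ?_).1
    have := Finset.card_le_univ sᶜ
    rwa [Fintype.card_fin] at this
  · refine (EF_mem hn _ ?_).2
    have := Finset.card_le_univ sᶜ
    rwa [Fintype.card_fin] at this

/-- the leading homogeneous part -/
theorem exists_leading {n : ℕ} (hn : 1 ≤ n) {f : V → V} (hf : AnalyticAt ℂ f 0)
    (ho : f =O[𝓝 0] fun x => ‖x‖ ^ (n + 1)) :
    ∃ H ∈ MM (n + 1) (by omega), (fun x => f x - H x) =O[𝓝 0] fun x => ‖x‖ ^ (n + 2) := by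
  obtain ⟨p, hp⟩ := hf
  have hb : ∀ k, (fun y : V => f y - p.partialSum k y) =O[𝓝 0] fun y => ‖y‖ ^ k := by
    intro k
    have := hp.isBigO_sub_partialSum_pow k
    simpa only [zero_add] using this
  have h1 : ∀ k, k < n + 1 → ∀ y, (p k fun _ => y) = 0 := by
    intro k
    induction k using Nat.strong_induction_on with
    | _ k ih =>
      intro hk y
      refine IsBigO.continuousMultilinearMap_apply_eq_zero (p := p k) ?_ y
      have h2 : (fun y : V => f y - (p k fun _ => y)) =O[𝓝 0] fun y => ‖y‖ ^ (k + 1) := by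
        refine (hb (k + 1)).congr_left fun y => ?_
        rw [FormalMultilinearSeries.partialSum, Finset.sum_range_succ, Finset.sum_eq_zero, zero_add]
        intro j hj
        exact ih j (Finset.mem_range.1 hj) (by have := Finset.mem_range.1 hj; omega) y
      have h3 : f =O[𝓝 0] fun x => ‖x‖ ^ (k + 1) := ho.trans (bigO_norm_pow_le (by omega))
      refine (h3.sub h2).congr_left fun y => ?_
      simp
  refine ⟨_, hom_mem hn (p (n + 1)), ?_⟩
  refine (hb (n + 2)).congr_left fun y => ?_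
  rw [FormalMultilinearSeries.partialSum, Finset.sum_range_succ, Finset.sum_eq_zero, zero_add]
  intro j hj
  exact h1 j (Finset.mem_range.1 hj) y

theorem tendsto_of_zero {f : V → V} (hf : AnalyticAt ℂ f 0) (h0 : f 0 = 0) :
    Tendsto f (𝓝 0) (𝓝 0) := by
  have := hf.continuousAt.tendsto
  rwa [h0] at this

/-- Every jet of a locally biholomorphic map is the jet of a birational map. -/
theorem exists_cremona {s : V → V} (hs : Loc s 0) (hs0 : s 0 = 0) (n : ℕ) :
    ∃ τ, Cr τ ∧ (fun x => τ x - s x) =O[𝓝 0] fun x => ‖x‖ ^ (n + 2) := by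
  induction n with
  | zero =>
    refine ⟨fderiv ℂ s 0, cr_linear hs.2, ?_⟩
    obtain ⟨L, hL, hL0, hLs⟩ := hadamard hs.1 hs0
    have h1 : (fun x => L x - L 0) =O[𝓝 0] fun x : V => x - 0 := hL.differentiableAt.isBigO_sub
    obtain ⟨C, hC0, hC⟩ := h1.exists_nonneg
    rw [isBigOWith_iff] at hC
    refine IsBigO.of_bound C ?_
    filter_upwards [hC, hLs] with x h2 h3
    rw [h3, ← hL0, norm_sub_rev, ← sub_apply, Real.norm_of_nonneg (by positivity)]
    rw [sub_zero] at h2
    refine ((L x - L 0).le_opNorm x).trans ?_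
    calc ‖L x - L 0‖ * ‖x‖ ≤ (C * ‖x‖) * ‖x‖ := by gcongr
      _ = _ := by ring
  | succ n ih =>
    obtain ⟨τ, hτ, ho⟩ := ih
    obtain ⟨ι, hι, hι0, hιl, hιr⟩ := hτ.1.exists_inv
    rw [hτ.2.1] at hι hι0 hιr
    have hst := tendsto_of_zero hs.1 hs0
    have hτt := tendsto_of_zero hτ.1.1 hτ.2.1
    have hιt := tendsto_of_zero hι.1 hι0
    set ρ : V → V := fun x => ι (s x) with hρ
    have hρa : AnalyticAt ℂ ρ 0 := AnalyticAt.fun_comp (by rw [hs0]; exact hι.1) hs.1
    obtain ⟨C, r, hC, hr, hlip⟩ := lip_loc hι.1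
    have hbr : ∀ᶠ x in 𝓝 (0 : V), ‖x‖ < r := by
      filter_upwards [Metric.ball_mem_nhds (0 : V) hr] with x hx
      simpa using hx
    have h1 : (fun x => ρ x - x) =O[𝓝 0] fun x => ‖x‖ ^ (n + 1 + 1) := by
      have h2 : (fun x => ρ x - x) =O[𝓝 0] fun x => τ x - s x := by
        refine IsBigO.of_bound C ?_
        filter_upwards [hιl, hst.eventually hbr, hτt.eventually hbr] with x hx1 hx2 hx3
        have h3 := hlip _ _ hx2 hx3
        rw [hx1] at h3
        rw [norm_sub_rev (τ x)]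
        exact h3
      exact h2.trans ho
    obtain ⟨H, hH, hHo⟩ := exists_leading (n := n + 1) (by omega) (hρa.sub analyticAt_id) h1
    have hH1 := hH 1
    simp only [one_smul] at hH1
    obtain ⟨hHa, hHo', κ, hκ, hκo⟩ := hH1
    have hκt := tendsto_of_zero hκ.1.1 hκ.2.1
    have hρt : Tendsto ρ (𝓝 0) (𝓝 0) := hιt.comp hst
    refine ⟨fun x => τ (κ x), hτ.comp hκ, ?_⟩
    obtain ⟨C', r', hC', hr', hlip'⟩ := lip_loc hτ.1.1
    have hbr' : ∀ᶠ x in 𝓝 (0 : V), ‖x‖ < r' := by
      filter_upwards [Metric.ball_mem_nhds (0 : V) hr'] with x hx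
      simpa using hx
    have h4 : (fun x => τ (κ x) - s x) =O[𝓝 0] fun x => κ x - ρ x := by
      refine IsBigO.of_bound C' ?_
      filter_upwards [hst.eventually hιr, hκt.eventually hbr', hρt.eventually hbr'] with x hx1 hx2 hx3
      have h5 := hlip' _ _ hx2 hx3
      simp only [hρ] at h5 ⊢
      rw [hx1] at h5
      exact h5
    refine h4.trans ?_
    have h6 := hκo.sub hHo
    refine h6.congr_left fun x => ?_
    simp only [Pi.sub_apply, id_eq]
    abel

end Pool.Agent.U157.Kato
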