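import Pool.Agent.U157.Kato.Rel

/-!
The local forms of the projections of towers of blow-ups.
-/

set_option autoImplicit false

open Filter Topology Set MvPolynomial

namespace Pool.Agent.U157.Kato

/-- lower bound for the derivative along one branch -/
def LB1 (ψ : V → V) : Prop := ∃ (C : ℝ) (k : ℕ), 0 ≤ C ∧ ∀ᶠ w : V in 𝓝 0, ∀ v,
  ‖w.1‖ ^ k * ‖v‖ ≤ C * ‖fderiv ℂ ψ w v‖

/-- lower bound for the derivative along two branches -/
def LB2 (ψ : V → V) : Prop := ∃ (C : ℝ) (k : ℕ), 0 ≤ C ∧ ∀ᶠ w : V in 𝓝 0, ∀ v,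
  (‖w.1‖ * ‖w.2‖) ^ k * ‖v‖ ≤ C * ‖fderiv ℂ ψ w v‖

/-- the charts along a chain of blow-ups with centres on the last curve only -/
def Pure (ψ : V → V) : Prop := ∃ (m : ℕ) (P : Polynomial ℂ), 1 ≤ m ∧ P.eval 0 = 0 ∧
  ((∀ w : V, ψ w = (w.1, w.1 ^ m * w.2 + P.eval w.1)) ∨
    ∀ w : V, ψ w = (w.1 ^ m * w.2 + P.eval w.1, w.1))

/-- other charts at points on one branch -/
def Imp (ψ : V → V) : Prop := ∃ C : ℝ, 0 ≤ C ∧ ∀ᶠ w : V in 𝓝 0, ‖ψ w‖ ≤ C * (‖w.1‖ * ‖w‖)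

/-- charts at nodes -/
def Two (ψ : V → V) : Prop := ∃ C : ℝ, 0 ≤ C ∧ ∀ᶠ w : V in 𝓝 0, ‖ψ w‖ ≤ C * (‖w.1‖ * ‖w.2‖)

/-- the three kinds of charts -/
def Kind (ψ : V → V) : Prop := (Pure ψ ∧ LB1 ψ) ∨ (Imp ψ ∧ LB1 ψ) ∨ (Two ψ ∧ LB2 ψ)

theorem ev_small {r : ℝ} (hr : 0 < r) : ∀ᶠ w : V in 𝓝 0, ‖w.1‖ ≤ r ∧ ‖w.2‖ ≤ r := by
  have h1 : ∀ᶠ w : V in 𝓝 0, ‖w‖ < r := by
    have := Metric.ball_mem_nhds (0 : V) hr
    filter_upwards [this] with w hw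
    simpa using hw
  filter_upwards [h1] with w hw
  exact ⟨(norm_fst_le w).trans hw.le, (norm_snd_le w).trans hw.le⟩

theorem LB1.lb2 {ψ : V → V} (h : LB1 ψ) : LB2 ψ := by
  obtain ⟨C, k, hC, h⟩ := h
  refine ⟨C, k, hC, ?_⟩
  filter_upwards [h, ev_small one_pos] with w hw hw1 v
  refine le_trans ?_ (hw v)
  refine mul_le_mul_of_nonneg_right (pow_le_pow_left₀ (by positivity) ?_ k) (norm_nonneg _)
  nlinarith [norm_nonneg w.1, norm_nonneg w.2, hw1.2]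

theorem Kind.lb2 {ψ : V → V} (h : Kind ψ) : LB2 ψ := by
  rcases h with ⟨_, h⟩ | ⟨_, h⟩ | ⟨_, h⟩
  · exact h.lb2
  · exact h.lb2
  · exact h

theorem beta_zero (c : ℂ) : beta c 0 = 0 := by simp [beta]

theorem gamma_zero : gamma 0 = 0 := by simp [gamma]

theorem line_deriv' {F : Type*} [NormedAddCommGroup F] [NormedSpace ℂ F] {f : V → F} {w : V}
    (hf : DifferentiableAt ℂ f w) (v : V) :
    HasDerivAt (fun τ : ℂ => f (w + τ • v)) (fderiv ℂ f w v) 0 := by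
  have h1 : HasDerivAt (fun τ : ℂ => w + τ • v) v 0 := by
    have := ((hasDerivAt_id (0 : ℂ)).smul_const v).const_add w
    simpa using this
  have h2 : HasFDerivAt f (fderiv ℂ f w) ((fun τ : ℂ => w + τ • v) 0) := by
    simpa using hf.hasFDerivAt
  exact h2.comp_hasDerivAt 0 h1

theorem hd_lin (a b : ℂ) : HasDerivAt (fun τ : ℂ => a + τ * b) b 0 := by
  have := ((hasDerivAt_id (0 : ℂ)).mul_const b).const_add a
  simpa using this

theorem fderiv_beta (c : ℂ) (w v : V) :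
    fderiv ℂ (beta c) w v = (v.1, v.1 * (w.2 + c) + w.1 * v.2) := by
  have h1 := line_deriv' (an_beta c w).differentiableAt v
  have ha : HasDerivAt (fun τ : ℂ => (beta c (w + τ • v)).1) v.1 0 := hd_lin w.1 v.1
  have hb : HasDerivAt (fun τ : ℂ => (beta c (w + τ • v)).2) (v.1 * (w.2 + c) + w.1 * v.2) 0 := by
    have h2 : HasDerivAt (fun τ : ℂ => (w.2 + c) + τ * v.2) v.2 0 := hd_lin _ _
    have h3 := hd_mul (hd_lin w.1 v.1) h2
    have h4 : (fun τ : ℂ => (beta c (w + τ • v)).2) =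
        fun τ : ℂ => (w.1 + τ * v.1) * (w.2 + c + τ * v.2) := by
      funext τ
      simp only [beta, Prod.fst_add, Prod.snd_add, Prod.smul_fst, Prod.smul_snd, smul_eq_mul]
      ring
    rw [h4]
    simpa using h3
  exact Prod.ext ((hd_fst h1).unique ha) ((hd_snd h1).unique hb)

theorem fderiv_gamma (w v : V) :
    fderiv ℂ gamma w v = (v.1 * w.2 + w.1 * v.2, v.2) := by
  have h1 := line_deriv' (an_gamma w).differentiableAt v
  have ha : HasDerivAt (fun τ : ℂ => (gamma (w + τ • v)).2) v.2 0 := hd_lin w.2 v.2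
  have hb : HasDerivAt (fun τ : ℂ => (gamma (w + τ • v)).1) (v.1 * w.2 + w.1 * v.2) 0 := by
    have h3 := hd_mul (hd_lin w.1 v.1) (hd_lin w.2 v.2)
    have h4 : (fun τ : ℂ => (gamma (w + τ • v)).1) =
        fun τ : ℂ => (w.1 + τ * v.1) * (w.2 + τ * v.2) := by
      funext τ
      simp only [gamma, Prod.fst_add, Prod.snd_add, Prod.smul_fst, Prod.smul_snd, smul_eq_mul]
    rw [h4]
    simpa using h3
  exact Prod.ext ((hd_fst h1).unique hb) ((hd_snd h1).unique ha)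

theorem lb_beta (c : ℂ) : ∀ᶠ w : V in 𝓝 0, ∀ v, ‖w.1‖ * ‖v‖ ≤
    (3 + ‖c‖) * ‖fderiv ℂ (beta c) w v‖ := by
  filter_upwards [ev_small one_pos] with w hw v
  rw [fderiv_beta]
  set M := ‖((v.1, v.1 * (w.2 + c) + w.1 * v.2) : V)‖ with hM
  have h1 : ‖v.1‖ ≤ M := norm_fst_le ((v.1, v.1 * (w.2 + c) + w.1 * v.2) : V)
  have h2 : ‖v.1 * (w.2 + c) + w.1 * v.2‖ ≤ M :=
    norm_snd_le ((v.1, v.1 * (w.2 + c) + w.1 * v.2) : V)
  have hM0 : 0 ≤ M := norm_nonneg _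
  have h3 : ‖w.1 * v.2‖ ≤ M + ‖v.1‖ * (1 + ‖c‖) := by
    have e : w.1 * v.2 = (v.1 * (w.2 + c) + w.1 * v.2) - v.1 * (w.2 + c) := by ring
    rw [e]
    refine (norm_sub_le _ _).trans (add_le_add h2 ?_)
    rw [norm_mul]
    refine mul_le_mul_of_nonneg_left ?_ (norm_nonneg _)
    exact (norm_add_le _ _).trans (by linarith [hw.2])
  rw [norm_mul] at h3
  have h4 : ‖w.1‖ * ‖v.1‖ ≤ M := by nlinarith [norm_nonneg w.1, norm_nonneg v.1, hw.1]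
  have h5 : ‖v.1‖ * (1 + ‖c‖) ≤ M * (1 + ‖c‖) :=
    mul_le_mul_of_nonneg_right h1 (by positivity)
  rw [Prod.norm_def]
  rcases max_cases ‖v.1‖ ‖v.2‖ with ⟨h, _⟩ | ⟨h, _⟩
  · rw [h]
    nlinarith [norm_nonneg c]
  · rw [h]
    nlinarith [norm_nonneg c]

theorem lb_gamma : ∀ᶠ w : V in 𝓝 0, ∀ v, ‖w.2‖ * ‖v‖ ≤ 2 * ‖fderiv ℂ gamma w v‖ := by
  filter_upwards [ev_small one_pos] with w hw v
  rw [fderiv_gamma]
  set M := ‖((v.1 * w.2 + w.1 * v.2, v.2) : V)‖ with hM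
  have h1 : ‖v.2‖ ≤ M := norm_snd_le ((v.1 * w.2 + w.1 * v.2, v.2) : V)
  have h2 : ‖v.1 * w.2 + w.1 * v.2‖ ≤ M := norm_fst_le ((v.1 * w.2 + w.1 * v.2, v.2) : V)
  have hM0 : 0 ≤ M := norm_nonneg _
  have h3 : ‖v.1 * w.2‖ ≤ M + ‖w.1‖ * ‖v.2‖ := by
    have e : v.1 * w.2 = (v.1 * w.2 + w.1 * v.2) - w.1 * v.2 := by ring
    rw [e]
    refine (norm_sub_le _ _).trans (add_le_add h2 ?_)
    rw [norm_mul]
  rw [norm_mul] at h3
  have h4 : ‖w.1‖ * ‖v.2‖ ≤ M := by nlinarith [norm_nonneg w.1, norm_nonneg v.2, hw.1]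
  have h5 : ‖w.2‖ * ‖v.2‖ ≤ M := by nlinarith [norm_nonneg w.2, norm_nonneg v.2, hw.2]
  rw [Prod.norm_def]
  rcases max_cases ‖v.1‖ ‖v.2‖ with ⟨h, _⟩ | ⟨h, _⟩
  · rw [h]
    linarith
  · rw [h]
    linarith

theorem lb_comp {ψ δ : V → V} (hψ : ∀ w, AnalyticAt ℂ ψ w) (hδ : ∀ w, AnalyticAt ℂ δ w)
    (hδ0 : δ 0 = 0) {p q : V → ℝ} {C C' : ℝ} (hC' : 0 ≤ C') (hp : ∀ w, 0 ≤ p w)
    (h1 : ∀ᶠ w : V in 𝓝 0, ∀ v, p w * ‖v‖ ≤ C * ‖fderiv ℂ ψ w v‖)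
    (h2 : ∀ᶠ w : V in 𝓝 0, ∀ v, q w * ‖v‖ ≤ C' * ‖fderiv ℂ δ w v‖) :
    ∀ᶠ w : V in 𝓝 0, ∀ v, (p (δ w) * q w) * ‖v‖ ≤
      (C * C') * ‖fderiv ℂ (fun w => ψ (δ w)) w v‖ := by
  have h3 : Tendsto δ (𝓝 0) (𝓝 0) := by
    have := (hδ 0).continuousAt.tendsto
    rwa [hδ0] at this
  filter_upwards [h3.eventually h1, h2] with w hw1 hw2 v
  have h4 : fderiv ℂ (fun w => ψ (δ w)) w = (fderiv ℂ ψ (δ w)).comp (fderiv ℂ δ w) :=
    fderiv_comp w (hψ (δ w)).differentiableAt (hδ w).differentiableAt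
  rw [h4, ContinuousLinearMap.comp_apply]
  have h5 := hw1 (fderiv ℂ δ w v)
  have h6 := mul_le_mul_of_nonneg_left (hw2 v) (hp (δ w))
  have h7 := mul_le_mul_of_nonneg_left h5 hC'
  calc p (δ w) * q w * ‖v‖ = p (δ w) * (q w * ‖v‖) := by ring
    _ ≤ p (δ w) * (C' * ‖fderiv ℂ δ w v‖) := h6
    _ = C' * (p (δ w) * ‖fderiv ℂ δ w v‖) := by ring
    _ ≤ C' * (C * ‖fderiv ℂ ψ (δ w) (fderiv ℂ δ w v)‖) := h7
    _ = _ := by ring

theorem tendsto_beta (c : ℂ) : Tendsto (beta c) (𝓝 0) (𝓝 0) := by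
  have := (an_beta c 0).continuousAt.tendsto
  rwa [beta_zero] at this

theorem tendsto_gamma : Tendsto gamma (𝓝 0) (𝓝 0) := by
  have := (an_gamma 0).continuousAt.tendsto
  rwa [gamma_zero] at this

theorem LB1.beta {ψ : V → V} (hψ : ∀ w, AnalyticAt ℂ ψ w) (h : LB1 ψ) (c : ℂ) :
    LB1 (fun w => ψ (beta c w)) := by
  obtain ⟨C, k, hC, h⟩ := h
  refine ⟨C * (3 + ‖c‖), k + 1, by positivity, ?_⟩
  have h1 := lb_comp hψ (an_beta c) (beta_zero c) (p := fun w => ‖w.1‖ ^ k)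
    (q := fun w => ‖w.1‖) (by positivity) (fun w => by positivity) h (lb_beta c)
  filter_upwards [h1] with w hw v
  refine le_trans (le_of_eq ?_) (hw v)
  simp only [Pool.Agent.U157.Kato.beta]
  ring

theorem LB1.gamma {ψ : V → V} (hψ : ∀ w, AnalyticAt ℂ ψ w) (h : LB1 ψ) :
    LB2 (fun w => ψ (gamma w)) := by
  obtain ⟨C, k, hC, h⟩ := h
  refine ⟨C * 2, k + 1, by positivity, ?_⟩
  have h1 := lb_comp hψ an_gamma gamma_zero (p := fun w => ‖w.1‖ ^ k)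
    (q := fun w => ‖w.2‖) (by positivity) (fun w => by positivity) h lb_gamma
  filter_upwards [h1, ev_small one_pos] with w hw hw1 v
  refine le_trans ?_ (hw v)
  simp only [Pool.Agent.U157.Kato.gamma]
  refine mul_le_mul_of_nonneg_right ?_ (norm_nonneg _)
  rw [norm_mul, pow_succ]
  refine mul_le_mul_of_nonneg_left ?_ (by positivity)
  nlinarith [norm_nonneg w.1, norm_nonneg w.2, hw1.1]

theorem LB2.gamma {ψ : V → V} (hψ : ∀ w, AnalyticAt ℂ ψ w) (h : LB2 ψ) :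
    LB2 (fun w => ψ (gamma w)) := by
  obtain ⟨C, k, hC, h⟩ := h
  refine ⟨C * 2, 2 * k + 1, by positivity, ?_⟩
  have h1 := lb_comp hψ an_gamma gamma_zero (p := fun w => (‖w.1‖ * ‖w.2‖) ^ k)
    (q := fun w => ‖w.2‖) (by positivity) (fun w => by positivity) h lb_gamma
  filter_upwards [h1, ev_small one_pos] with w hw hw1 v
  refine le_trans ?_ (hw v)
  simp only [Pool.Agent.U157.Kato.gamma]
  refine mul_le_mul_of_nonneg_right ?_ (norm_nonneg _)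
  rw [norm_mul, pow_succ, pow_mul]
  have h2 : (‖w.1‖ * ‖w.2‖) ^ 2 ≤ ‖w.1‖ * ‖w.2‖ * ‖w.2‖ := by
    have : 0 ≤ ‖w.1‖ * ‖w.2‖ * ‖w.2‖ := by positivity
    nlinarith [norm_nonneg w.1, norm_nonneg w.2, hw1.1]
  have h3 : ‖w.1‖ * ‖w.2‖ ≤ ‖w.2‖ := by nlinarith [norm_nonneg w.1, norm_nonneg w.2, hw1.1]
  exact mul_le_mul (pow_le_pow_left₀ (by positivity) h2 k) h3 (by positivity) (by positivity)

theorem LB2.beta0 {ψ : V → V} (hψ : ∀ w, AnalyticAt ℂ ψ w) (h : LB2 ψ) :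
    LB2 (fun w => ψ (beta 0 w)) := by
  obtain ⟨C, k, hC, h⟩ := h
  refine ⟨C * (3 + ‖(0 : ℂ)‖), 2 * k + 1, by positivity, ?_⟩
  have h1 := lb_comp hψ (an_beta 0) (beta_zero 0) (p := fun w => (‖w.1‖ * ‖w.2‖) ^ k)
    (q := fun w => ‖w.1‖) (by positivity) (fun w => by positivity) h (lb_beta 0)
  filter_upwards [h1, ev_small one_pos] with w hw hw1 v
  refine le_trans ?_ (hw v)
  simp only [Pool.Agent.U157.Kato.beta]
  refine mul_le_mul_of_nonneg_right ?_ (norm_nonneg _)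
  rw [norm_mul, pow_succ, pow_mul, add_zero]
  have h2 : (‖w.1‖ * ‖w.2‖) ^ 2 ≤ ‖w.1‖ * (‖w.1‖ * ‖w.2‖) := by
    have : 0 ≤ ‖w.1‖ * (‖w.1‖ * ‖w.2‖) := by positivity
    nlinarith [norm_nonneg w.1, norm_nonneg w.2, hw1.2]
  have h3 : ‖w.1‖ * ‖w.2‖ ≤ ‖w.1‖ := by nlinarith [norm_nonneg w.1, norm_nonneg w.2, hw1.2]
  exact mul_le_mul (pow_le_pow_left₀ (by positivity) h2 k) h3 (by positivity) (by positivity)

theorem LB2.beta {ψ : V → V} (hψ : ∀ w, AnalyticAt ℂ ψ w) (h : LB2 ψ) {c : ℂ} (hc : c ≠ 0) :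
    LB1 (fun w => ψ (beta c w)) := by
  obtain ⟨C, k, hC, h⟩ := h
  have hc0 : 0 < ‖c‖ := norm_pos_iff.2 hc
  have hD : 0 < (‖c‖ / 2) ^ k := by positivity
  refine ⟨C * (3 + ‖c‖) / (‖c‖ / 2) ^ k, 2 * k + 1, by positivity, ?_⟩
  have h1 := lb_comp hψ (an_beta c) (beta_zero c) (p := fun w => (‖w.1‖ * ‖w.2‖) ^ k)
    (q := fun w => ‖w.1‖) (by positivity) (fun w => by positivity) h (lb_beta c)
  filter_upwards [h1, ev_small one_pos, ev_small (half_pos hc0)] with w hw hw1 hw2 v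
  rw [div_mul_eq_mul_div, le_div_iff₀ hD]
  refine le_trans ?_ (hw v)
  simp only [Pool.Agent.U157.Kato.beta]
  have h2 : ‖c‖ / 2 ≤ ‖w.2 + c‖ := by
    have := norm_sub_le (w.2 + c) w.2
    rw [add_sub_cancel_left] at this
    linarith [hw2.2]
  have h3 : (‖c‖ / 2) ^ k * (‖w.1‖ ^ 2) ^ k ≤ (‖w.1‖ * ‖w.1 * (w.2 + c)‖) ^ k := by
    rw [← mul_pow, norm_mul]
    refine pow_le_pow_left₀ (by positivity) ?_ k
    nlinarith [norm_nonneg w.1, sq_nonneg ‖w.1‖]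
  calc ‖w.1‖ ^ (2 * k + 1) * ‖v‖ * (‖c‖ / 2) ^ k
      = ((‖c‖ / 2) ^ k * (‖w.1‖ ^ 2) ^ k) * ‖w.1‖ * ‖v‖ := by
        rw [pow_succ, pow_mul]
        ring
    _ ≤ _ := by
        refine mul_le_mul_of_nonneg_right ?_ (norm_nonneg _)
        exact mul_le_mul_of_nonneg_right h3 (norm_nonneg _)

theorem lb1_beta (c : ℂ) : LB1 (beta c) := by
  refine ⟨3 + ‖c‖, 1, by positivity, ?_⟩
  filter_upwards [lb_beta c] with w hw v
  rw [pow_one]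
  exact hw v

theorem lb2_gamma : LB2 gamma := by
  refine ⟨2, 1, by norm_num, ?_⟩
  filter_upwards [lb_gamma, ev_small one_pos] with w hw hw1 v
  rw [pow_one]
  refine le_trans ?_ (hw v)
  refine mul_le_mul_of_nonneg_right ?_ (norm_nonneg _)
  nlinarith [norm_nonneg w.1, norm_nonneg w.2, hw1.1]

theorem poly_bound {P : Polynomial ℂ} (hP : P.eval 0 = 0) :
    ∃ C : ℝ, 0 ≤ C ∧ ∀ x : ℂ, ‖x‖ ≤ 1 → ‖P.eval x‖ ≤ C * ‖x‖ := by
  obtain ⟨Q, hQ⟩ : Polynomial.X ∣ P := by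
    rw [Polynomial.X_dvd_iff, Polynomial.coeff_zero_eq_eval_zero, hP]
  obtain ⟨C, hC⟩ := (isCompact_closedBall (0 : ℂ) 1).exists_bound_of_continuousOn
    (f := fun x => Q.eval x) Q.continuous.continuousOn
  refine ⟨max C 0, le_max_right _ _, fun x hx => ?_⟩
  rw [hQ, Polynomial.eval_mul, Polynomial.eval_X, norm_mul, mul_comm]
  refine mul_le_mul_of_nonneg_right ?_ (norm_nonneg _)
  exact (hC x (by simpa using hx)).trans (le_max_left _ _)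

theorem Pure.beta {ψ : V → V} (h : Pure ψ) (c : ℂ) : Pure (fun w => ψ (beta c w)) := by
  obtain ⟨m, P, hm, hP, h⟩ := h
  refine ⟨m + 1, P + Polynomial.C c * Polynomial.X ^ (m + 1), by omega, by simp [hP], ?_⟩
  rcases h with h | h
  · left
    intro w
    change ψ _ = _
    rw [h]
    simp only [Pool.Agent.U157.Kato.beta, Polynomial.eval_add, Polynomial.eval_mul,
      Polynomial.eval_C, Polynomial.eval_pow, Polynomial.eval_X, Prod.mk.injEq, true_and]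
    ring
  · right
    intro w
    change ψ _ = _
    rw [h]
    simp only [Pool.Agent.U157.Kato.beta, Polynomial.eval_add, Polynomial.eval_mul,
      Polynomial.eval_C, Polynomial.eval_pow, Polynomial.eval_X, Prod.mk.injEq, and_true]
    ring

theorem pure_bound {m : ℕ} {P : Polynomial ℂ} (hm : 1 ≤ m) (hP : P.eval 0 = 0) :
    ∃ C : ℝ, 0 ≤ C ∧ ∀ w : V, ‖w.1‖ ≤ 1 → ‖w.2‖ ≤ 1 →
      ‖w.1 ^ m * w.2 + P.eval w.1‖ ≤ C * ‖w.1‖ := by
  obtain ⟨C, hC, h1⟩ := poly_bound hP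
  refine ⟨1 + C, by positivity, fun w hw1 hw2 => ?_⟩
  refine (norm_add_le _ _).trans ?_
  rw [add_mul, one_mul]
  refine add_le_add ?_ (h1 _ hw1)
  rw [norm_mul, norm_pow]
  have h2 : ‖w.1‖ ^ m ≤ ‖w.1‖ := pow_le_of_le_one (norm_nonneg _) hw1 (by omega)
  nlinarith [norm_nonneg w.1, norm_nonneg w.2, pow_nonneg (norm_nonneg w.1) m]

theorem Pure.gamma {ψ : V → V} (h : Pure ψ) : Two (fun w => ψ (gamma w)) := by
  obtain ⟨m, P, hm, hP, h⟩ := h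
  obtain ⟨C, hC, h1⟩ := pure_bound hm hP
  refine ⟨1 + C, by positivity, ?_⟩
  filter_upwards [ev_small one_pos] with w hw
  have h2 : ‖w.1 * w.2‖ ≤ 1 := by
    rw [norm_mul]
    nlinarith [norm_nonneg w.1, norm_nonneg w.2, hw.1, hw.2]
  have h3 := h1 (Pool.Agent.U157.Kato.gamma w) h2 hw.2
  have h4 : ‖(Pool.Agent.U157.Kato.gamma w).1‖ = ‖w.1‖ * ‖w.2‖ := norm_mul _ _
  rw [h4] at h3
  have h5 : 0 ≤ ‖w.1‖ * ‖w.2‖ := by positivity
  rcases h with h | h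
  · rw [h]
    refine max_le ?_ ?_
    · change ‖(Pool.Agent.U157.Kato.gamma w).1‖ ≤ _
      rw [h4]
      nlinarith
    · refine h3.trans ?_
      nlinarith
  · rw [h]
    refine max_le ?_ ?_
    · refine h3.trans ?_
      nlinarith
    · change ‖(Pool.Agent.U157.Kato.gamma w).1‖ ≤ _
      rw [h4]
      nlinarith

theorem norm_beta_le (c : ℂ) {w : V} (hw : ‖w.2‖ ≤ 1) : ‖beta c w‖ ≤ (2 + ‖c‖) * ‖w.1‖ := by
  refine max_le ?_ ?_
  · change ‖w.1‖ ≤ _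
    nlinarith [norm_nonneg w.1, norm_nonneg c]
  · change ‖w.1 * (w.2 + c)‖ ≤ _
    rw [norm_mul, mul_comm]
    refine mul_le_mul_of_nonneg_right ?_ (norm_nonneg _)
    exact (norm_add_le _ _).trans (by linarith)

theorem norm_gamma_le {w : V} (hw : ‖w.1‖ ≤ 1) : ‖gamma w‖ ≤ ‖w.2‖ := by
  refine max_le ?_ le_rfl
  change ‖w.1 * w.2‖ ≤ _
  rw [norm_mul]
  nlinarith [norm_nonneg w.1, norm_nonneg w.2]

theorem Imp.beta {ψ : V → V} (h : Imp ψ) (c : ℂ) : Imp (fun w => ψ (beta c w)) := by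
  obtain ⟨C, hC, h⟩ := h
  refine ⟨C * (2 + ‖c‖), by positivity, ?_⟩
  filter_upwards [(tendsto_beta c).eventually h, ev_small one_pos] with w hw hw1
  refine hw.trans ?_
  have h1 := norm_beta_le c hw1.2
  have h2 : ‖w.1‖ ≤ ‖w‖ := norm_fst_le w
  change C * (‖w.1‖ * ‖Pool.Agent.U157.Kato.beta c w‖) ≤ _
  calc C * (‖w.1‖ * ‖Pool.Agent.U157.Kato.beta c w‖) ≤ C * (‖w.1‖ * ((2 + ‖c‖) * ‖w‖)) := by
        gcongr
        exact h1.trans (mul_le_mul_of_nonneg_left h2 (by positivity))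
    _ = _ := by ring

theorem Imp.gamma {ψ : V → V} (h : Imp ψ) : Two (fun w => ψ (gamma w)) := by
  obtain ⟨C, hC, h⟩ := h
  refine ⟨C, hC, ?_⟩
  filter_upwards [tendsto_gamma.eventually h, ev_small one_pos] with w hw hw1
  refine hw.trans ?_
  have h1 := norm_gamma_le hw1.1
  have h2 : ‖(Pool.Agent.U157.Kato.gamma w).1‖ = ‖w.1‖ * ‖w.2‖ := norm_mul _ _
  rw [h2]
  refine mul_le_mul_of_nonneg_left ?_ hC
  have h5 : 0 ≤ ‖w.1‖ * ‖w.2‖ := by positivity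
  nlinarith [hw1.2]

theorem Two.beta {ψ : V → V} (h : Two ψ) (c : ℂ) : Imp (fun w => ψ (beta c w)) := by
  obtain ⟨C, hC, h⟩ := h
  refine ⟨C * (2 + ‖c‖), by positivity, ?_⟩
  filter_upwards [(tendsto_beta c).eventually h, ev_small one_pos] with w hw hw1
  refine hw.trans ?_
  have h1 : ‖(Pool.Agent.U157.Kato.beta c w).2‖ ≤ (2 + ‖c‖) * ‖w.1‖ :=
    (norm_snd_le _).trans (norm_beta_le c hw1.2)
  have h2 : ‖w.1‖ ≤ ‖w‖ := norm_fst_le w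
  change C * (‖w.1‖ * ‖(Pool.Agent.U157.Kato.beta c w).2‖) ≤ _
  calc C * (‖w.1‖ * ‖(Pool.Agent.U157.Kato.beta c w).2‖) ≤ C * (‖w.1‖ * ((2 + ‖c‖) * ‖w‖)) := by
        gcongr
        exact h1.trans (mul_le_mul_of_nonneg_left h2 (by positivity))
    _ = _ := by ring

theorem Two.beta0 {ψ : V → V} (h : Two ψ) : Two (fun w => ψ (Kato.beta 0 w)) := by
  obtain ⟨C, hC, h⟩ := h
  refine ⟨C, hC, ?_⟩
  filter_upwards [(tendsto_beta 0).eventually h, ev_small one_pos] with w hw hw1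
  refine hw.trans ?_
  have h2 : ‖(Pool.Agent.U157.Kato.beta 0 w).2‖ = ‖w.1‖ * ‖w.2‖ := by
    change ‖w.1 * (w.2 + 0)‖ = _
    rw [add_zero, norm_mul]
  rw [h2]
  refine mul_le_mul_of_nonneg_left ?_ hC
  change ‖w.1‖ * (‖w.1‖ * ‖w.2‖) ≤ _
  have h5 : 0 ≤ ‖w.1‖ * ‖w.2‖ := by positivity
  nlinarith [hw1.1]

theorem Two.gamma {ψ : V → V} (h : Two ψ) : Two (fun w => ψ (gamma w)) := by
  obtain ⟨C, hC, h⟩ := h
  refine ⟨C, hC, ?_⟩
  filter_upwards [tendsto_gamma.eventually h, ev_small one_pos] with w hw hw1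
  refine hw.trans ?_
  have h2 : ‖(Pool.Agent.U157.Kato.gamma w).1‖ = ‖w.1‖ * ‖w.2‖ := norm_mul _ _
  rw [h2]
  refine mul_le_mul_of_nonneg_left ?_ hC
  change ‖w.1‖ * ‖w.2‖ * ‖w.2‖ ≤ _
  have h5 : 0 ≤ ‖w.1‖ * ‖w.2‖ := by positivity
  nlinarith [hw1.2]

theorem Kind.beta {ψ : V → V} (hψ : ∀ w, AnalyticAt ℂ ψ w) (h : Kind ψ) (c : ℂ) :
    Kind (fun w => ψ (beta c w)) := by
  rcases h with ⟨h1, h2⟩ | ⟨h1, h2⟩ | ⟨h1, h2⟩
  · exact Or.inl ⟨h1.beta c, h2.beta hψ c⟩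
  · exact Or.inr (Or.inl ⟨h1.beta c, h2.beta hψ c⟩)
  · by_cases hc : c = 0
    · subst hc
      exact Or.inr (Or.inr ⟨h1.beta0, h2.beta0 hψ⟩)
    · exact Or.inr (Or.inl ⟨h1.beta c, h2.beta hψ hc⟩)

theorem Kind.gamma {ψ : V → V} (hψ : ∀ w, AnalyticAt ℂ ψ w) (h : Kind ψ) :
    Kind (fun w => ψ (gamma w)) := by
  rcases h with ⟨h1, h2⟩ | ⟨h1, h2⟩ | ⟨h1, h2⟩
  · exact Or.inr (Or.inr ⟨h1.gamma, h2.gamma hψ⟩)
  · exact Or.inr (Or.inr ⟨h1.gamma, h2.gamma hψ⟩)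
  · exact Or.inr (Or.inr ⟨h1.gamma, h2.gamma hψ⟩)

theorem kind_beta (c : ℂ) : Kind (beta c) := by
  refine Or.inl ⟨⟨1, Polynomial.C c * Polynomial.X, le_rfl, by simp, Or.inl fun w => ?_⟩,
    lb1_beta c⟩
  simp only [beta, Polynomial.eval_mul, Polynomial.eval_C, Polynomial.eval_X, pow_one,
    Prod.mk.injEq, true_and]
  ring

end Pool.Agent.U157.Kato
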