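import Pool.Agent.U157.Kato.Hada
import Pool.Agent.U157.Kato.Defs

/-!
Lifts of coordinate changes to the blow-up of the origin.
-/

set_option autoImplicit false

open Filter Topology

namespace Pool.Agent.U157.Kato

/-- the blow-up in the first chart, with the origin shifted to `(0, c)` -/
def beta (c : ℂ) (w : V) : V := (w.1, w.1 * (w.2 + c))

/-- the blow-up in the second chart -/
def gamma (w : V) : V := (w.1 * w.2, w.2)

theorem an_beta (c : ℂ) (w : V) : AnalyticAt ℂ (beta c) w :=
  analyticAt_fst.prod (analyticAt_fst.mul (analyticAt_snd.add analyticAt_const))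

theorem an_gamma (w : V) : AnalyticAt ℂ gamma w :=
  (analyticAt_fst.mul analyticAt_snd).prod analyticAt_snd

theorem an_clm {L : V → V →L[ℂ] V} {u : V → V} {x : V} (hL : AnalyticAt ℂ L x)
    (hu : AnalyticAt ℂ u x) : AnalyticAt ℂ (fun w => L w (u w)) x :=
  (ContinuousLinearMap.analyticAt_bilinear (ContinuousLinearMap.id ℂ (V →L[ℂ] V)) _).comp₂ hL hu

theorem hd_fst {f : ℂ → V} {f' : V} {x : ℂ} (h : HasDerivAt f f' x) :
    HasDerivAt (fun t => (f t).1) f'.1 x :=
  (ContinuousLinearMap.fst ℂ ℂ ℂ).hasFDerivAt.comp_hasDerivAt x h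

theorem hd_snd {f : ℂ → V} {f' : V} {x : ℂ} (h : HasDerivAt f f' x) :
    HasDerivAt (fun t => (f t).2) f'.2 x :=
  (ContinuousLinearMap.snd ℂ ℂ ℂ).hasFDerivAt.comp_hasDerivAt x h

theorem hd_mul {f g : ℂ → ℂ} {f' g' : ℂ} {x : ℂ} (hf : HasDerivAt f f' x)
    (hg : HasDerivAt g g' x) : HasDerivAt (fun t => f t * g t) (f' * g x + f x * g') x :=
  hf.mul hg

theorem hd_div {f g : ℂ → ℂ} {f' g' : ℂ} {x : ℂ} (hf : HasDerivAt f f' x)
    (hg : HasDerivAt g g' x) (h : g x ≠ 0) :
    HasDerivAt (fun t => f t / g t) ((f' * g x - f x * g') / g x ^ 2) x :=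
  hf.div hg h

/-- `g` is analytic with injective derivative at `x` -/
def Loc (g : V → V) (x : V) : Prop := AnalyticAt ℂ g x ∧ Function.Injective (fderiv ℂ g x)

theorem line_deriv {F : Type*} [NormedAddCommGroup F] [NormedSpace ℂ F] {f : V → F}
    (hf : DifferentiableAt ℂ f 0) (v : V) :
    HasDerivAt (fun τ : ℂ => f (τ • v)) (fderiv ℂ f 0 v) 0 := by
  have h1 : HasDerivAt (fun τ : ℂ => τ • v) v 0 := by
    simpa using (hasDerivAt_id (0 : ℂ)).smul_const v
  have h2 : HasFDerivAt f (fderiv ℂ f 0) ((fun τ : ℂ => τ • v) 0) := by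
    simpa using hf.hasFDerivAt
  exact h2.comp_hasDerivAt 0 h1

theorem det_ne {A : V →L[ℂ] V} (hA : Function.Injective A) (c : ℂ) :
    (A (1, c)).1 * (A (0, 1)).2 - (A (1, c)).2 * (A (0, 1)).1 ≠ 0 := by
  intro h
  set e := A (1, c) with he
  set f := A (0, 1) with hf
  have hA0 : ∀ v, A v = 0 → v = 0 := fun v hv => hA (by rw [hv, map_zero])
  have h1 : A (f.2 • ((1, c) : V) - e.2 • ((0, 1) : V)) = 0 := by
    rw [map_sub, map_smul, map_smul, ← he, ← hf]
    ext
    · simp only [Prod.fst_sub, Prod.smul_fst, smul_eq_mul, Prod.fst_zero]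
      linear_combination h
    · simp only [Prod.snd_sub, Prod.smul_snd, smul_eq_mul, Prod.snd_zero]
      ring
  have h2 : A (f.1 • ((1, c) : V) - e.1 • ((0, 1) : V)) = 0 := by
    rw [map_sub, map_smul, map_smul, ← he, ← hf]
    ext
    · simp only [Prod.fst_sub, Prod.smul_fst, smul_eq_mul, Prod.fst_zero]
      ring
    · simp only [Prod.snd_sub, Prod.smul_snd, smul_eq_mul, Prod.snd_zero]
      linear_combination -h
  have h3 := hA0 _ h1
  have h4 := hA0 _ h2
  have h5 : f.2 = 0 := by
    have := congrArg Prod.fst h3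
    simpa using this
  have h6 : e.2 = 0 := by
    have := congrArg Prod.snd h3
    simpa [h5] using this
  have h7 : f.1 = 0 := by
    have := congrArg Prod.fst h4
    simpa using this
  have h8 : e.1 = 0 := by
    have := congrArg Prod.snd h4
    simpa [h7] using this
  have h9 : ((1, c) : V) = 0 := hA0 _ (Prod.ext h8 h6)
  have := congrArg Prod.fst h9
  simp at this

theorem lift_beta {g : V → V} (hg : Loc g 0) (h0 : g 0 = 0) (c : ℂ) :
    ∃ g' : V → V, Loc g' 0 ∧ g' 0 = 0 ∧
      ((∃ c', ∀ᶠ w in 𝓝 0, g (beta c w) = beta c' (g' w)) ∨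
        ∀ᶠ w in 𝓝 0, g (beta c w) = gamma (g' w)) := by
  obtain ⟨L, hL, hL0, hLg⟩ := hadamard hg.1 h0
  set A := fderiv ℂ g 0 with hA
  -- the map `ab`
  set ab : V → V := fun w => L (beta c w) ((1, w.2 + c) : V) with hab
  have hbeta : AnalyticAt ℂ (beta c) 0 := an_beta c 0
  have hbeta0 : beta c 0 = 0 := by simp [beta]
  have haba : AnalyticAt ℂ ab 0 := by
    have h1 : AnalyticAt ℂ (fun w => L (beta c w)) 0 :=
      AnalyticAt.fun_comp (by rw [hbeta0]; exact hL) hbeta
    have h2 : AnalyticAt ℂ (fun w : V => ((1, w.2 + c) : V)) 0 :=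
      analyticAt_const.prod (analyticAt_snd.add analyticAt_const)
    exact an_clm h1 h2
  have hab0 : ab 0 = A (1, c) := by
    simp only [hab, hbeta0, hL0]
    simp
  have habg : ∀ᶠ w in 𝓝 0, g (beta c w) = w.1 • ab w := by
    have h1 : Tendsto (beta c) (𝓝 0) (𝓝 0) := by
      have := hbeta.continuousAt.tendsto
      rwa [hbeta0] at this
    filter_upwards [h1.eventually hLg] with w hw
    rw [hw]
    simp only [hab]
    rw [← map_smul]
    congr 1
    ext
    · simp [beta]
    · simp [beta]
  have hD := line_deriv haba.differentiableAt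
  have hD01 : ∀ t : ℂ, fderiv ℂ ab 0 (0, t) = t • A (0, 1) := by
    intro t
    have h1 := hD (0, t)
    have h2 : (fun τ : ℂ => ab (τ • ((0, t) : V))) = fun τ => A (1, c) + (τ * t) • A (0, 1) := by
      funext τ
      simp only [hab]
      have h3 : beta c (τ • ((0, t) : V)) = 0 := by simp [beta]
      rw [h3, hL0, ← map_smul, ← map_add]
      congr 1
      ext
      · simp
      · simp [add_comm]
    have h3 : HasDerivAt (fun τ : ℂ => A (1, c) + (τ * t) • A (0, 1)) (t • A (0, 1)) 0 := by
      have h4 : HasDerivAt (fun τ : ℂ => τ * t) t 0 := by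
        simpa using (hasDerivAt_id (0 : ℂ)).mul_const t
      exact (h4.smul_const (A (0, 1))).const_add _
    rw [h2] at h1
    exact h1.unique h3
  have hdet := det_ne hg.2 c
  rw [← hA] at hdet
  set e := A (1, c) with he
  set f := A (0, 1) with hf
  have hafst : AnalyticAt ℂ (fun w => (ab w).1) 0 := analyticAt_fst.comp haba
  have hasnd : AnalyticAt ℂ (fun w => (ab w).2) 0 := analyticAt_snd.comp haba
  by_cases he1 : e.1 = 0
  · -- the vertical direction
    have he2 : e.2 ≠ 0 := by
      intro h
      apply hdet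
      rw [he1, h]
      ring
    have hf1 : f.1 ≠ 0 := by
      intro h
      apply hdet
      rw [he1, h]
      ring
    have hne : (ab 0).2 ≠ 0 := by rw [hab0]; exact he2
    set g' : V → V := fun w => ((ab w).1 / (ab w).2, w.1 * (ab w).2) with hg'
    have hg'a : AnalyticAt ℂ g' 0 := (hafst.div hasnd hne).prod (analyticAt_fst.mul hasnd)
    have hg'0 : g' 0 = 0 := by
      simp only [hg', hab0, he1]
      simp
    refine ⟨g', ⟨hg'a, ?_⟩, hg'0, Or.inr ?_⟩
    · rw [injective_iff_map_eq_zero]
      rintro ⟨s, t⟩ hst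
      have h1 := line_deriv hg'a.differentiableAt (s, t)
      have h2 := hD (s, t)
      have h2a : HasDerivAt (fun τ : ℂ => (ab (τ • ((s, t) : V))).1) (fderiv ℂ ab 0 (s, t)).1 0 :=
        hd_fst h2
      have h2b : HasDerivAt (fun τ : ℂ => (ab (τ • ((s, t) : V))).2) (fderiv ℂ ab 0 (s, t)).2 0 :=
        hd_snd h2
      have hz : ab ((0 : ℂ) • ((s, t) : V)) = e := by rw [zero_smul, hab0]
      have h3 : HasDerivAt (fun τ : ℂ => (τ • ((s, t) : V)).1 * (ab (τ • ((s, t) : V))).2)
          (s * e.2) 0 := by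
        have h4 : HasDerivAt (fun τ : ℂ => (τ • ((s, t) : V)).1) s 0 := by
          simpa using (hasDerivAt_id (0 : ℂ)).mul_const s
        have h5 := hd_mul h4 h2b
        rw [hz] at h5
        simpa using h5
      have h4 : (fderiv ℂ g' 0 (s, t)).2 = s * e.2 := (hd_snd h1).unique h3
      rw [hst] at h4
      have hs : s = 0 := by
        rcases mul_eq_zero.1 h4.symm with h | h
        · exact h
        · exact absurd h he2
      subst hs
      have h5 : HasDerivAt (fun τ : ℂ => (ab (τ • ((0, t) : V))).1 / (ab (τ • ((0, t) : V))).2)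
          (((fderiv ℂ ab 0 (0, t)).1 * e.2 - e.1 * (fderiv ℂ ab 0 (0, t)).2) / e.2 ^ 2) 0 := by
        have h6 := hd_div h2a h2b (by rw [hz]; exact he2)
        rw [hz] at h6
        exact h6
      have h6 := (hd_fst h1).unique h5
      rw [hst, he1, hD01] at h6
      have h7 : t * f.1 * e.2 = 0 := by
        have h8 : (t * f.1 * e.2) / e.2 ^ 2 = 0 := by
          rw [Prod.fst_zero] at h6
          rw [h6]
          simp
        rcases div_eq_zero_iff.1 h8 with h | h
        · exact h
        · exact absurd h (pow_ne_zero 2 he2)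
      have ht : t = 0 := by
        rcases mul_eq_zero.1 h7 with h | h
        · rcases mul_eq_zero.1 h with h | h
          · exact h
          · exact absurd h hf1
        · exact absurd h he2
      rw [ht]
      rfl
    · filter_upwards [habg, hasnd.continuousAt.eventually_ne hne] with w hw hw2
      rw [hw]
      simp only [hg', gamma]
      ext
      · simp only [Prod.smul_fst, smul_eq_mul]
        field_simp
      · simp
  · have hne : (ab 0).1 ≠ 0 := by rw [hab0]; exact he1
    set g' : V → V := fun w => (w.1 * (ab w).1, (ab w).2 / (ab w).1 - e.2 / e.1) with hg'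
    have hg'a : AnalyticAt ℂ g' 0 :=
      (analyticAt_fst.mul hafst).prod ((hasnd.div hafst hne).sub analyticAt_const)
    have hg'0 : g' 0 = 0 := by
      simp only [hg', hab0]
      simp
    refine ⟨g', ⟨hg'a, ?_⟩, hg'0, Or.inl ⟨e.2 / e.1, ?_⟩⟩
    · rw [injective_iff_map_eq_zero]
      rintro ⟨s, t⟩ hst
      have h1 := line_deriv hg'a.differentiableAt (s, t)
      have h2 := hD (s, t)
      have h2a : HasDerivAt (fun τ : ℂ => (ab (τ • ((s, t) : V))).1) (fderiv ℂ ab 0 (s, t)).1 0 :=
        hd_fst h2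
      have h2b : HasDerivAt (fun τ : ℂ => (ab (τ • ((s, t) : V))).2) (fderiv ℂ ab 0 (s, t)).2 0 :=
        hd_snd h2
      have hz : ab ((0 : ℂ) • ((s, t) : V)) = e := by rw [zero_smul, hab0]
      have h3 : HasDerivAt (fun τ : ℂ => (τ • ((s, t) : V)).1 * (ab (τ • ((s, t) : V))).1)
          (s * e.1) 0 := by
        have h4 : HasDerivAt (fun τ : ℂ => (τ • ((s, t) : V)).1) s 0 := by
          simpa using (hasDerivAt_id (0 : ℂ)).mul_const s
        have h5 := hd_mul h4 h2a
        rw [hz] at h5
        simpa using h5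
      have h4 : (fderiv ℂ g' 0 (s, t)).1 = s * e.1 := (hd_fst h1).unique h3
      rw [hst] at h4
      have hs : s = 0 := by
        rcases mul_eq_zero.1 h4.symm with h | h
        · exact h
        · exact absurd h he1
      subst hs
      have h5 : HasDerivAt (fun τ : ℂ => (ab (τ • ((0, t) : V))).2 / (ab (τ • ((0, t) : V))).1 -
          e.2 / e.1)
          (((fderiv ℂ ab 0 (0, t)).2 * e.1 - e.2 * (fderiv ℂ ab 0 (0, t)).1) / e.1 ^ 2) 0 := by
        have h6 := hd_div h2b h2a (by rw [hz]; exact he1)
        rw [hz] at h6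
        exact h6.sub_const _
      have h6 := (hd_snd h1).unique h5
      rw [hst, hD01] at h6
      have h7 : t * (e.1 * f.2 - e.2 * f.1) = 0 := by
        rw [Prod.snd_zero] at h6
        have h8 : (t * (e.1 * f.2 - e.2 * f.1)) / e.1 ^ 2 = 0 := by
          rw [h6]
          congr 1
          simp only [Prod.smul_fst, Prod.smul_snd, smul_eq_mul]
          ring
        rcases div_eq_zero_iff.1 h8 with h | h
        · exact h
        · exact absurd h (pow_ne_zero 2 he1)
      have ht : t = 0 := by
        rcases mul_eq_zero.1 h7 with h | h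
        · exact h
        · exact absurd h hdet
      rw [ht]
      rfl
    · filter_upwards [habg, hafst.continuousAt.eventually_ne hne] with w hw hw2
      rw [hw]
      simp only [hg', beta]
      ext
      · simp
      · simp only [Prod.smul_snd, smul_eq_mul]
        field_simp
        ring

end Pool.Agent.U157.Kato
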