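import Pool.Agent.U157.Kato.Jet
import Pool.Agent.U157.Kato.Conj

/-!
Contracting germs which are compositions of a tower of blow-ups and a locally biholomorphic map are
conjugate to birational germs: the case when the multiplier vanishes.
-/

set_option autoImplicit false

open Filter Topology Set Asymptotics

namespace Pool.Agent.U157.Kato

theorem lb_comp' {ψ δ : V → V} (hψ : AnalyticAt ℂ ψ 0) (hδ : AnalyticAt ℂ δ 0)
    (hδ0 : δ 0 = 0) {p : V → ℝ} {C c : ℝ} (hp : ∀ w, 0 ≤ p w) (hc : 0 < c)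
    (h1 : ∀ᶠ w : V in 𝓝 0, ∀ v, p w * ‖v‖ ≤ C * ‖fderiv ℂ ψ w v‖)
    (h2 : ∀ᶠ w : V in 𝓝 0, ∀ v, c * ‖v‖ ≤ ‖fderiv ℂ δ w v‖) :
    ∀ᶠ w : V in 𝓝 0, ∀ v, p (δ w) * ‖v‖ ≤ (C / c) * ‖fderiv ℂ (fun w => ψ (δ w)) w v‖ := by
  have h3 : Tendsto δ (𝓝 0) (𝓝 0) := tendsto_of_zero hδ hδ0
  filter_upwards [h3.eventually h1, h2, h3.eventually hψ.eventually_analyticAt,
    hδ.eventually_analyticAt] with w hw1 hw2 hw3 hw4 v
  have h4 : fderiv ℂ (fun w => ψ (δ w)) w = (fderiv ℂ ψ (δ w)).comp (fderiv ℂ δ w) :=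
    fderiv_comp w hw3.differentiableAt hw4.differentiableAt
  rw [h4, ContinuousLinearMap.comp_apply]
  have h5 := hw1 (fderiv ℂ δ w v)
  have h6 := mul_le_mul_of_nonneg_left (hw2 v) (hp (δ w))
  rw [div_mul_eq_mul_div, le_div_iff₀ hc]
  linarith

theorem loc_lower {s : V → V} (hs : Loc s 0) : ∃ c : ℝ, 0 < c ∧
    ∀ᶠ w : V in 𝓝 0, ∀ v, c * ‖v‖ ≤ ‖fderiv ℂ s w v‖ := by
  obtain ⟨A, hA⟩ := exists_cle hs.2
  obtain ⟨K, hK, hK1⟩ : ∃ K : ℝ, 0 < K ∧ ∀ v, ‖v‖ ≤ K * ‖A v‖ := by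
    refine ⟨‖(A.symm : V →L[ℂ] V)‖ + 1, by positivity, fun v => ?_⟩
    have h1 := (A.symm : V →L[ℂ] V).le_opNorm (A v)
    have h2 : (A.symm : V →L[ℂ] V) (A v) = v := A.symm_apply_apply v
    rw [h2] at h1
    nlinarith [norm_nonneg (A v)]
  refine ⟨1 / (2 * K), by positivity, ?_⟩
  have h3 : ContinuousAt (fderiv ℂ s) 0 := hs.1.fderiv.continuousAt
  have h4 : ∀ᶠ w in 𝓝 (0 : V), dist (fderiv ℂ s w) (fderiv ℂ s 0) < 1 / (2 * K) :=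
    Metric.tendsto_nhds.1 h3 _ (by positivity)
  filter_upwards [h4] with w hw v
  rw [dist_eq_norm] at hw
  have h5 : ‖A v‖ ≤ ‖fderiv ℂ s w v‖ + ‖(fderiv ℂ s w - fderiv ℂ s 0) v‖ := by
    have h6 : A v = fderiv ℂ s w v - (fderiv ℂ s w - fderiv ℂ s 0) v := by
      rw [sub_apply, sub_sub_cancel]
      exact DFunLike.congr_fun hA v
    rw [h6]
    exact norm_sub_le _ _
  have h7 := (fderiv ℂ s w - fderiv ℂ s 0).le_opNorm v
  have h8 := hK1 v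
  have h9 : ‖fderiv ℂ s w - fderiv ℂ s 0‖ * ‖v‖ ≤ 1 / (2 * K) * ‖v‖ :=
    mul_le_mul_of_nonneg_right hw.le (norm_nonneg _)
  have h10 : 1 / (2 * K) * ‖v‖ + 1 / (2 * K) * ‖v‖ = ‖v‖ / K := by
    field_simp
    ring
  have h11 : ‖v‖ / K ≤ ‖A v‖ := by
    rw [div_le_iff₀ hK]
    linarith
  linarith

theorem eventually_norm_le {s : V → V} (hs : AnalyticAt ℂ s 0) (hs0 : s 0 = 0) :
    ∃ C : ℝ, 0 ≤ C ∧ ∀ᶠ x : V in 𝓝 0, ‖s x‖ ≤ C * ‖x‖ := by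
  obtain ⟨C, hC, h⟩ := (bigO_self hs hs0).exists_nonneg
  rw [isBigOWith_iff] at h
  refine ⟨C, hC, ?_⟩
  filter_upwards [h] with x hx
  simpa using hx

/-- birationality of compositions -/
theorem bir_comp_loc {ψ τ : V → V} (hψ : ∀ w, AnalyticAt ℂ ψ w) (hb : Bir ψ) (hlb : LB2 ψ)
    (hτ : Cr τ) : Bir (fun x => ψ (τ x)) := by
  have hψc : Continuous ψ := continuous_iff_continuousAt.2 fun w => (hψ w).continuousAt
  obtain ⟨Wa, hWa, h0a, ra, ra'⟩ := hb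
  obtain ⟨hl, hl0, Wb, hWb, h0b, rb, rb'⟩ := hτ
  obtain ⟨W₁, hW₁, h01, q1, c1⟩ := qo_of_loc hl
  obtain ⟨W₂, hW₂, h02, q2⟩ := qo_of_lb hψ hlb
  have hWo : IsOpen ((W₁ ∩ τ ⁻¹' (Wa ∩ W₂)) ∩ Wb) :=
    (c1.isOpen_inter_preimage hW₁ (hWa.inter hW₂)).inter hWb
  set W : Set V := (W₁ ∩ τ ⁻¹' (Wa ∩ W₂)) ∩ Wb with hW
  have h0 : (0 : V) ∈ W := ⟨⟨h01, by rw [mem_preimage, hl0]; exact ⟨h0a, h02⟩⟩, h0b⟩
  have q3 : QO (fun x => ψ (τ x)) W := by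
    refine QO.comp q2 (fun O hO hOo hne => ?_) hW₂
    have h1 := q1 O (hO.trans fun x hx => hx.1.1) hOo hne
    refine h1.mono fun y hy => ⟨hy, ?_⟩
    obtain ⟨x, hx, rfl⟩ := interior_subset hy
    exact (hO hx).1.2.2
  refine ⟨W, hWo, h0, ?_, ?_⟩
  · have r1 : Rel (fun w => ψ (τ w)) (fun w => id (τ w)) W := ra.comp (fun w hw => hw.1.2.1)
    have r2 : Rel τ id W := rb.mono (fun w hw => hw.2)
    exact Rel.trans hWo ⟨0, h0⟩ (hψc.comp_continuousOn (c1.mono fun w hw => hw.1.1)) q3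
      (q1.mono fun w hw => hw.1.1) r1 r2
  · have r1 : Rel (fun w => id (τ w)) (fun w => ψ (τ w)) W := ra'.comp (fun w hw => hw.1.2.1)
    have r2 : Rel id τ W := rb'.mono (fun w hw => hw.2)
    exact Rel.trans hWo ⟨0, h0⟩ continuous_id.continuousOn (qo_id W)
      (q1.mono fun w hw => hw.1.1) r2 r1

/-- The germ is conjugate to a birational germ under estimates. -/
theorem normal_of_estimates {F s ψ : V → V} {p : V → ℂ} (hs : Loc s 0) (hs0 : s 0 = 0)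
    (hψ : ∀ w, AnalyticAt ℂ ψ w) (hψ0 : ψ 0 = 0) (hbir : Bir ψ) (hlb : LB2 ψ)
    (hF : ∀ᶠ x in 𝓝 0, F x = ψ (s x)) (hp : AnalyticAt ℂ p 0) (hp0 : p 0 = 0) {C : ℝ} {k : ℕ}
    (h1 : ∀ᶠ w in 𝓝 (0 : V), ‖ψ w‖ ≤ C * ‖p w‖)
    (h2 : ∀ᶠ w in 𝓝 (0 : V), ∀ v, ‖p w‖ ^ k * ‖v‖ ≤ C * ‖fderiv ℂ ψ w v‖)
    (h3 : ∀ᶠ w in 𝓝 (0 : V), ‖p (s (ψ w))‖ ≤ C * ‖p w‖ * ‖w‖) :
    ∃ ξ F' : V → V, Loc ξ 0 ∧ ξ 0 = 0 ∧ Bir F' ∧ ∀ᶠ x in 𝓝 0, ξ (F x) = F' (ξ x) := by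
  obtain ⟨ι, hι, hι0, hιl, hιr⟩ := hs.exists_inv
  rw [hs0] at hι hι0 hιr
  obtain ⟨τ, hτ, hτo⟩ := exists_cremona hs hs0 (3 * k + 6)
  have hst := tendsto_of_zero hs.1 hs0
  have hιt := tendsto_of_zero hι.1 hι0
  have hτt := tendsto_of_zero hτ.1.1 hτ.2.1
  have hψt := tendsto_of_zero (hψ 0) hψ0
  obtain ⟨c, hc, hsc⟩ := loc_lower hs
  obtain ⟨D, hD, hsD⟩ := eventually_norm_le hs.1 hs0
  set α : V → V := fun x => ι (τ x) with hα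
  have hαl : Loc α 0 := Loc.comp (by rw [hτ.2.1]; exact hι) hτ.1
  have hα0 : α 0 = 0 := by simp only [hα, hτ.2.1, hι0]
  have hαt := tendsto_of_zero hαl.1 hα0
  set F₁ : V → V := fun x => ψ (s x) with hF₁
  have hF₁a : AnalyticAt ℂ F₁ 0 := AnalyticAt.fun_comp (hψ _) hs.1
  have hF₁0 : F₁ 0 = 0 := by simp only [hF₁, hs0, hψ0]
  have hF₁t := tendsto_of_zero hF₁a hF₁0
  set h : V → ℂ := fun x => p (s x) with hh
  have hha : AnalyticAt ℂ h 0 := AnalyticAt.fun_comp (by rw [hs0]; exact hp) hs.1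
  have hh0 : h 0 = 0 := by simp only [hh, hs0, hp0]
  -- estimates
  obtain ⟨L, r, hL, hr, hlip⟩ := lip_loc hι.1
  have hbr : ∀ᶠ x in 𝓝 (0 : V), ‖x‖ < r := by
    filter_upwards [Metric.ball_mem_nhds (0 : V) hr] with x hx
    simpa using hx
  obtain ⟨B, hB, hτB⟩ := hτo.exists_nonneg
  rw [isBigOWith_iff] at hτB
  set K := max (max C (C * D)) (max (C / c) (L * B)) with hK
  have hK1 : C ≤ K := (le_max_left _ _).trans (le_max_left _ _)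
  have hK2 : C * D ≤ K := (le_max_right _ _).trans (le_max_left _ _)
  have hK3 : C / c ≤ K := (le_max_left _ _).trans (le_max_right _ _)
  have hK4 : L * B ≤ K := (le_max_right _ _).trans (le_max_right _ _)
  have ha : ∀ᶠ x in 𝓝 (0 : V), ‖F₁ x‖ ≤ K * ‖h x‖ := by
    filter_upwards [hst.eventually h1] with x hx
    exact hx.trans (mul_le_mul_of_nonneg_right hK1 (norm_nonneg _))
  have hb : ∀ᶠ x in 𝓝 (0 : V), ‖h (F₁ x)‖ ≤ K * ‖h x‖ * ‖x‖ := by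
    by_cases hC : 0 ≤ C
    · filter_upwards [hst.eventually h3, hsD] with x hx1 hx2
      refine hx1.trans ?_
      calc C * ‖p (s x)‖ * ‖s x‖ ≤ C * ‖p (s x)‖ * (D * ‖x‖) := by gcongr
        _ = (C * D) * ‖h x‖ * ‖x‖ := by ring
        _ ≤ _ := by gcongr
    · push Not at hC
      filter_upwards [hst.eventually h3] with x hx1
      have h4 : C * ‖p (s x)‖ * ‖s x‖ ≤ 0 := by
        have : 0 ≤ ‖p (s x)‖ * ‖s x‖ := by positivity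
        nlinarith
      have h5 : ‖h (F₁ x)‖ ≤ 0 := hx1.trans h4
      have h6 : 0 ≤ K := (mul_nonneg hL hB).trans hK4
      exact h5.trans (by positivity)
  have hc' : ∀ᶠ x in 𝓝 (0 : V), ∀ v, ‖h x‖ ^ k * ‖v‖ ≤ K * ‖fderiv ℂ F₁ x v‖ := by
    have h4 := lb_comp' (hψ 0) hs.1 hs0 (p := fun w => ‖p w‖ ^ k) (fun w => by positivity) hc h2 hsc
    filter_upwards [h4] with x hx v
    exact (hx v).trans (mul_le_mul_of_nonneg_right hK3 (norm_nonneg _))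
  have hd : ∀ᶠ x in 𝓝 (0 : V), ‖α x - x‖ ≤ K * ‖x‖ ^ (3 * k + 8) := by
    filter_upwards [hιl, hτt.eventually hbr, hst.eventually hbr, hτB] with x hx1 hx2 hx3 hx4
    have h5 := hlip _ _ hx2 hx3
    rw [hx1] at h5
    refine h5.trans ?_
    have h6 : ‖τ x - s x‖ ≤ B * ‖x‖ ^ (3 * k + 8) := by
      simpa using hx4
    calc L * ‖τ x - s x‖ ≤ L * (B * ‖x‖ ^ (3 * k + 8)) := by gcongr
      _ = (L * B) * ‖x‖ ^ (3 * k + 8) := by ring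
      _ ≤ _ := by gcongr
  obtain ⟨δ, hδ, hδ0, hδ1, hconj⟩ := exists_conj hF₁a hαl.1 hha hh0 ha hb hc' hd
  set φ : V → V := fun x => x + δ x with hφ
  have hφa : AnalyticAt ℂ φ 0 := analyticAt_id.add hδ
  have hφ0 : φ 0 = 0 := by simp only [hφ, hδ0, add_zero]
  have hφl : Loc φ 0 := by
    refine ⟨hφa, ?_⟩
    have h4 : HasFDerivAt φ (ContinuousLinearMap.id ℂ V + 0) 0 := by
      have h5 := hδ.differentiableAt.hasFDerivAt
      rw [hδ1] at h5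
      exact (hasFDerivAt_id (0 : V)).add h5
    rw [h4.fderiv, add_zero]
    exact Function.injective_id
  have hφt := tendsto_of_zero hφa hφ0
  set χ : V → V := fun x => φ (α x) with hχ
  have hχl : Loc χ 0 := Loc.comp (by rw [hα0]; exact hφl) hαl
  have hχ0 : χ 0 = 0 := by simp only [hχ, hα0, hφ0]
  obtain ⟨ξ, hξ, hξ0, hξl, hξr⟩ := hχl.exists_inv
  rw [hχ0] at hξ hξ0 hξr
  have hξt := tendsto_of_zero hξ.1 hξ0
  set F' : V → V := fun x => ψ (τ x) with hF'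
  have hF't : Tendsto F' (𝓝 0) (𝓝 0) := hψt.comp hτt
  refine ⟨ξ, F', hξ, hξ0, bir_comp_loc hψ hbir hlb hτ, ?_⟩
  -- `F₁ (χ y) = χ (F' y)`
  have hkey : ∀ᶠ y in 𝓝 (0 : V), F₁ (χ y) = χ (F' y) := by
    filter_upwards [hαt.eventually hconj, hτt.eventually hιr] with y hy1 hy2
    have h4 : F₁ (α y) = F' y := by
      simp only [hF₁, hα, hF']
      rw [hy2]
    have h5 : F₁ (φ (α y)) = φ (α (F₁ (α y))) := hy1
    change F₁ (φ (α y)) = φ (α (F' y))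
    rw [h5, h4]
  filter_upwards [hξt.eventually hkey, hξr, (hF't.comp hξt).eventually hξl, hF] with x hx1 hx2 hx3 hx4
  rw [hx2] at hx1
  have h6 : F x = χ (F' (ξ x)) := by rw [hx4]; exact hx1
  rw [h6]
  exact hx3

end Pool.Agent.U157.Kato
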