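import Pool.Agent.U157.Kato.Sum

/-!
Primitives with respect to the second variable.
-/

set_option autoImplicit false

open Filter Topology Set Metric
open Pool.Agent.Helper417.Mer.Hartogs673

namespace Pool.Agent.U157.Kato

theorem cauchy_prim {w W : ℂ → ℂ} {r R : ℝ} (hr : 0 < r) (hrR : r < R)
    (hW : ∀ z ∈ ball (0 : ℂ) R, HasDerivAt W (w z) z) {v : ℂ} (hv : ‖v‖ < r) :
    (∮ ξ in C(0, r), w ξ * Complex.log (1 - v / ξ)) = -(2 * Real.pi * Complex.I) * (W v - W 0) := by
  have hsub : ∀ z ∈ sphere (0 : ℂ) r, z ∈ ball (0 : ℂ) R := by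
    intro z hz
    rw [mem_ball_zero_iff, mem_sphere_zero_iff_norm.1 hz]
    exact hrR
  have hslit : ∀ z ∈ sphere (0 : ℂ) r, 1 - v / z ∈ Complex.slitPlane := by
    intro z hz
    have hz0 := mem_sphere_zero_iff_norm.1 hz
    left
    have h1 : ‖v / z‖ < 1 := by
      rw [norm_div, hz0, div_lt_one hr]
      exact hv
    have h2 := Complex.abs_re_le_norm (v / z)
    have h3 := le_abs_self (v / z).re
    rw [Complex.sub_re, Complex.one_re]
    linarith
  have hne : ∀ z ∈ sphere (0 : ℂ) r, z ≠ 0 ∧ z - v ≠ 0 := by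
    intro z hz
    have hz0 := mem_sphere_zero_iff_norm.1 hz
    constructor
    · rintro rfl
      rw [norm_zero] at hz0
      linarith
    · intro h
      rw [sub_eq_zero] at h
      rw [h] at hz0
      linarith
  have hWc : ContinuousOn W (closedBall 0 r) := fun z hz =>
    (hW z (closedBall_subset_ball hrR hz)).continuousAt.continuousWithinAt
  have hWd : ∀ z ∈ ball (0 : ℂ) r \ ∅, DifferentiableAt ℂ W z := fun z hz =>
    (hW z (ball_subset_ball hrR.le hz.1)).differentiableAt
  have hc1 := Complex.circleIntegral_sub_inv_smul_of_differentiable_on_off_countable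
    (c := 0) (R := r) (w := v) (f := W) countable_empty (by simpa using hv) hWc hWd
  have hc0 := Complex.circleIntegral_sub_inv_smul_of_differentiable_on_off_countable
    (c := 0) (R := r) (w := 0) (f := W) countable_empty (by simpa using hr) hWc hWd
  have hder : ∀ z ∈ sphere (0 : ℂ) r, HasDerivWithinAt (fun z => W z * Complex.log (1 - v / z))
      (w z * Complex.log (1 - v / z) + ((z - v)⁻¹ • W z - (z - 0)⁻¹ • W z)) (sphere (0 : ℂ) r) z := by
    intro z hz
    obtain ⟨h1, h2⟩ := hne z hz
    have h3 : HasDerivAt (fun z : ℂ => 1 - v / z) (v / z ^ 2) z := by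
      have h4 : HasDerivAt (fun z : ℂ => v / z) ((0 * z - v * 1) / z ^ 2) z :=
        (hasDerivAt_const z v).div (hasDerivAt_id z) h1
      have h5 := h4.const_sub 1
      have h6 : v / z ^ 2 = -((0 * z - v * 1) / z ^ 2) := by ring
      rw [h6]
      exact h5
    have h4 := (hW z (hsub z hz)).mul (h3.clog (hslit z hz))
    have h5 : w z * Complex.log (1 - v / z) + W z * (v / z ^ 2 / (1 - v / z)) =
        w z * Complex.log (1 - v / z) + ((z - v)⁻¹ • W z - (z - 0)⁻¹ • W z) := by
      have h6 : 1 - v / z ≠ 0 := Complex.slitPlane_ne_zero (hslit z hz)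
      have h7 : 1 - v / z = (z - v) / z := by field_simp
      have h8 : v / z ^ 2 / (1 - v / z) = (z - v)⁻¹ - z⁻¹ := by
        rw [h7, inv_sub_inv h2 h1, sub_sub_cancel, div_div_eq_mul_div, div_mul_eq_mul_div,
          div_div, div_eq_div_iff (mul_ne_zero (pow_ne_zero 2 h1) h2) (mul_ne_zero h2 h1)]
        ring
      rw [h8]
      simp only [smul_eq_mul, sub_zero]
      ring
    rw [← h5]
    exact h4.hasDerivWithinAt
  have hint := circleIntegral.integral_eq_zero_of_hasDerivWithinAt hr.le hder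
  have hwc : ContinuousOn w (sphere 0 r) := by
    have hd : DifferentiableOn ℂ W (ball 0 R) := fun z hz => (hW z hz).differentiableAt.differentiableWithinAt
    have h1 : DifferentiableOn ℂ (deriv W) (ball 0 R) := hd.deriv isOpen_ball
    refine ContinuousOn.congr (f := deriv W) (h1.continuousOn.mono hsub) fun z hz => ?_
    exact (hW z (hsub z hz)).deriv.symm
  have hlc : ContinuousOn (fun z : ℂ => Complex.log (1 - v / z)) (sphere 0 r) := by
    refine ContinuousOn.clog ?_ hslit
    exact continuousOn_const.sub (continuousOn_const.div continuousOn_id fun z hz => (hne z hz).1)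
  have hi1 : CircleIntegrable (fun ξ => w ξ * Complex.log (1 - v / ξ)) 0 r :=
    (hwc.mul hlc).circleIntegrable hr.le
  have hWs : ContinuousOn W (sphere 0 r) := hWc.mono sphere_subset_closedBall
  have hi2 : CircleIntegrable (fun ξ => (ξ - v)⁻¹ • W ξ) 0 r :=
    (((continuousOn_id.sub continuousOn_const).inv₀ fun z hz => (hne z hz).2).smul
      hWs).circleIntegrable hr.le
  have hi3 : CircleIntegrable (fun ξ => (ξ - 0)⁻¹ • W ξ) 0 r :=
    (((continuousOn_id.sub continuousOn_const).inv₀ fun z hz => by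
      simpa using (hne z hz).1).smul hWs).circleIntegrable hr.le
  have hi4 : CircleIntegrable (fun ξ => (ξ - v)⁻¹ • W ξ - (ξ - 0)⁻¹ • W ξ) 0 r := hi2.sub hi3
  rw [circleIntegral.integral_add hi1 hi4, circleIntegral.integral_sub hi2 hi3, hc1, hc0]
    at hint
  simp only [smul_eq_mul] at hint
  linear_combination hint

/-- primitives with parameters -/
theorem exists_primitive {w : V → ℂ} (hw : AnalyticAt ℂ w 0) :
    ∃ A : V → ℂ, AnalyticAt ℂ A 0 ∧ A 0 = 0 ∧ ∀ᶠ x in 𝓝 0, fderiv ℂ A x (0, 1) = w x := by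
  obtain ⟨R, hR, hb⟩ := Metric.eventually_nhds_iff_ball.1 hw.eventually_analyticAt
  set r := R / 2 with hr
  have hr0 : 0 < r := by positivity
  have hrR : r < R := by rw [hr]; linarith
  set Ω : Set (V × ℂ) := {p | (‖p.1.1‖ < R ∧ ‖p.2‖ < R) ∧ ‖p.1.2‖ < ‖p.2‖} with hΩ
  have hΩo : IsOpen Ω :=
    ((isOpen_lt continuous_fst.fst.norm continuous_const).inter
      (isOpen_lt continuous_snd.norm continuous_const)).inter
      (isOpen_lt continuous_fst.snd.norm continuous_snd.norm)
  set F : V × ℂ → ℂ := fun p => w (p.1.1, p.2) * Complex.log (1 - p.1.2 / p.2) with hF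
  have hFd : DifferentiableOn ℂ F Ω := by
    intro p hp
    have hp0 : p.2 ≠ 0 := by
      intro h
      have := hp.2
      rw [h, norm_zero] at this
      exact absurd this (not_lt.2 (norm_nonneg _))
    have hpm : ((p.1.1, p.2) : V) ∈ ball (0 : V) R := by
      rw [mem_ball_zero_iff]
      exact max_lt hp.1.1 hp.1.2
    have h1 : DifferentiableAt ℂ (fun p : V × ℂ => w (p.1.1, p.2)) p := by
      have h2 : DifferentiableAt ℂ w ((fun p : V × ℂ => ((p.1.1, p.2) : V)) p) :=
        (hb _ hpm).differentiableAt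
      have h3 : DifferentiableAt ℂ (fun p : V × ℂ => ((p.1.1, p.2) : V)) p :=
        differentiableAt_fst.fst.prodMk differentiableAt_snd
      exact DifferentiableAt.comp p h2 h3
    have h2 : DifferentiableAt ℂ (fun p : V × ℂ => Complex.log (1 - p.1.2 / p.2)) p := by
      refine DifferentiableAt.clog ?_ ?_
      · have h3 : DifferentiableAt ℂ (fun p : V × ℂ => p.1.2) p := differentiableAt_fst.snd
        have h4 : DifferentiableAt ℂ (fun p : V × ℂ => p.2) p := differentiableAt_snd
        have h5 : DifferentiableAt ℂ (fun p : V × ℂ => p.1.2 / p.2) p := by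
          simp only [div_eq_mul_inv]
          exact h3.mul (h4.inv hp0)
        exact (differentiableAt_const _).sub h5
      · left
        have h1 : ‖p.1.2 / p.2‖ < 1 := by
          rw [norm_div, div_lt_one (norm_pos_iff.2 hp0)]
          exact hp.2
        have h2 := Complex.abs_re_le_norm (p.1.2 / p.2)
        have h3 := le_abs_self (p.1.2 / p.2).re
        rw [Complex.sub_re, Complex.one_re]
        linarith
    exact (h1.mul h2).differentiableWithinAt
  set U : Set V := {x | ‖x.1‖ < R ∧ ‖x.2‖ < r} with hU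
  have hUo : IsOpen U := (isOpen_lt continuous_fst.norm continuous_const).inter
    (isOpen_lt continuous_snd.norm continuous_const)
  have hU0 : (0 : V) ∈ U := ⟨by simpa using hR, by simpa using hr0⟩
  have hmem : ∀ p ∈ U, ∀ ξ ∈ sphere (0 : ℂ) |r|, (p, ξ) ∈ Ω := by
    intro p hp ξ hξ
    rw [abs_of_pos hr0, mem_sphere_zero_iff_norm] at hξ
    refine ⟨⟨hp.1, ?_⟩, ?_⟩
    · change ‖ξ‖ < R
      rw [hξ]
      exact hrR
    · change ‖p.2‖ < ‖ξ‖
      rw [hξ]
      exact hp.2
  have hD := param_circle hΩo hFd hUo hmem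
  set A : V → ℂ := fun x => -(2 * Real.pi * Complex.I)⁻¹ * ∮ ξ in C(0, r), F (x, ξ) with hA
  have hAd : DifferentiableOn ℂ A U := hD.const_mul _
  have hAa := Pool.Agent.Y785.MV.Osg.analytic hUo hAd
  have h2pi : (2 * Real.pi * Complex.I : ℂ) ≠ 0 := Complex.two_pi_I_ne_zero
  -- the formula for `A`
  have hform : ∀ ζ : ℂ, ‖ζ‖ < R → ∃ W : ℂ → ℂ,
      (∀ z ∈ ball (0 : ℂ) R, HasDerivAt W (w (ζ, z)) z) ∧ ∀ v : ℂ, ‖v‖ < r → A (ζ, v) = W v - W 0 := by
    intro ζ hζ
    have h1 : DifferentiableOn ℂ (fun z : ℂ => w (ζ, z)) (ball 0 R) := by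
      intro z hz
      rw [mem_ball_zero_iff] at hz
      have h2 : ((ζ, z) : V) ∈ ball (0 : V) R := by
        rw [mem_ball_zero_iff]
        exact max_lt hζ hz
      have h3 : DifferentiableAt ℂ w ((fun z : ℂ => ((ζ, z) : V)) z) := (hb _ h2).differentiableAt
      have h4 : DifferentiableAt ℂ (fun z : ℂ => ((ζ, z) : V)) z :=
        (differentiableAt_const _).prodMk differentiableAt_id
      exact (DifferentiableAt.comp z h3 h4).differentiableWithinAt
    obtain ⟨W, hW⟩ := h1.isExactOn_ball
    refine ⟨W, hW, fun v hv => ?_⟩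
    have h2 := cauchy_prim hr0 hrR hW hv
    simp only [hA, hF]
    rw [h2]
    field_simp
  refine ⟨A, hAa 0 hU0, ?_, ?_⟩
  · obtain ⟨W, _, hWv⟩ := hform 0 (by simpa using hR)
    have := hWv 0 (by simpa using hr0)
    rw [sub_self] at this
    exact this
  · filter_upwards [hUo.mem_nhds hU0] with x hx
    obtain ⟨W, hW, hWv⟩ := hform x.1 hx.1
    have h1 := line_deriv' (hAa x hx).differentiableAt (0, 1)
    have h2 : (fun τ : ℂ => A (x + τ • ((0, 1) : V))) =ᶠ[𝓝 0] fun τ => W (x.2 + τ * 1) - W 0 := by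
      have h3 : ∀ᶠ τ : ℂ in 𝓝 0, ‖x.2 + τ‖ < r := by
        have h4 : ContinuousAt (fun τ : ℂ => ‖x.2 + τ‖) 0 := by fun_prop
        have h5 : (fun τ : ℂ => ‖x.2 + τ‖) 0 < r := by simpa using hx.2
        exact h4.eventually_lt_const h5
      filter_upwards [h3] with τ hτ
      rw [mul_one, ← hWv _ hτ]
      congr 1
      ext <;> simp
    have h3 : HasDerivAt (fun τ : ℂ => W (x.2 + τ * 1) - W 0) (w x) 0 := by
      have h4 : HasDerivAt W (w (x.1, x.2)) (x.2 + 0 * 1) := by
        rw [zero_mul, add_zero]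
        exact hW x.2 (by
          rw [mem_ball_zero_iff]
          exact hx.2.trans hrR)
      have h5 := h4.comp (0 : ℂ) (hd_lin x.2 1)
      rw [mul_one] at h5
      exact h5.sub_const _
    exact h1.unique (h3.congr_of_eventuallyEq h2)

end Pool.Agent.U157.Kato
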