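import Pool.Agent.U157.Kato.Chart

/-!
Rational relations between maps to the plane, and their composition.
-/

set_option autoImplicit false
set_option linter.unusedSectionVars false

open Manifold Filter Topology Set MvPolynomial
open scoped ContDiff

namespace Pool.Agent.U157.Kato

theorem ev_zero (x : V) : ev 0 x = 0 := by simp [ev]

theorem ev_mul (P Q : MvPolynomial (Fin 2) ℂ) (x : V) : ev (P * Q) x = ev P x * ev Q x := by
  simp [ev]

theorem ev_add (P Q : MvPolynomial (Fin 2) ℂ) (x : V) : ev (P + Q) x = ev P x + ev Q x := by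
  simp [ev]

theorem ev_sub (P Q : MvPolynomial (Fin 2) ℂ) (x : V) : ev (P - Q) x = ev P x - ev Q x := by
  simp [ev]

theorem ev_one (x : V) : ev 1 x = 1 := by simp [ev]

theorem ev_C (a : ℂ) (x : V) : ev (C a) x = a := by simp [ev]

theorem ev_pow (P : MvPolynomial (Fin 2) ℂ) (n : ℕ) (x : V) : ev (P ^ n) x = ev P x ^ n := by
  simp [ev]

theorem ev_X0 (x : V) : ev (X 0) x = x.1 := by simp [ev]

theorem ev_X1 (x : V) : ev (X 1) x = x.2 := by simp [ev]

/-- a polynomial in one variable as a polynomial in the first coordinate -/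
theorem ev_aeval (P : Polynomial ℂ) (x : V) : ev (Polynomial.aeval (X 0) P) x = P.eval x.1 := by
  induction P using Polynomial.induction_on' with
  | add p q hp hq => rw [map_add, ev_add, hp, hq, Polynomial.eval_add]
  | monomial n a =>
    rw [Polynomial.aeval_monomial, ev_mul, ev_pow, ev_X0, Polynomial.eval_monomial]
    congr 1
    simp [ev]

theorem an_ev (P : MvPolynomial (Fin 2) ℂ) (x : V) : AnalyticAt ℂ (ev P) x := by
  induction P using MvPolynomial.induction_on with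
  | C a =>
    have : ev (C a) = fun _ => a := funext (ev_C a)
    rw [this]
    exact analyticAt_const
  | add p q hp hq =>
    have : ev (p + q) = fun x => ev p x + ev q x := funext (ev_add p q)
    rw [this]
    exact hp.add hq
  | mul_X p i hp =>
    have : ev (p * X i) = fun x => ev p x * ev (X i) x := funext (ev_mul p (X i))
    rw [this]
    refine hp.mul ?_
    fin_cases i
    · have : ev (X 0) = fun x => x.1 := funext ev_X0
      change AnalyticAt ℂ (ev (X 0)) x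
      rw [this]
      exact analyticAt_fst
    · have : ev (X 1) = fun x => x.2 := funext ev_X1
      change AnalyticAt ℂ (ev (X 1)) x
      rw [this]
      exact analyticAt_snd

theorem cont_ev (P : MvPolynomial (Fin 2) ℂ) : Continuous (ev P) :=
  continuous_iff_continuousAt.2 fun x => (an_ev P x).continuousAt

/-- a nonzero polynomial does not vanish on a set with interior points -/
theorem exists_ne {P : MvPolynomial (Fin 2) ℂ} (hP : P ≠ 0) {s : Set V}
    (hs : (interior s).Nonempty) : ∃ x ∈ s, ev P x ≠ 0 := by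
  by_contra hcon
  push Not at hcon
  obtain ⟨x, hx⟩ := hs
  obtain ⟨ε, hε, hb⟩ := Metric.isOpen_iff.1 isOpen_interior x hx
  apply hP
  refine funext_set (fun i => Metric.ball ((![x.1, x.2] : Fin 2 → ℂ) i) ε) (fun i => ?_) ?_
  · exact infinite_of_mem_nhds _ (Metric.ball_mem_nhds _ hε)
  · intro y hy
    have h0 := hy 0 (mem_univ _)
    have h1 := hy 1 (mem_univ _)
    simp only [Matrix.cons_val_zero, Matrix.cons_val_one] at h0 h1
    have h2 : ((y 0, y 1) : V) ∈ Metric.ball x ε := by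
      rw [← ball_prod_same]
      exact ⟨h0, h1⟩
    have h3 := hcon _ (interior_subset (hb h2))
    have h4 : (![y 0, y 1] : Fin 2 → ℂ) = y := by
      ext i
      fin_cases i <;> rfl
    rw [ev, h4] at h3
    rw [h3, map_zero]

/-- evaluation of a polynomial at the value of a rational map -/
theorem exists_hom (A : Fin 3 → MvPolynomial (Fin 2) ℂ) (P : MvPolynomial (Fin 2) ℂ) :
    ∃ N₀, ∀ N, N₀ ≤ N → ∃ Q : MvPolynomial (Fin 2) ℂ, ∀ x y, Fwd A x y →
      ev Q x = ev (A 0) x ^ N * ev P y := by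
  induction P using MvPolynomial.induction_on with
  | C a =>
    refine ⟨0, fun N _ => ⟨A 0 ^ N * C a, fun x y _ => ?_⟩⟩
    rw [ev_mul, ev_pow, ev_C, ev_C]
  | add p q hp hq =>
    obtain ⟨N₁, h1⟩ := hp
    obtain ⟨N₂, h2⟩ := hq
    refine ⟨max N₁ N₂, fun N hN => ?_⟩
    obtain ⟨Q₁, h3⟩ := h1 N (le_trans (le_max_left _ _) hN)
    obtain ⟨Q₂, h4⟩ := h2 N (le_trans (le_max_right _ _) hN)
    refine ⟨Q₁ + Q₂, fun x y hxy => ?_⟩
    rw [ev_add, ev_add, h3 x y hxy, h4 x y hxy, mul_add]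
  | mul_X p i hp =>
    obtain ⟨N₁, h1⟩ := hp
    refine ⟨N₁ + 1, fun N hN => ?_⟩
    obtain ⟨M, rfl⟩ : ∃ M, N = M + 1 := ⟨N - 1, by omega⟩
    obtain ⟨Q, hQ⟩ := h1 M (by omega)
    refine ⟨Q * A i.succ, fun x y hxy => ?_⟩
    rw [ev_mul, ev_mul, hQ x y hxy]
    have h2 : ev (A i.succ) x = ev (A 0) x * ev (X i) y := by
      fin_cases i
      · change ev (A 1) x = ev (A 0) x * ev (X 0) y
        rw [ev_X0]
        exact hxy.1.symm
      · change ev (A 2) x = ev (A 0) x * ev (X 1) y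
        rw [ev_X1]
        exact hxy.2.symm
    rw [h2]
    ring

/-- composition of rational maps -/
theorem exists_comp (A B : Fin 3 → MvPolynomial (Fin 2) ℂ) :
    ∃ (C : Fin 3 → MvPolynomial (Fin 2) ℂ) (N : ℕ), ∀ x y, Fwd A x y →
      ev (C 0) x = ev (A 0) x ^ N * ev (B 0) y ∧ ∀ z, Fwd B y z → Fwd C x z := by
  obtain ⟨N₀, h0⟩ := exists_hom A (B 0)
  obtain ⟨N₁, h1⟩ := exists_hom A (B 1)
  obtain ⟨N₂, h2⟩ := exists_hom A (B 2)
  set N := max N₀ (max N₁ N₂) with hN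
  obtain ⟨Q₀, hQ0⟩ := h0 N (le_max_left _ _)
  obtain ⟨Q₁, hQ1⟩ := h1 N (le_trans (le_max_left _ _) (le_max_right _ _))
  obtain ⟨Q₂, hQ2⟩ := h2 N (le_trans (le_max_right _ _) (le_max_right _ _))
  refine ⟨![Q₀, Q₁, Q₂], N, fun x y hxy => ⟨hQ0 x y hxy, fun z hz => ⟨?_, ?_⟩⟩⟩
  · change ev Q₀ x * z.1 = ev Q₁ x
    rw [hQ0 x y hxy, hQ1 x y hxy, mul_assoc, hz.1]
  · change ev Q₀ x * z.2 = ev Q₂ x
    rw [hQ0 x y hxy, hQ2 x y hxy, mul_assoc, hz.2]

section rel

variable {Ω Ω' : Type} [TopologicalSpace Ω] [TopologicalSpace Ω']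

/-- nonempty open subsets of `W` have images with interior points -/
def QO (f : Ω → V) (W : Set Ω) : Prop :=
  ∀ O ⊆ W, IsOpen O → O.Nonempty → (interior (f '' O)).Nonempty

/-- `g` is a rational function of `f` on `W` -/
def Rel (f g : Ω → V) (W : Set Ω) : Prop :=
  ∃ A : Fin 3 → MvPolynomial (Fin 2) ℂ, A 0 ≠ 0 ∧ ∀ y ∈ W, Fwd A (f y) (g y)

theorem QO.mono {f : Ω → V} {W W' : Set Ω} (h : QO f W) (hW : W' ⊆ W) : QO f W' :=
  fun O hO => h O (hO.trans hW)

theorem Rel.mono {f g : Ω → V} {W W' : Set Ω} (h : Rel f g W) (hW : W' ⊆ W) : Rel f g W' := by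
  obtain ⟨A, hA, h1⟩ := h
  exact ⟨A, hA, fun y hy => h1 y (hW hy)⟩

theorem Rel.trans {f g k : Ω → V} {W : Set Ω} (hW : IsOpen W) (hne : W.Nonempty)
    (hfc : ContinuousOn f W) (hf : QO f W) (hg : QO g W) (hfg : Rel f g W) (hgk : Rel g k W) :
    Rel f k W := by
  obtain ⟨A, hA, h1⟩ := hfg
  obtain ⟨B, hB, h2⟩ := hgk
  obtain ⟨C, N, hC⟩ := exists_comp A B
  refine ⟨C, ?_, fun y hy => (hC _ _ (h1 y hy)).2 _ (h2 y hy)⟩
  intro h0
  obtain ⟨_, ⟨y₀, hy₀, rfl⟩, hy₁⟩ := exists_ne hA (hf W subset_rfl hW hne)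
  set O : Set Ω := W ∩ (fun y => ev (A 0) (f y)) ⁻¹' {0}ᶜ with hO
  have hOo : IsOpen O :=
    ((cont_ev (A 0)).comp_continuousOn hfc).isOpen_inter_preimage hW isOpen_compl_singleton
  obtain ⟨_, ⟨y₂, hy₂, rfl⟩, hy₃⟩ := exists_ne hB (hg O inter_subset_left hOo ⟨y₀, hy₀, hy₁⟩)
  have h3 := (hC _ _ (h1 y₂ hy₂.1)).1
  rw [h0, ev_zero] at h3
  rcases mul_eq_zero.1 h3.symm with h | h
  · exact hy₂.2 (pow_eq_zero_iff_of_pos_or h)
  · exact hy₃ h
where
  pow_eq_zero_iff_of_pos_or {a : ℂ} {n : ℕ} (h : a ^ n = 0) : a = 0 := by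
    exact pow_eq_zero_iff_ne_zero_aux h
  pow_eq_zero_iff_ne_zero_aux {a : ℂ} {n : ℕ} (h : a ^ n = 0) : a = 0 := by
    by_contra hne
    exact pow_ne_zero n hne h

/-- a map which is open in many points -/
theorem QO.of_dense {f : Ω → V} {W : Set Ω}
    (h : ∀ O ⊆ W, IsOpen O → O.Nonempty → ∃ x ∈ O, map f (𝓝 x) = 𝓝 (f x)) : QO f W := by
  intro O hO hOo hne
  obtain ⟨x, hx, hm⟩ := h O hO hOo hne
  refine ⟨f x, ?_⟩
  rw [mem_interior_iff_mem_nhds, ← hm]
  exact image_mem_map (hOo.mem_nhds hx)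

theorem Loc.map_nhds {f : V → V} {x : V} (hf : Loc f x) : map f (𝓝 x) = 𝓝 (f x) := by
  obtain ⟨A, hA⟩ := exists_cle hf.2
  have h1 : HasStrictFDerivAt f (A : V →L[ℂ] V) x := by
    rw [hA]
    exact hf.1.hasStrictFDerivAt
  exact h1.map_nhds_eq_of_equiv

/-- composition with a map which is open -/
theorem QO.comp {f : Ω → V} {g : Ω' → Ω} {W : Set Ω} {W' : Set Ω'} (hf : QO f W)
    (hg : ∀ O ⊆ W', IsOpen O → O.Nonempty → (interior (g '' O) ∩ W).Nonempty) (hW : IsOpen W) :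
    QO (fun y => f (g y)) W' := by
  intro O hO hOo hne
  have h1 := hf (interior (g '' O) ∩ W) inter_subset_right (isOpen_interior.inter hW)
    (hg O hO hOo hne)
  refine h1.mono (interior_mono ?_)
  rintro _ ⟨y, hy, rfl⟩
  obtain ⟨z, hz, rfl⟩ := interior_subset hy.1
  exact ⟨z, hz, rfl⟩

theorem Rel.comp {f g : Ω → V} {W : Set Ω} (h : Rel f g W) {k : Ω' → Ω} {W' : Set Ω'}
    (hk : MapsTo k W' W) : Rel (fun y => f (k y)) (fun y => g (k y)) W' := by
  obtain ⟨A, hA, h1⟩ := h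
  exact ⟨A, hA, fun y hy => h1 _ (hk hy)⟩

theorem Rel.refl (f : Ω → V) (W : Set Ω) : Rel f f W := by
  refine ⟨![1, X 0, X 1], one_ne_zero, fun y _ => ⟨?_, ?_⟩⟩
  · change ev 1 (f y) * (f y).1 = ev (X 0) (f y)
    rw [ev_one, ev_X0, one_mul]
  · change ev 1 (f y) * (f y).2 = ev (X 1) (f y)
    rw [ev_one, ev_X1, one_mul]

theorem Rel.congr {f g f' g' : Ω → V} {W : Set Ω} (h : Rel f g W) (hf : ∀ y ∈ W, f y = f' y)
    (hg : ∀ y ∈ W, g y = g' y) : Rel f' g' W := by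
  obtain ⟨A, hA, h1⟩ := h
  exact ⟨A, hA, fun y hy => by rw [← hf y hy, ← hg y hy]; exact h1 y hy⟩

end rel

end Pool.Agent.U157.Kato
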