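import Pool.Agent.U157.Kato.Cases

/-!
Solutions of `L = l + L ∘ G` for contracting germs `G`.
-/

set_option autoImplicit false

open Filter Topology Set
open Pool.Agent.Helper417.Mer.Hartogs673

namespace Pool.Agent.U157.Kato

theorem exists_sum_aux {G : V → V} {l : V → ℂ} {U : Set V} (hU : IsOpen U) (h0 : (0 : V) ∈ U)
    (hmaps : MapsTo G U U) (hG : DifferentiableOn ℂ G U) (hG0 : G 0 = 0) {C ρ K : ℝ}
    (hρ0 : 0 ≤ ρ) (hρ : ρ < 1) (hit : ∀ x ∈ U, ∀ j, ‖G^[j] x‖ ≤ C * ρ ^ j)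
    (hl : DifferentiableOn ℂ l U) (hK0 : 0 ≤ K) (hK : ∀ x ∈ U, ‖l x‖ ≤ K * ‖x‖) :
    ∃ L : V → ℂ, AnalyticAt ℂ L 0 ∧ L 0 = 0 ∧ ∀ x ∈ U, L x = l x + L (G x) := by
  have hmj : ∀ j, MapsTo (G^[j]) U U := fun j => hmaps.iterate j
  have hdj : ∀ j, DifferentiableOn ℂ (fun x => l (G^[j] x)) U := by
    intro j
    have h1 : DifferentiableOn ℂ (G^[j]) U := by
      induction j with
      | zero => exact differentiableOn_id
      | succ j ih =>
        rw [Function.iterate_succ']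
        exact hG.comp ih (hmj j)
    exact hl.comp h1 (hmj j)
  have hbd : ∀ j, ∀ x ∈ U, ‖l (G^[j] x)‖ ≤ (K * C) * ρ ^ j := by
    intro j x hx
    refine (hK _ (hmj j hx)).trans ?_
    rw [mul_assoc]
    exact mul_le_mul_of_nonneg_left (hit x hx j) hK0
  have hsum : Summable (fun j => (K * C) * ρ ^ j) := (summable_geometric_of_lt_one hρ0 hρ).mul_left _
  have hsx : ∀ x ∈ U, Summable (fun j => l (G^[j] x)) := fun x hx =>
    Summable.of_norm_bounded hsum (fun j => hbd j x hx)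
  refine ⟨fun x => ∑' j, l (G^[j] x), ?_, ?_, ?_⟩
  · obtain ⟨R, hR, hRU⟩ := Metric.isOpen_iff.1 hU 0 h0
    have hlim : TendstoUniformlyOn (fun N x => ∑ j ∈ Finset.range N, l (G^[j] x))
        (fun x => ∑' j, l (G^[j] x)) atTop (Metric.ball 0 R) :=
      tendstoUniformlyOn_tsum_nat hsum (fun j x hx => hbd j x (hRU hx))
    have hf : ∀ N, DifferentiableOn ℂ (fun x => ∑ j ∈ Finset.range N, l (G^[j] x))
        (Metric.ball 0 R) := by
      intro N
      refine DifferentiableOn.fun_sum fun j _ => (hdj j).mono hRU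
    have h1 := differentiableOn_of_uniform_limit hf hlim
    exact Pool.Agent.Y785.MV.Osg.analytic Metric.isOpen_ball h1 0
      (Metric.mem_ball_self (by positivity))
  · have hG0j : ∀ j, G^[j] 0 = 0 := fun j => Function.iterate_fixed hG0 j
    have hl0 : l 0 = 0 := by
      have := hK 0 h0
      rw [norm_zero, mul_zero] at this
      exact norm_le_zero_iff.1 this
    simp only [hG0j, hl0, tsum_zero]
  · intro x hx
    have h1 := (hsx x hx).tsum_eq_zero_add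
    simp only [Function.iterate_succ_apply, Function.iterate_zero, id_eq] at h1
    exact h1

/-- a contracting germ has small invariant neighbourhoods -/
theorem exists_nbhd {G : V → V} {ρ C : ℝ} (hρ0 : 0 < ρ) (hρ : ρ < 1) (hC : 0 ≤ C)
    (h : ∀ᶠ x : V in 𝓝 0, ‖(G x).1‖ ≤ ρ * ‖x.1‖ ∧ ‖(G x).2‖ ≤ C * ‖x.1‖) {P : V → Prop}
    (hP : ∀ᶠ x in 𝓝 0, P x) :
    ∃ U : Set V, IsOpen U ∧ (0 : V) ∈ U ∧ MapsTo G U U ∧ (∀ x ∈ U, P x) ∧
      ∃ C' : ℝ, ∀ x ∈ U, ∀ j, ‖G^[j] x‖ ≤ C' * ρ ^ j := by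
  obtain ⟨r, hr, hb⟩ := Metric.eventually_nhds_iff_ball.1 (h.and hP)
  set δ := min r (r / (C + 1)) with hδ
  have hδ0 : 0 < δ := lt_min hr (by positivity)
  have hδr : δ ≤ r := min_le_left _ _
  have hCδ : C * δ < r := by
    have h1 : δ * (C + 1) ≤ r := by
      rw [← le_div_iff₀ (by positivity)]
      exact min_le_right _ _
    nlinarith
  set U : Set V := {x | ‖x.1‖ < δ ∧ ‖x.2‖ < r} with hU
  have hUb : ∀ x ∈ U, x ∈ Metric.ball (0 : V) r := by
    intro x hx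
    rw [mem_ball_zero_iff]
    exact max_lt (hx.1.trans_le hδr) hx.2
  have hUo : IsOpen U :=
    (isOpen_lt continuous_fst.norm continuous_const).inter
      (isOpen_lt continuous_snd.norm continuous_const)
  have hmaps : MapsTo G U U := by
    intro x hx
    obtain ⟨⟨h1, h2⟩, _⟩ := hb x (hUb x hx)
    constructor
    · refine lt_of_le_of_lt h1 ?_
      nlinarith [hx.1, norm_nonneg x.1]
    · refine lt_of_le_of_lt h2 (lt_of_le_of_lt ?_ hCδ)
      exact mul_le_mul_of_nonneg_left hx.1.le hC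
  refine ⟨U, hUo, ⟨by simpa using hδ0, by simpa using hr⟩, hmaps, fun x hx => (hb x (hUb x hx)).2,
    δ + C * δ / ρ + r, ?_⟩
  intro x hx
  have h1 : ∀ j, ‖(G^[j] x).1‖ ≤ ρ ^ j * δ := by
    intro j
    induction j with
    | zero => simpa using hx.1.le
    | succ j ih =>
      rw [Function.iterate_succ_apply']
      have h2 : G^[j] x ∈ U := hmaps.iterate j hx
      refine (hb _ (hUb _ h2)).1.1.trans ?_
      rw [pow_succ']
      calc ρ * ‖(G^[j] x).1‖ ≤ ρ * (ρ ^ j * δ) := by gcongr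
        _ = _ := by ring
  intro j
  refine max_le ?_ ?_
  · refine (h1 j).trans ?_
    rw [mul_comm]
    refine mul_le_mul_of_nonneg_right ?_ (by positivity)
    have : 0 ≤ C * δ / ρ := by positivity
    linarith
  · cases j with
    | zero =>
      simp only [Function.iterate_zero, id_eq, pow_zero, mul_one]
      have : 0 ≤ C * δ / ρ := by positivity
      linarith [hx.2]
    | succ j =>
      rw [Function.iterate_succ_apply']
      have h2 : G^[j] x ∈ U := hmaps.iterate j hx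
      refine (hb _ (hUb _ h2)).1.2.trans ?_
      calc C * ‖(G^[j] x).1‖ ≤ C * (ρ ^ j * δ) := mul_le_mul_of_nonneg_left (h1 j) hC
        _ = (C * δ / ρ) * ρ ^ (j + 1) := by
          rw [pow_succ]
          field_simp
        _ ≤ _ := by
          refine mul_le_mul_of_nonneg_right ?_ (by positivity)
          linarith

theorem exists_sum {G : V → V} (hG : AnalyticAt ℂ G 0) (hG0 : G 0 = 0) {ρ C : ℝ} (hρ0 : 0 < ρ)
    (hρ : ρ < 1) (hC : 0 ≤ C)
    (h : ∀ᶠ x : V in 𝓝 0, ‖(G x).1‖ ≤ ρ * ‖x.1‖ ∧ ‖(G x).2‖ ≤ C * ‖x.1‖) {l : V → ℂ}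
    (hl : AnalyticAt ℂ l 0) (hl0 : l 0 = 0) :
    ∃ L : V → ℂ, AnalyticAt ℂ L 0 ∧ L 0 = 0 ∧ ∀ᶠ x in 𝓝 0, L x = l x + L (G x) := by
  have h1 : l =O[𝓝 0] fun x : V => x := by
    have := hl.differentiableAt.isBigO_sub
    simpa only [hl0, sub_zero] using this
  obtain ⟨K, hK0, hK⟩ := h1.exists_nonneg
  rw [Asymptotics.isBigOWith_iff] at hK
  obtain ⟨U, hU, h0, hmaps, hP, C', hC'⟩ := exists_nbhd hρ0 hρ hC h
    ((hG.eventually_analyticAt.and hl.eventually_analyticAt).and hK)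
  obtain ⟨L, hL, hL0, hLx⟩ := exists_sum_aux hU h0 hmaps
    (fun x hx => (hP x hx).1.1.differentiableAt.differentiableWithinAt) hG0 hρ0.le hρ hC'
    (fun x hx => (hP x hx).1.2.differentiableAt.differentiableWithinAt) hK0
    (fun x hx => (hP x hx).2)
  exact ⟨L, hL, hL0, eventually_of_mem (hU.mem_nhds h0) hLx⟩

theorem exists_prod {G : V → V} (hG : AnalyticAt ℂ G 0) (hG0 : G 0 = 0) {ρ C : ℝ} (hρ0 : 0 < ρ)
    (hρ : ρ < 1) (hC : 0 ≤ C)
    (h : ∀ᶠ x : V in 𝓝 0, ‖(G x).1‖ ≤ ρ * ‖x.1‖ ∧ ‖(G x).2‖ ≤ C * ‖x.1‖) {e : V → ℂ}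
    (he : AnalyticAt ℂ e 0) (he0 : e 0 = 1) :
    ∃ W : V → ℂ, AnalyticAt ℂ W 0 ∧ W 0 = 1 ∧ ∀ᶠ x in 𝓝 0, W x = e x * W (G x) := by
  have hl : AnalyticAt ℂ (fun x => Complex.log (e x)) 0 := he.clog (by
    rw [he0]
    exact Complex.one_mem_slitPlane)
  obtain ⟨L, hL, hL0, hLx⟩ := exists_sum hG hG0 hρ0 hρ hC h hl (by simp [he0])
  refine ⟨fun x => Complex.exp (L x), hL.cexp, by simp [hL0], ?_⟩
  filter_upwards [hLx, he.continuousAt.eventually_ne (by rw [he0]; exact one_ne_zero)] with x h1 h2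
  rw [h1, Complex.exp_add, Complex.exp_log h2]

end Pool.Agent.U157.Kato
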