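import Pool.Agent.U157.Kato.Prim

/-!
Removal of the tail of a power series.
-/

set_option autoImplicit false

open Filter Topology Set

namespace Pool.Agent.U157.Kato

/-- bounded solutions of a backward recursion -/
theorem exists_bounded {lam gam : ℕ → ℂ} {m : ℕ} {D : ℝ} (h1 : ∀ j, ‖lam j‖ ≤ 1 / 2)
    (h2 : ∀ j, ‖gam j‖ ≤ D) : ∃ (d : ℕ → ℂ) (B : ℝ), (∀ j, ‖d j‖ ≤ B) ∧
      ∀ j, d j = lam j * d (j + m) - gam j := by
  set T : BoundedContinuousFunction ℕ ℂ → BoundedContinuousFunction ℕ ℂ := fun c =>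
    BoundedContinuousFunction.ofNormedAddCommGroupDiscrete (fun j => lam j * c (j + m) - gam j)
      (1 / 2 * ‖c‖ + D) (fun j => by
        refine (norm_sub_le _ _).trans (add_le_add ?_ (h2 j))
        rw [norm_mul]
        exact mul_le_mul (h1 j) (c.norm_coe_le_norm _) (norm_nonneg _) (by norm_num)) with hT
  have hTa : ∀ c j, T c j = lam j * c (j + m) - gam j := fun c j => rfl
  have hcon : ContractingWith (1 / 2) T := by
    refine ⟨?_, LipschitzWith.of_dist_le_mul fun c c' => ?_⟩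
    · rw [← NNReal.coe_lt_coe]
      push_cast
      norm_num
    · refine (BoundedContinuousFunction.dist_le (by positivity)).2 fun j => ?_
      rw [dist_eq_norm, hTa, hTa]
      have e : lam j * c (j + m) - gam j - (lam j * c' (j + m) - gam j) =
          lam j * (c (j + m) - c' (j + m)) := by ring
      rw [e, norm_mul]
      refine mul_le_mul ?_ ?_ (norm_nonneg _) (by positivity)
      · refine (h1 j).trans (le_of_eq ?_)
        push_cast
        rfl
      · rw [← dist_eq_norm]
        exact BoundedContinuousFunction.dist_coe_le_dist _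
  refine ⟨fun j => (ContractingWith.fixedPoint T hcon) j, ‖ContractingWith.fixedPoint T hcon‖,
    fun j => BoundedContinuousFunction.norm_coe_le_norm _ _, fun j => ?_⟩
  have h3 := hcon.fixedPoint_isFixedPt
  have h4 : T (ContractingWith.fixedPoint T hcon) j = ContractingWith.fixedPoint T hcon j := by
    rw [h3]
  rw [hTa] at h4
  exact h4.symm

theorem exists_tail {β : ℂ → ℂ} (hβ : AnalyticAt ℂ β 0) {t e : ℂ} (ht1 : ‖t‖ < 1)
    (he : e ≠ 0) (m : ℕ) :
    ∃ (b : ℂ → ℂ) (Q : Polynomial ℂ), AnalyticAt ℂ b 0 ∧ b 0 = 0 ∧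
      ∀ᶠ z in 𝓝 (0 : ℂ), e * z ^ m * b z + β z - b (t * z) = Q.eval z := by
  obtain ⟨p, hp⟩ := hβ
  rw [hasFPowerSeriesAt_iff] at hp
  simp only [zero_add] at hp
  obtain ⟨r₀, hr₀, hb⟩ := Metric.eventually_nhds_iff_ball.1 hp
  set c : ℕ → ℂ := fun j => p.coeff j with hc
  set a := r₀ / 2 with ha
  have ha0 : 0 < a := by positivity
  obtain ⟨C, hC⟩ : ∃ C : ℝ, ∀ j, ‖c j‖ * a ^ j ≤ C := by
    have h1 := (hb (a : ℂ) (by
      rw [mem_ball_zero_iff, Complex.norm_real, Real.norm_of_nonneg ha0.le, ha]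
      linarith)).summable
    have h2 := h1.tendsto_atTop_zero
    have h3 := h2.norm.bddAbove_range
    obtain ⟨C, hC⟩ := h3
    refine ⟨C, fun j => ?_⟩
    have := hC ⟨j, rfl⟩
    simp only [norm_smul, norm_pow, Complex.norm_real, Real.norm_of_nonneg ha0.le] at this
    rw [mul_comm]
    exact this
  have he0 : 0 < ‖e‖ := norm_pos_iff.2 he
  -- large index
  obtain ⟨j₁, hj₁⟩ : ∃ j₁ : ℕ, ∀ j, j₁ ≤ j → ‖t‖ ^ j ≤ a ^ m * ‖e‖ / 2 := by
    have h1 := tendsto_pow_atTop_nhds_zero_of_lt_one (norm_nonneg t) ht1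
    have h2 := h1.eventually_lt_const (show (0 : ℝ) < a ^ m * ‖e‖ / 2 by positivity)
    obtain ⟨j₁, hj₁⟩ := eventually_atTop.1 h2
    exact ⟨j₁, fun j hj => (hj₁ j hj).le⟩
  set j₀ := j₁ + 1 with hj₀
  set N := j₀ + m with hN
  obtain ⟨d, B, hdB, hd⟩ := exists_bounded (m := m)
    (lam := fun j => t ^ (j + N) / ((a : ℂ) ^ m * e))
    (gam := fun j => c (j + N) * (a : ℂ) ^ (j + j₀) / e) (D := C / (a ^ m * ‖e‖))
    (fun j => by
      rw [norm_div, norm_mul, norm_pow, norm_pow, Complex.norm_real, Real.norm_of_nonneg ha0.le,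
        div_le_iff₀ (by positivity)]
      refine (hj₁ _ (by omega)).trans (le_of_eq ?_)
      ring)
    (fun j => by
      rw [norm_div, norm_mul, norm_pow, Complex.norm_real, Real.norm_of_nonneg ha0.le,
        div_le_div_iff₀ he0 (by positivity)]
      have h1 := hC (j + N)
      have h2 : a ^ (j + N) = a ^ (j + j₀) * a ^ m := by
        rw [← pow_add, hN]
        congr 1
        ring
      rw [h2] at h1
      calc ‖c (j + N)‖ * a ^ (j + j₀) * (a ^ m * ‖e‖)
          = (‖c (j + N)‖ * (a ^ (j + j₀) * a ^ m)) * ‖e‖ := by ring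
        _ ≤ C * ‖e‖ := by gcongr)
  have haC : (a : ℂ) ≠ 0 := by exact_mod_cast ha0.ne'
  set b : ℕ → ℂ := fun j => if j < j₀ then 0 else d (j - j₀) / (a : ℂ) ^ j with hbdef
  have hb0 : ∀ j, j < j₀ → b j = 0 := fun j hj => by simp only [hbdef, if_pos hj]
  have hbs : ∀ j, b (j + j₀) = d j / (a : ℂ) ^ (j + j₀) := fun j => by
    simp only [hbdef]
    rw [if_neg (by omega), Nat.add_sub_cancel]
  have hB0 : 0 ≤ B := (norm_nonneg _).trans (hdB 0)
  have hbB : ∀ j, ‖b j‖ * a ^ j ≤ B := by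
    intro j
    by_cases hj : j < j₀
    · rw [hb0 j hj, norm_zero, zero_mul]
      exact hB0
    · obtain ⟨i, rfl⟩ : ∃ i, j = i + j₀ := ⟨j - j₀, by omega⟩
      rw [hbs, norm_div, norm_pow, Complex.norm_real, Real.norm_of_nonneg ha0.le,
        div_mul_cancel₀ _ (by positivity)]
      exact hdB i
  have hrec : ∀ j, e * b (j + j₀) + c (j + N) - t ^ (j + N) * b (j + N) = 0 := by
    intro j
    have e1 : j + N = (j + m) + j₀ := by omega
    have h1 := hbs (j + m)
    rw [← e1] at h1
    rw [h1, hbs, hd j, e1]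
    have e2 : j + m + j₀ = (j + j₀) + m := by omega
    rw [e2, pow_add (a : ℂ)]
    field_simp
    ring
  have hsum : ∀ z : ℂ, ‖z‖ < a → Summable (fun j => b j * z ^ j) := by
    intro z hz
    have h1 : Summable (fun j => B * (‖z‖ / a) ^ j) :=
      (summable_geometric_of_lt_one (by positivity) ((div_lt_one ha0).2 hz)).mul_left _
    refine Summable.of_norm_bounded h1 fun j => ?_
    rw [norm_mul, norm_pow, div_pow]
    calc ‖b j‖ * ‖z‖ ^ j = (‖b j‖ * a ^ j) * (‖z‖ ^ j / a ^ j) := by field_simp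
      _ ≤ _ := by
        refine mul_le_mul_of_nonneg_right (hbB j) (by positivity)
  have hnear : ∀ᶠ z in 𝓝 (0 : ℂ), ‖z‖ < a := by
    filter_upwards [Metric.ball_mem_nhds (0 : ℂ) ha0] with z hz
    simpa using hz
  refine ⟨fun z => ∑' j, b j * z ^ j,
    ∑ i ∈ Finset.range N, Polynomial.C (c i - t ^ i * b i) * Polynomial.X ^ i, ?_, ?_, ?_⟩
  · refine ⟨FormalMultilinearSeries.ofScalars ℂ b, ?_⟩
    rw [hasFPowerSeriesAt_iff]
    filter_upwards [hnear] with z hz
    rw [zero_add]
    have := (hsum z hz).hasSum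
    simp only [FormalMultilinearSeries.coeff_ofScalars, smul_eq_mul]
    simp only [mul_comm (z ^ _)]
    exact this
  · have h1 : ∀ j, b j * (0 : ℂ) ^ j = 0 := by
      intro j
      cases j with
      | zero => rw [hb0 0 (by omega), zero_mul]
      | succ j => rw [pow_succ, mul_zero, mul_zero]
    simp only [h1, tsum_zero]
  · filter_upwards [hnear] with z hz
    have htz : ‖t * z‖ < a := by
      rw [norm_mul]
      nlinarith [norm_nonneg z, norm_nonneg t]
    have hzr : z ∈ Metric.ball (0 : ℂ) r₀ := by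
      rw [mem_ball_zero_iff]
      linarith
    have s1 := (hasSum_nat_add_iff' j₀).2 (hsum z hz).hasSum
    have s2 := (hasSum_nat_add_iff' N).2 (hb z hzr)
    have s3 := (hasSum_nat_add_iff' N).2 (hsum (t * z) htz).hasSum
    have z1 : ∑ i ∈ Finset.range j₀, b i * z ^ i = 0 :=
      Finset.sum_eq_zero fun i hi => by rw [hb0 i (Finset.mem_range.1 hi), zero_mul]
    rw [z1, sub_zero] at s1
    have s4 := ((s1.mul_left (e * z ^ m)).add s2).sub s3
    have z2 : ∀ j, e * z ^ m * (b (j + j₀) * z ^ (j + j₀)) + z ^ (j + N) • p.coeff (j + N) -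
        b (j + N) * (t * z) ^ (j + N) = 0 := by
      intro j
      have h1 := hrec j
      have e1 : z ^ (j + N) = z ^ m * z ^ (j + j₀) := by
        rw [← pow_add]
        congr 1
        omega
      have h2 : p.coeff (j + N) = c (j + N) := rfl
      rw [smul_eq_mul, mul_pow, h2, e1]
      linear_combination (z ^ m * z ^ (j + j₀)) * h1
    simp only [z2] at s4
    have s5 := s4.unique hasSum_zero
    rw [Polynomial.eval_finsetSum]
    simp only [Polynomial.eval_mul, Polynomial.eval_C, Polynomial.eval_pow, Polynomial.eval_X]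
    have s6 : ∑ i ∈ Finset.range N, (c i - t ^ i * b i) * z ^ i =
        ∑ i ∈ Finset.range N, z ^ i • p.coeff i - ∑ i ∈ Finset.range N, b i * (t * z) ^ i := by
      rw [← Finset.sum_sub_distrib]
      refine Finset.sum_congr rfl fun i _ => ?_
      rw [smul_eq_mul, mul_pow]
      change (c i - t ^ i * b i) * z ^ i = z ^ i * c i - _
      ring
    rw [s6]
    linear_combination s5

end Pool.Agent.U157.Kato
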