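import Pool.Agent.U157.Kato.Kind

/-!
Charts of towers of blow-ups.
-/

set_option autoImplicit false

open Filter Topology Set MvPolynomial Manifold
open scoped ContDiff

namespace Pool.Agent.U157.Kato

/-- birational near the origin -/
def Bir (ψ : V → V) : Prop := ∃ W : Set V, IsOpen W ∧ (0 : V) ∈ W ∧ Rel ψ id W ∧ Rel id ψ W

theorem qo_of_lb {ψ : V → V} (han : ∀ w, AnalyticAt ℂ ψ w) (h : LB2 ψ) :
    ∃ W : Set V, IsOpen W ∧ (0 : V) ∈ W ∧ QO ψ W := by
  obtain ⟨C, k, hC, h⟩ := h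
  obtain ⟨W, hW, hWo, h0⟩ := eventually_nhds_iff.1 h
  refine ⟨W, hWo, h0, QO.of_dense fun O hO hOo hne => ?_⟩
  have hX : (X 0 * X 1 : MvPolynomial (Fin 2) ℂ) ≠ 0 := mul_ne_zero (X_ne_zero 0) (X_ne_zero 1)
  obtain ⟨x, hx, hx'⟩ : ∃ x ∈ O, ev (X 0 * X 1) x ≠ 0 :=
    exists_ne hX (by rwa [hOo.interior_eq])
  rw [ev_mul, ev_X0, ev_X1] at hx'
  refine ⟨x, hx, Loc.map_nhds ⟨han x, ?_⟩⟩
  rw [injective_iff_map_eq_zero]
  intro v hv
  have h1 := hW x (hO hx) v
  rw [hv, norm_zero, mul_zero] at h1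
  have h2 : 0 < (‖x.1‖ * ‖x.2‖) ^ k := by
    rw [← norm_mul]
    exact pow_pos (norm_pos_iff.2 hx') k
  have h3 : ‖v‖ ≤ 0 := by
    by_contra hcon
    push Not at hcon
    exact absurd h1 (not_le.2 (mul_pos h2 hcon))
  exact norm_le_zero_iff.1 h3

theorem qo_id (W : Set V) : QO (id : V → V) W := by
  intro O _ hOo hne
  rw [image_id, hOo.interior_eq]
  exact hne

theorem Bir.comp {ψ δ : V → V} (hψ : ∀ w, AnalyticAt ℂ ψ w) (hδ : ∀ w, AnalyticAt ℂ δ w)
    (hδ0 : δ 0 = 0) (hb : Bir ψ) (hb' : Bir δ) (hq : LB2 δ) (hq' : LB2 (fun w => ψ (δ w))) :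
    Bir (fun w => ψ (δ w)) := by
  have hδc : Continuous δ := continuous_iff_continuousAt.2 fun w => (hδ w).continuousAt
  have hψc : Continuous ψ := continuous_iff_continuousAt.2 fun w => (hψ w).continuousAt
  obtain ⟨W₁, hW₁, h01, hr1, hr2⟩ := hb
  obtain ⟨W₂, hW₂, h02, hr3, hr4⟩ := hb'
  obtain ⟨W₃, hW₃, h03, hq3⟩ := qo_of_lb hδ hq
  obtain ⟨W₄, hW₄, h04, hq4⟩ := qo_of_lb (fun w => AnalyticAt.fun_comp (hψ (δ w)) (hδ w)) hq'
  set W := δ ⁻¹' W₁ ∩ (W₂ ∩ (W₃ ∩ W₄)) with hW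
  have hWo : IsOpen W := (hW₁.preimage hδc).inter (hW₂.inter (hW₃.inter hW₄))
  have h0 : (0 : V) ∈ W := ⟨by rw [mem_preimage, hδ0]; exact h01, h02, h03, h04⟩
  refine ⟨W, hWo, h0, ?_, ?_⟩
  · have h1 : Rel (fun w => ψ (δ w)) (fun w => id (δ w)) W := hr1.comp (fun w hw => hw.1)
    have h2 : Rel δ id W := hr3.mono (fun w hw => hw.2.1)
    exact Rel.trans hWo ⟨0, h0⟩ (hψc.comp hδc).continuousOn (hq4.mono fun w hw => hw.2.2.2)
      (hq3.mono fun w hw => hw.2.2.1) h1 h2
  · have h1 : Rel (fun w => id (δ w)) (fun w => ψ (δ w)) W := hr2.comp (fun w hw => hw.1)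
    have h2 : Rel id δ W := hr4.mono (fun w hw => hw.2.1)
    exact Rel.trans hWo ⟨0, h0⟩ continuous_id.continuousOn (qo_id W)
      (hq3.mono fun w hw => hw.2.2.1) h2 h1

theorem bir_beta (c : ℂ) : Bir (beta c) := by
  refine ⟨univ, isOpen_univ, mem_univ _, ?_, ?_⟩
  · refine ⟨![X 0, X 0 * X 0, X 1 - C c * X 0], X_ne_zero 0, fun w _ => ⟨?_, ?_⟩⟩
    · change ev (X 0) (beta c w) * w.1 = ev (X 0 * X 0) (beta c w)
      rw [ev_mul, ev_X0]
      rfl
    · change ev (X 0) (beta c w) * w.2 = ev (X 1 - C c * X 0) (beta c w)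
      rw [ev_sub, ev_mul, ev_C, ev_X0, ev_X1]
      simp only [beta]
      ring
  · refine ⟨![1, X 0, X 0 * (X 1 + C c)], one_ne_zero, fun w _ => ⟨?_, ?_⟩⟩
    · change ev 1 w * (beta c w).1 = ev (X 0) w
      rw [ev_one, ev_X0, one_mul]
      rfl
    · change ev 1 w * (beta c w).2 = ev (X 0 * (X 1 + C c)) w
      rw [ev_one, ev_mul, ev_add, ev_C, ev_X0, ev_X1, one_mul]
      rfl

theorem bir_gamma : Bir gamma := by
  refine ⟨univ, isOpen_univ, mem_univ _, ?_, ?_⟩
  · refine ⟨![X 1, X 0, X 1 * X 1], X_ne_zero 1, fun w _ => ⟨?_, ?_⟩⟩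
    · change ev (X 1) (gamma w) * w.1 = ev (X 0) (gamma w)
      rw [ev_X0, ev_X1]
      simp only [gamma]
      ring
    · change ev (X 1) (gamma w) * w.2 = ev (X 1 * X 1) (gamma w)
      rw [ev_mul, ev_X1]
      rfl
  · refine ⟨![1, X 0 * X 1, X 1], one_ne_zero, fun w _ => ⟨?_, ?_⟩⟩
    · change ev 1 w * (gamma w).1 = ev (X 0 * X 1) w
      rw [ev_one, ev_mul, ev_X0, ev_X1, one_mul]
      rfl
    · change ev 1 w * (gamma w).2 = ev (X 1) w
      rw [ev_one, ev_X1, one_mul]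
      rfl

/-- the swapped blow-up -/
def gammaS (w : V) : V := (w.1 * w.2, w.1)

theorem an_gammaS (w : V) : AnalyticAt ℂ gammaS w :=
  (analyticAt_fst.mul analyticAt_snd).prod analyticAt_fst

theorem bir_gammaS : Bir gammaS := by
  refine ⟨univ, isOpen_univ, mem_univ _, ?_, ?_⟩
  · refine ⟨![X 1, X 1 * X 1, X 0], X_ne_zero 1, fun w _ => ⟨?_, ?_⟩⟩
    · change ev (X 1) (gammaS w) * w.1 = ev (X 1 * X 1) (gammaS w)
      rw [ev_mul, ev_X1]
      rfl
    · change ev (X 1) (gammaS w) * w.2 = ev (X 0) (gammaS w)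
      rw [ev_X0, ev_X1]
      rfl
  · refine ⟨![1, X 0 * X 1, X 0], one_ne_zero, fun w _ => ⟨?_, ?_⟩⟩
    · change ev 1 w * (gammaS w).1 = ev (X 0 * X 1) w
      rw [ev_one, ev_mul, ev_X0, ev_X1, one_mul]
      rfl
    · change ev 1 w * (gammaS w).2 = ev (X 0) w
      rw [ev_one, ev_X0, one_mul]
      rfl

theorem fderiv_gammaS (w v : V) :
    fderiv ℂ gammaS w v = (v.1 * w.2 + w.1 * v.2, v.1) := by
  have h1 := line_deriv' (an_gammaS w).differentiableAt v
  have ha : HasDerivAt (fun τ : ℂ => (gammaS (w + τ • v)).2) v.1 0 := hd_lin w.1 v.1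
  have hb : HasDerivAt (fun τ : ℂ => (gammaS (w + τ • v)).1) (v.1 * w.2 + w.1 * v.2) 0 := by
    have h3 := hd_mul (hd_lin w.1 v.1) (hd_lin w.2 v.2)
    have h4 : (fun τ : ℂ => (gammaS (w + τ • v)).1) =
        fun τ : ℂ => (w.1 + τ * v.1) * (w.2 + τ * v.2) := by
      funext τ
      simp only [gammaS, Prod.fst_add, Prod.snd_add, Prod.smul_fst, Prod.smul_snd, smul_eq_mul]
    rw [h4]
    simpa using h3
  exact Prod.ext ((hd_fst h1).unique hb) ((hd_snd h1).unique ha)

theorem kind_gammaS : Kind gammaS := by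
  refine Or.inl ⟨⟨1, 0, le_rfl, by simp, Or.inr fun w => ?_⟩, ?_⟩
  · simp [gammaS]
  · refine ⟨3 + ‖(0 : ℂ)‖, 1, by positivity, ?_⟩
    filter_upwards [lb_beta 0] with w hw v
    rw [pow_one]
    refine (hw v).trans (le_of_eq ?_)
    congr 1
    rw [fderiv_beta, fderiv_gammaS]
    simp only [Prod.norm_def, add_zero]
    exact max_comm _ _

theorem loc_translate (c : ℂ) (x : V) : Loc (fun w : V => ((w.1, w.2 - c) : V)) x := by
  refine loc_of_leftInv (g := fun w : V => ((w.1, w.2 + c) : V)) ?_ ?_ ?_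
  · exact analyticAt_fst.prod (analyticAt_snd.sub analyticAt_const)
  · exact analyticAt_fst.prod (analyticAt_snd.add analyticAt_const)
  · exact Eventually.of_forall fun y => by simp

theorem loc_swap (x : V) : Loc (fun w : V => ((w.2, w.1) : V)) x := by
  refine loc_of_leftInv (g := fun w : V => ((w.2, w.1) : V)) ?_ ?_ ?_
  · exact analyticAt_snd.prod analyticAt_fst
  · exact analyticAt_snd.prod analyticAt_fst
  · exact Eventually.of_forall fun y => by simp

theorem loc_translate' (c : ℂ) (x : V) : Loc (fun w : V => ((w.2, w.1 - c) : V)) x := by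
  refine loc_of_leftInv (g := fun w : V => ((w.2 + c, w.1) : V)) ?_ ?_ ?_
  · exact analyticAt_snd.prod (analyticAt_fst.sub analyticAt_const)
  · exact (analyticAt_snd.add analyticAt_const).prod analyticAt_fst
  · exact Eventually.of_forall fun y => by simp

section blow

variable {X Y : Type} [TopologicalSpace X] [ChartedSpace V X] [TopologicalSpace Y]
  [ChartedSpace V Y]

theorem blow_aux {f : Y → V} {κ : OpenPartialHomeomorph Y V} (hκ : IsChart κ) {e : Y}
    (he : e ∈ κ.source) (hκ0 : κ e = 0) {g : V → V} (hg : Loc g 0) (hg0 : g 0 = 0) {c : ℂ}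
    (h : ∀ᶠ z in 𝓝 e, f z = g (beta c (κ z))) :
    ∃ a : OpenPartialHomeomorph Y V, IsChart a ∧ e ∈ a.source ∧ a e = 0 ∧
      ((∃ c', ∀ᶠ z in 𝓝 e, f z = beta c' (a z)) ∨ ∀ᶠ z in 𝓝 e, f z = gamma (a z)) := by
  obtain ⟨g', hg', hg'0, hor⟩ := lift_beta hg hg0 c
  obtain ⟨a, ha, hea, -, hag⟩ := chart_comp hκ he (g := g') (by rw [hκ0]; exact hg')
  have ht : Tendsto κ (𝓝 e) (𝓝 0) := by
    have := κ.continuousAt he
    rwa [ContinuousAt, hκ0] at this
  refine ⟨a, ha, hea, by rw [hag, hκ0, hg'0], ?_⟩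
  rcases hor with ⟨c', hc'⟩ | hc'
  · left
    refine ⟨c', ?_⟩
    filter_upwards [h, ht.eventually hc'] with z h1 h2
    rw [h1, h2, hag]
  · right
    filter_upwards [h, ht.eventually hc'] with z h1 h2
    rw [h1, h2, hag]

theorem blowUp_chart {π : Y → X} {p : X} (h : IsBlowUp π p) {b : OpenPartialHomeomorph X V}
    (hb : IsChart b) (hpb : p ∈ b.source) (hb0 : b p = 0) {e : Y} (he : π e = p) :
    ∃ a : OpenPartialHomeomorph Y V, IsChart a ∧ e ∈ a.source ∧ a e = 0 ∧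
      ((∃ c', ∀ᶠ z in 𝓝 e, b (π z) = beta c' (a z)) ∨
        ∀ᶠ z in 𝓝 e, b (π z) = gamma (a z)) := by
  obtain ⟨φ, c₁, c₂, hφ, hc₁, hc₂, hpφ, hφ0, hcov, -, h1, -, h2⟩ := h.charts
  set g : V → V := fun w => b (φ.symm w) with hg
  have hgl : Loc g 0 := by
    have := trans_loc hb hφ hpb hpφ
    rwa [hφ0] at this
  have hs : φ.symm 0 = p := by
    rw [← hφ0]
    exact φ.left_inv hpφ
  have hg0 : g 0 = 0 := by
    simp only [hg, hs, hb0]
  have hπ : ContinuousAt π e := h.holomorphic.continuous.continuousAt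
  have h3 : ∀ᶠ z in 𝓝 e, b (π z) = g (φ (π z)) := by
    have : ∀ᶠ z in 𝓝 e, π z ∈ φ.source := by
      apply hπ.eventually_mem
      rw [he]
      exact φ.open_source.mem_nhds hpφ
    filter_upwards [this] with z hz
    simp only [hg]
    rw [φ.left_inv hz]
  have h4 : e ∈ c₁.source ∪ c₂.source := by
    rw [← hcov, mem_preimage, he]
    exact hpφ
  rcases h4 with h4 | h4
  · have h5 := h1 e h4
    rw [he, hφ0] at h5
    have h6 : (c₁ e).1 = 0 := (congrArg Prod.fst h5).symm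
    obtain ⟨κ, hκ, heκ, -, hκc⟩ := chart_comp hc₁ h4 (loc_translate (c₁ e).2 (c₁ e))
    refine blow_aux hκ heκ ?_ hgl hg0 (c := (c₁ e).2) ?_
    · rw [hκc]
      ext
      · simpa using h6
      · simp
    · filter_upwards [h3, c₁.open_source.mem_nhds h4] with z hz hz1
      rw [hz, h1 z hz1, hκc]
      simp [beta]
  · have h5 := h2 e h4
    rw [he, hφ0] at h5
    have h6 : (c₂ e).2 = 0 := (congrArg Prod.snd h5).symm
    obtain ⟨κ, hκ, heκ, -, hκc⟩ := chart_comp hc₂ h4 (loc_translate' (c₂ e).1 (c₂ e))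
    have hgs : Loc (fun w : V => g (w.2, w.1)) 0 :=
      Loc.comp (g := g) (f := fun w : V => ((w.2, w.1) : V)) hgl (loc_swap 0)
    refine blow_aux hκ heκ ?_ hgs hg0 (c := (c₂ e).1) ?_
    · rw [hκc]
      ext
      · simpa using h6
      · simp
    · filter_upwards [h3, c₂.open_source.mem_nhds h4] with z hz hz1
      rw [hz, h2 z hz1, hκc]
      simp [beta, mul_comm]

end blow

theorem tower_chart {n : ℕ} {Z : SurfaceOver} (hZ : IsTower n Z) {b : V → V} (hb : Loc b 0)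
    (hb0 : b 0 = 0) : ∀ {e : Z.X}, Z.proj e = 0 →
    ∃ a : OpenPartialHomeomorph Z.X V, IsChart a ∧ e ∈ a.source ∧ a e = 0 ∧
      ∃ ψ : V → V, (∀ w, AnalyticAt ℂ ψ w) ∧ ψ 0 = 0 ∧ Bir ψ ∧ (Kind ψ ∨ (n = 0 ∧ ψ = id)) ∧
        ∀ᶠ z in 𝓝 e, b (Z.proj z) = ψ (a z) := by
  induction hZ with
  | plane =>
    intro e he
    have he' : e = (0 : V) := he
    subst he'
    obtain ⟨a, h0, ha, hab⟩ := exists_local_chart hb
    refine ⟨a, ha, h0, by rw [hab, hb0], id, fun w => analyticAt_id, rfl, ?_, Or.inr ⟨rfl, rfl⟩, ?_⟩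
    · exact ⟨univ, isOpen_univ, mem_univ _, Rel.refl _ _, Rel.refl _ _⟩
    · exact Eventually.of_forall fun z => (hab z).symm
  | blowUp n Y Z π p hY hp hπ hproj ih =>
    intro e he
    have he' : Y.proj (π e) = 0 := by rw [← hproj, he]
    obtain ⟨a', ha', hea', ha'0, ψ, hψ, hψ0, hbir, hkind, hev⟩ := ih he'
    have hπc : ContinuousAt π e := hπ.holomorphic.continuous.continuousAt
    by_cases hep : π e = p
    · obtain ⟨a, ha, hea, ha0, hor⟩ := blowUp_chart hπ ha' (by rw [← hep]; exact hea')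
        (by rw [← hep]; exact ha'0) hep
      have hat : Tendsto a (𝓝 e) (𝓝 0) := by
        have := a.continuousAt hea
        rwa [ContinuousAt, ha0] at this
      rcases hor with ⟨c, hc⟩ | hc
      · refine ⟨a, ha, hea, ha0, fun w => ψ (beta c w),
          fun w => AnalyticAt.fun_comp (hψ _) (an_beta c w), by simp only [beta_zero, hψ0], ?_, ?_, ?_⟩
        · rcases hkind with hk | ⟨-, hk⟩
          · exact Bir.comp hψ (an_beta c) (beta_zero c) hbir (bir_beta c) (kind_beta c).lb2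
              (hk.beta hψ c).lb2
          · subst hk
            exact bir_beta c
        · rcases hkind with hk | ⟨-, hk⟩
          · exact Or.inl (hk.beta hψ c)
          · subst hk
            exact Or.inl (kind_beta c)
        · filter_upwards [hπc.eventually hev, hc] with z h1 h2
          rw [hproj, h1, h2]
      · rcases hkind with hk | ⟨-, hk⟩
        · refine ⟨a, ha, hea, ha0, fun w => ψ (gamma w),
            fun w => AnalyticAt.fun_comp (hψ _) (an_gamma w), by simp only [gamma_zero, hψ0],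
            ?_, ?_, ?_⟩
          · exact Bir.comp hψ an_gamma gamma_zero hbir bir_gamma lb2_gamma (hk.gamma hψ).lb2
          · exact Or.inl (hk.gamma hψ)
          · filter_upwards [hπc.eventually hev, hc] with z h1 h2
            rw [hproj, h1, h2]
        · subst hk
          obtain ⟨a₁, ha₁, hea₁, -, haa⟩ := chart_comp ha hea (loc_swap (a e))
          refine ⟨a₁, ha₁, hea₁, ?_, gammaS, an_gammaS, by simp [gammaS], bir_gammaS,
            Or.inl kind_gammaS, ?_⟩
          · rw [haa, ha0]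
            rfl
          · filter_upwards [hπc.eventually hev, hc] with z h1 h2
            rw [hproj, h1, h2, haa]
            simp [gammaS, gamma, mul_comm]
    · obtain ⟨a, ha, hea, haπ⟩ := isChart_of_diffeo (hπ.biholomorphic e hep) ha' hea'
      refine ⟨a, ha, hea, by rw [(haπ e hea).2, ha'0], ψ, hψ, hψ0, hbir, ?_, ?_⟩
      · rcases hkind with hk | ⟨hn, hk⟩
        · exact Or.inl hk
        · exfalso
          subst hn
          cases hY
          exact hep (he'.trans hp.symm)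
      · filter_upwards [hπc.eventually hev, a.open_source.mem_nhds hea] with z h1 h2
        rw [hproj, h1, (haπ z h2).2]

end Pool.Agent.U157.Kato
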